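import Pool.Agent.helper72.RDC.Fol

/-!
# Project RDL (MP_663661_an): common definitions

`Sized R`: a commutative ring with a filtration by size, each of whose nonzero elements of size `a`
survives in a finite field with at most `(a + 2) ^ c` elements.
-/

namespace Pool.Agent.H79RDL

open Pool.Agent.helper91.RDR Pool.Agent.helper72.RDC

/-- A commutative ring with a filtration `B a` by size, such that every nonzero element of size
`a` survives in a finite field with at most `(a + 2) ^ c` elements. -/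
structure Sized (R : Type) [CommRing R] where
  B : ℕ → Set R
  mono : ∀ {a b : ℕ}, a ≤ b → B a ⊆ B b
  exh : ∀ x : R, ∃ a, x ∈ B a
  zero : (0 : R) ∈ B 0
  one : (1 : R) ∈ B 0
  neg : ∀ {a : ℕ} {x : R}, x ∈ B a → -x ∈ B a
  add : ∀ {a : ℕ} {x y : R}, x ∈ B a → y ∈ B a → x + y ∈ B (a + 1)
  mul : ∀ {a b : ℕ} {x y : R}, x ∈ B a → y ∈ B b → x * y ∈ B (a + b)
  red : ∃ c : ℕ, ∀ (a : ℕ) (x : R), x ∈ B a → x ≠ 0 → ∃ (k : Type) (_ : Field k) (_ : Finite k)
    (ψ : R →+* k), ψ x ≠ 0 ∧ Nat.card k ≤ (a + 2) ^ c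

/-- The operator `λ(f)` of left convolution by `f` on `ℓ²(G)`. -/
noncomputable def lamOp {G : Type*} [Group G] (f : G →₀ ℂ) :
    lp (fun _ : G => ℂ) 2 →L[ℂ] lp (fun _ : G => ℂ) 2 :=
  f.sum fun g c => c • lam g

/-- The squared `ℓ²` norm of `f`. -/
noncomputable def sq2 {G : Type*} (f : G →₀ ℂ) : ℝ := f.sum fun _ c => ‖c‖ ^ 2

/-- The operator `π(f)`. -/
noncomputable def piOp {G : Type*} [Group G] {V : Type*} [NormedAddCommGroup V]
    [InnerProductSpace ℂ V] [CompleteSpace V] (π : G →* unitary (V →L[ℂ] V)) (f : G →₀ ℂ) :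
    V →L[ℂ] V :=
  f.sum fun g c => c • (π g : V →L[ℂ] V)

theorem lamOp_single {G : Type*} [Group G] (g : G) (c : ℂ) :
    lamOp (Finsupp.single g c) = c • lam g :=
  Finsupp.sum_single_index (zero_smul _ _)

theorem piOp_single {G : Type*} [Group G] {V : Type*} [NormedAddCommGroup V]
    [InnerProductSpace ℂ V] [CompleteSpace V] (π : G →* unitary (V →L[ℂ] V)) (g : G) (c : ℂ) :
    piOp π (Finsupp.single g c) = c • (π g : V →L[ℂ] V) :=
  Finsupp.sum_single_index (zero_smul _ _)

theorem lamOp_add {G : Type*} [Group G] (f f' : G →₀ ℂ) : lamOp (f + f') = lamOp f + lamOp f' :=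
  Finsupp.sum_add_index' (fun _ => zero_smul _ _) fun _ _ _ => add_smul _ _ _

theorem piOp_add {G : Type*} [Group G] {V : Type*} [NormedAddCommGroup V]
    [InnerProductSpace ℂ V] [CompleteSpace V] (π : G →* unitary (V →L[ℂ] V)) (f f' : G →₀ ℂ) :
    piOp π (f + f') = piOp π f + piOp π f' :=
  Finsupp.sum_add_index' (fun _ => zero_smul _ _) fun _ _ _ => add_smul _ _ _

theorem lamOp_zero {G : Type*} [Group G] : lamOp (0 : G →₀ ℂ) = 0 := Finsupp.sum_zero_index

theorem piOp_zero {G : Type*} [Group G] {V : Type*} [NormedAddCommGroup V]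
    [InnerProductSpace ℂ V] [CompleteSpace V] (π : G →* unitary (V →L[ℂ] V)) :
    piOp π (0 : G →₀ ℂ) = 0 := Finsupp.sum_zero_index

theorem lamOp_sum {G ι : Type*} [Group G] (s : Finset ι) (f : ι → G →₀ ℂ) :
    lamOp (∑ i ∈ s, f i) = ∑ i ∈ s, lamOp (f i) := by
  classical
  induction s using Finset.induction_on with
  | empty => simp [lamOp_zero]
  | insert a s ha ih => rw [Finset.sum_insert ha, Finset.sum_insert ha, lamOp_add, ih]

theorem piOp_sum {G ι : Type*} [Group G] {V : Type*} [NormedAddCommGroup V]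
    [InnerProductSpace ℂ V] [CompleteSpace V] (π : G →* unitary (V →L[ℂ] V)) (s : Finset ι)
    (f : ι → G →₀ ℂ) : piOp π (∑ i ∈ s, f i) = ∑ i ∈ s, piOp π (f i) := by
  classical
  induction s using Finset.induction_on with
  | empty => simp [piOp_zero]
  | insert a s ha ih => rw [Finset.sum_insert ha, Finset.sum_insert ha, piOp_add, ih]

theorem inner_lamOp {G : Type*} [Group G] [DecidableEq G] (f : G →₀ ℂ) :
    inner ℂ (dl G) (lamOp f (dl G)) = f 1 := inner_dl f

theorem sq2_nonneg {G : Type*} (f : G →₀ ℂ) : 0 ≤ sq2 f :=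
  Finset.sum_nonneg fun _ _ => by positivity

/-- A homomorphism from a group generated by `S` lifts through an injective homomorphism if the
images of the elements of `S` do. -/
theorem lift_gens {Γ H H' : Type*} [Group Γ] [Group H] [Group H'] (S : Set Γ)
    (hS : Subgroup.closure S = ⊤) (j : H →* H') (hj : Function.Injective j) (φ : Γ →* H')
    (h : ∀ s ∈ S, φ s ∈ j.range) : ∃ φ' : Γ →* H, ∀ x, j (φ' x) = φ x := by
  have h1 : ∀ x, φ x ∈ j.range := by
    intro x
    have h2 : Subgroup.closure S ≤ j.range.comap φ := by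
      rw [Subgroup.closure_le]
      exact h
    rw [hS] at h2
    exact h2 (Subgroup.mem_top x)
  refine ⟨(MonoidHom.ofInjective hj).symm.toMonoidHom.comp (φ.codRestrict j.range h1), fun x => ?_⟩
  have h3 := MonoidHom.apply_ofInjective_symm hj ⟨φ x, h1 x⟩
  exact h3

end Pool.Agent.H79RDL
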