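import Pool.Agent.H79RDL.Base

/-!
# RDL-Card: Følner sets and the number of elements in a ball
-/

namespace Pool.Agent.H79RDL

open Pool.Agent.helper91.RDR Pool.Agent.helper72.RDC
open scoped InnerProductSpace Pointwise
open Filter Topology

variable {G : Type*} [Group G] {L : G → ℕ} {V : Type*} [NormedAddCommGroup V]
  [InnerProductSpace ℂ V] [CompleteSpace V]

/-- **Subgroups of `pcSub` satisfy Følner's condition.** PROOF: the proof of `pcSub_folner`
(helper72/RDC/Fol.lean) verbatim; its Følner sets `T' ^ j` lie in `Subgroup.closure T`, hence in `N`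
(only the very last lines change). -/
theorem folner_of_le [Nontrivial V] (hL : IsLength L) {π : G →* unitary (V →L[ℂ] V)}
    (hπ : RepRD L π) {l : Filter ℕ} [l.NeBot] (hl : l ≤ atTop) {N : Subgroup G}
    (hN : N ≤ pcSub L l) : IsFolner N := by
  classical
  obtain ⟨s, hs, C, h⟩ := hπ
  have hC := RepRD.nonneg h
  intro T hT0 ε hε
  have hT : ∀ t ∈ T, t ∈ pcSub L l := fun t ht => hN (hT0 t ht)
  have hk : ∀ t, ∃ k : ℕ, t ∈ T → ∀ᶠ n in l, ConjSize L t n ≤ ((n ^ k : ℕ) : ℕ∞) := by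
    intro t
    by_cases ht : t ∈ T
    · obtain ⟨k, hk⟩ := hT t ht 1
      exact ⟨k, fun _ => by simpa using hk⟩
    · exact ⟨0, fun h => absurd h ht⟩
  choose k hk using hk
  have hall : ∀ᶠ n in l, ∀ t ∈ T, ConjSize L t n ≤ ((n ^ k t : ℕ) : ℕ∞) := by
    rw [Filter.eventually_all_finset]
    exact fun t ht => hk t ht
  obtain ⟨m, hm⟩ : ∃ m : ℕ, m = T.sup L + 1 := ⟨_, rfl⟩
  have hm0 : 0 < m := by omega
  obtain ⟨T', hT'⟩ : ∃ T' : Finset G, T' = insert 1 (T ∪ T.image fun t => t⁻¹) := ⟨_, rfl⟩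
  have h1T : (1 : G) ∈ T' := by rw [hT']; exact Finset.mem_insert_self _ _
  have hT'm : ∀ x ∈ T', x ∈ Subgroup.closure (T : Set G) ∧ L x ≤ m := by
    intro x hx
    rw [hT', Finset.mem_insert, Finset.mem_union, Finset.mem_image] at hx
    rcases hx with rfl | hx | ⟨t, ht, rfl⟩
    · exact ⟨Subgroup.one_mem _, by rw [hL.one]; omega⟩
    · refine ⟨Subgroup.subset_closure hx, ?_⟩
      have := Finset.le_sup (f := L) hx
      omega
    · refine ⟨Subgroup.inv_mem _ (Subgroup.subset_closure ht), ?_⟩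
      rw [hL.inv]
      have := Finset.le_sup (f := L) ht
      omega
  have hpow : ∀ j : ℕ, ∀ x ∈ T' ^ j, x ∈ Subgroup.closure (T : Set G) ∧ L x ≤ j * m := by
    intro j
    induction j with
    | zero =>
      intro x hx
      rw [pow_zero, Finset.mem_one] at hx
      subst hx
      exact ⟨Subgroup.one_mem _, by rw [hL.one]; omega⟩
    | succ j ih =>
      intro x hx
      rw [pow_succ, Finset.mem_mul] at hx
      obtain ⟨a, ha, b, hb, rfl⟩ := hx
      refine ⟨Subgroup.mul_mem _ (ih a ha).1 (hT'm b hb).1, ?_⟩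
      have h2 := (ih a ha).2
      have h3 := (hT'm b hb).2
      have h4 := hL.mul a b
      rw [Nat.succ_mul]
      omega
  obtain ⟨e, he⟩ : ∃ e : ℕ, e = ∑ t ∈ T, k t := ⟨_, rfl⟩
  obtain ⟨q, hq⟩ := exists_nat_ge s
  have hfreq : ∃ᶠ j : ℕ in atTop, ((T' ^ j).card : ℝ) ≤
      (C * (3 * m) ^ q * m ^ e) * ((j : ℝ) + 1) ^ (q + e) := by
    have htend : Tendsto (fun n : ℕ => n / m) l atTop :=
      (Nat.tendsto_div_const_atTop hm0.ne').mono_left hl
    refine htend.frequently (Eventually.frequently ?_)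
    filter_upwards [hall] with n hn
    obtain ⟨j, hj⟩ : ∃ j, j = n / m := ⟨_, rfl⟩
    rw [← hj]
    have hjn : j * m ≤ n := by rw [hj]; exact Nat.div_mul_le_self n m
    have hnj : n < (j + 1) * m := by
      rw [hj]
      have := Nat.lt_div_mul_add (a := n) hm0
      rw [add_mul, one_mul]
      exact this
    have h1 := card_closure hL π hs h hn (X := T' ^ j) fun x hx =>
      ⟨(hpow j x hx).1, (hpow j x hx).2.trans hjn⟩
    rw [← he] at h1
    refine h1.trans ?_
    have hnr : (n : ℝ) ≤ ((j : ℝ) + 1) * m := by exact_mod_cast hnj.le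
    have hj1 : (1 : ℝ) ≤ ((j : ℝ) + 1) * m := by
      have : (1 : ℝ) ≤ m := by exact_mod_cast hm0
      nlinarith [(Nat.cast_nonneg j : (0 : ℝ) ≤ j)]
    have h2 : (1 + ((2 * n : ℕ) : ℝ)) ^ s ≤ ((3 * m) * ((j : ℝ) + 1)) ^ q := by
      rw [← Real.rpow_natCast]
      have h3 : 1 + ((2 * n : ℕ) : ℝ) ≤ (3 * m) * ((j : ℝ) + 1) := by
        push_cast
        linarith
      have h4 : (1 : ℝ) ≤ 1 + ((2 * n : ℕ) : ℝ) := by
        have : (0 : ℝ) ≤ ((2 * n : ℕ) : ℝ) := Nat.cast_nonneg _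
        linarith
      calc (1 + ((2 * n : ℕ) : ℝ)) ^ s ≤ (1 + ((2 * n : ℕ) : ℝ)) ^ (q : ℝ) :=
            Real.rpow_le_rpow_of_exponent_le h4 hq
        _ ≤ _ := Real.rpow_le_rpow (by linarith) h3 (by positivity)
    calc C * (1 + ((2 * n : ℕ) : ℝ)) ^ s * (n : ℝ) ^ e
        ≤ C * ((3 * m) * ((j : ℝ) + 1)) ^ q * (((j : ℝ) + 1) * m) ^ e := by gcongr
      _ = _ := by
          rw [mul_pow ((3 : ℝ) * m) ((j : ℝ) + 1) q, mul_pow ((j : ℝ) + 1) (m : ℝ) e, pow_add]
          ring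
  obtain ⟨j, hj⟩ := slow_step hfreq hε
  refine ⟨T' ^ j, ?_, ?_, ?_⟩
  · exact ⟨1, Finset.one_mem_pow h1T⟩
  · intro x hx
    have h2 : Subgroup.closure (T : Set G) ≤ N := by
      rw [Subgroup.closure_le]
      exact fun t ht => hT0 t ht
    exact h2 (hpow j x hx).1
  · intro t ht
    have hsub : T' ^ j ⊆ T' ^ (j + 1) := by
      intro x hx
      rw [pow_succ, Finset.mem_mul]
      exact ⟨x, hx, 1, h1T, mul_one x⟩
    have hfin : ({x : G | x ∈ T' ^ j ∧ t * x ∉ T' ^ j}).ncard ≤ (T' ^ (j + 1) \ T' ^ j).card := by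
      rw [← Set.ncard_coe_finset]
      refine Set.ncard_le_ncard_of_injOn (fun x => t * x) ?_ ?_ (Finset.finite_toSet _)
      · rintro x ⟨hx1, hx2⟩
        rw [Finset.mem_coe, Finset.mem_sdiff]
        refine ⟨?_, hx2⟩
        rw [pow_succ', Finset.mem_mul]
        refine ⟨t, ?_, x, hx1, rfl⟩
        rw [hT']
        exact Finset.mem_insert_of_mem (Finset.mem_union_left _ ht)
      · intro a _ b _ hab
        exact mul_left_cancel hab
    have h2 : ((T' ^ (j + 1) \ T' ^ j).card : ℝ) = (T' ^ (j + 1)).card - (T' ^ j).card := by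
      rw [Finset.card_sdiff_of_subset hsub, Nat.cast_sub (Finset.card_le_card hsub)]
    have h3 : (({x : G | x ∈ T' ^ j ∧ t * x ∉ T' ^ j}).ncard : ℝ) ≤
        ((T' ^ (j + 1) \ T' ^ j).card : ℝ) := by exact_mod_cast hfin
    linarith

/-- **The number of elements of `K` in a ball.** PROOF: as `card_closure` (helper72/RDC/Fol.lean),
with `Subgroup.closure T` replaced by `K` and `D = K ⊓ centralizer T`, which is commutative by
`hT`; the fibres of `x ↦ (x t x⁻¹)_{t ∈ T}` on `X` are contained in cosets `x₀ D`, so they have at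
most `C (1 + 2 m)^s` elements by `abelian_card`, and the image has at most `∏ b t` elements. -/
theorem card_centr [Nontrivial V] (hL : IsLength L) (π : G →* unitary (V →L[ℂ] V)) {s C : ℝ}
    (hs : 0 < s)
    (h : ∀ v w : V, ‖v‖ = 1 → ‖w‖ = 1 → ∀ F : Finset G,
      ∑ g ∈ F, ‖inner ℂ ((π g : V →L[ℂ] V) v) w‖ ^ 2 * (1 + (L g : ℝ)) ^ (-s) ≤ C)
    (K : Subgroup G) {T : Finset G}
    (hT : ∀ y ∈ K, (∀ t ∈ T, y * t = t * y) → ∀ k ∈ K, y * k = k * y) {m : ℕ} {b : G → ℕ}
    (hb : ∀ t ∈ T, ConjSize L t m ≤ ((b t : ℕ) : ℕ∞)) {X : Finset G}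
    (hX : ∀ x ∈ X, x ∈ K ∧ L x ≤ m) :
    (X.card : ℝ) ≤ (C * (1 + ((2 * m : ℕ) : ℝ)) ^ s) * ((∏ t ∈ T, b t : ℕ) : ℝ) := by
  classical
  have hC := RepRD.nonneg h
  obtain ⟨D, hD⟩ : ∃ D : Subgroup G, D = K ⊓ Subgroup.centralizer (T : Set G) := ⟨_, rfl⟩
  have hDc : ∀ x ∈ D, ∀ y ∈ D, x * y = y * x := by
    intro x hx y hy
    rw [hD, Subgroup.mem_inf] at hx hy
    exact (hT y hy.1 (fun t ht => (Subgroup.mem_centralizer_iff.1 hy.2 t ht).symm) x hx.1).symm
  obtain ⟨Φ, hΦ⟩ : ∃ Φ : G → ((t : T) → G), Φ = fun x (t : T) => x * (t : G) * x⁻¹ := ⟨_, rfl⟩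
  obtain ⟨M, hM⟩ : ∃ M : ℕ, M = ⌊C * (1 + ((2 * m : ℕ) : ℝ)) ^ s⌋₊ := ⟨_, rfl⟩
  have hM0 : (M : ℝ) ≤ C * (1 + ((2 * m : ℕ) : ℝ)) ^ s := by
    rw [hM]
    exact Nat.floor_le (by positivity)
  have hfib : ∀ a ∈ X.image Φ, (X.filter fun x => Φ x = a).card ≤ M := by
    intro a ha
    rw [Finset.mem_image] at ha
    obtain ⟨x0, hx0, rfl⟩ := ha
    have h1 : ((X.filter fun x => Φ x = Φ x0).image fun x => x0⁻¹ * x).card =
        (X.filter fun x => Φ x = Φ x0).card :=
      Finset.card_image_of_injective _ fun a b hab => mul_left_cancel hab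
    rw [← h1, hM]
    apply Nat.le_floor
    refine abelian_card π hs h D hDc (2 * m) _ fun g hg => ?_
    rw [Finset.mem_image] at hg
    obtain ⟨x, hx, rfl⟩ := hg
    rw [Finset.mem_filter] at hx
    obtain ⟨hxX, hxΦ⟩ := hx
    constructor
    · rw [hD, Subgroup.mem_inf]
      constructor
      · exact Subgroup.mul_mem _ (Subgroup.inv_mem _ (hX x0 hx0).1) (hX x hxX).1
      · rw [Subgroup.mem_centralizer_iff]
        intro t ht
        have h2 : x * t * x⁻¹ = x0 * t * x0⁻¹ := by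
          have := congrFun hxΦ ⟨t, ht⟩
          rw [hΦ] at this
          exact this
        calc t * (x0⁻¹ * x) = x0⁻¹ * (x0 * t * x0⁻¹) * x := by group
          _ = x0⁻¹ * (x * t * x⁻¹) * x := by rw [h2]
          _ = _ := by group
    · refine (hL.mul _ _).trans ?_
      rw [hL.inv]
      have := (hX x0 hx0).2
      have := (hX x hxX).2
      omega
  have himg : (X.image Φ).card ≤ ∏ t ∈ T, b t := by
    have h1 : X.image Φ ⊆ Fintype.piFinset fun t : T => X.image fun x => x * (t : G) * x⁻¹ := by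
      intro a ha
      rw [Finset.mem_image] at ha
      obtain ⟨x, hx, rfl⟩ := ha
      rw [Fintype.mem_piFinset]
      intro t
      rw [hΦ]
      exact Finset.mem_image_of_mem _ hx
    refine (Finset.card_le_card h1).trans ?_
    rw [Fintype.card_piFinset, ← Finset.prod_coe_sort T]
    refine Finset.prod_le_prod' fun t _ => ?_
    have h2 : (((X.image fun x => x * (t : G) * x⁻¹) : Finset G) : Set G).encard ≤
        ConjSize L (t : G) m := by
      refine Set.encard_le_encard ?_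
      intro y hy
      rw [Finset.mem_coe, Finset.mem_image] at hy
      obtain ⟨x, hx, rfl⟩ := hy
      exact ⟨x, (hX x hx).2, rfl⟩
    rw [Set.encard_coe_eq_coe_finsetCard] at h2
    exact_mod_cast h2.trans (hb t t.2)
  have hcard := Finset.card_le_mul_card_image (f := Φ) X M hfib
  calc (X.card : ℝ) ≤ (M : ℝ) * ((X.image Φ).card : ℝ) := by exact_mod_cast hcard
    _ ≤ (C * (1 + ((2 * m : ℕ) : ℝ)) ^ s) * ((∏ t ∈ T, b t : ℕ) : ℝ) := by
        apply mul_le_mul hM0 _ (Nat.cast_nonneg _) (by positivity)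
        exact_mod_cast himg

end Pool.Agent.H79RDL
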