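import Pool.Agent.H79RDL.Base

/-!
# RDL-Cent: centralizers in linear groups are centralizers of finite sets
-/

namespace Pool.Agent.H79RDL

open Pool.Agent.helper91.RDR Pool.Agent.helper72.RDC

/-- A set of matrices has a finite subset with the same linear span, hence with the same
commutant. PROOF: `Submodule.span F (φ '' K)` is finite-dimensional (Noetherian), so by
`Submodule.fg_span_iff_fg_span_finset_subset` (or `Submodule.FG` and `Submodule.mem_span_finite_of_mem_span`)
it is the span of `φ '' T`, `T ⊆ K` finite; the matrices commuting with `φ y` form a subspace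
(`Submodule.span_induction`). -/
theorem exists_cent_one {Γ : Type*} [Group Γ] {F : Type*} [Field F] {d : ℕ}
    (φ : Γ →* Matrix.GeneralLinearGroup (Fin d) F) (K : Subgroup Γ) :
    ∃ T : Finset Γ, (∀ t ∈ T, t ∈ K) ∧ ∀ y : Γ, (∀ t ∈ T, φ y * φ t = φ t * φ y) →
      ∀ k ∈ K, φ y * φ k = φ k * φ y := by
  classical
  let f : Γ → Matrix (Fin d) (Fin d) F := fun g => (φ g : Matrix (Fin d) (Fin d) F)
  have hfg : (Submodule.span F (f '' (K : Set Γ))).FG := IsNoetherian.noetherian _
  obtain ⟨S, hSsub, hSspan⟩ := Submodule.fg_span_iff_fg_span_finset_subset _ |>.1 hfg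
  obtain ⟨T, hTK, hTS⟩ := (Finset.subset_set_image_iff (f := f)).1 hSsub
  refine ⟨T, fun t ht => hTK ht, fun y hy k hk => ?_⟩
  have hk' : f k ∈ Submodule.span F (S : Set (Matrix (Fin d) (Fin d) F)) := by
    rw [← hSspan]; exact Submodule.subset_span ⟨k, hk, rfl⟩
  have key : f y * f k = f k * f y := by
    generalize f k = m at hk'
    induction hk' using Submodule.span_induction with
    | mem x hx =>
      have hx' : x ∈ S := hx
      rw [← hTS, Finset.mem_image] at hx'
      obtain ⟨t, ht, rfl⟩ := hx'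
      have := congrArg (fun u : Matrix.GeneralLinearGroup (Fin d) F =>
        (u : Matrix (Fin d) (Fin d) F)) (hy t ht)
      simpa [f] using this
    | zero => simp
    | add a b _ _ ha hb => rw [mul_add, add_mul, ha, hb]
    | smul c a _ ha => rw [mul_smul_comm, smul_mul_assoc, ha]
  apply Units.ext
  simpa [f] using key

/-- **Centralizers.** PROOF: union of the finite sets of `exists_cent_one` over the finite index
set `ι`. If `y` commutes with all `t ∈ T` and `k ∈ K` then `g = y k y⁻¹ k⁻¹` lies in `K` (normal)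
and `φ i g = 1` for all `i`, so `g = 1`. -/
theorem exists_cent {Γ : Type*} [Group Γ] {ι : Type*} [Finite ι] {F : ι → Type*}
    [∀ i, Field (F i)] {d : ι → ℕ}
    (φ : ∀ i, Γ →* Matrix.GeneralLinearGroup (Fin (d i)) (F i)) (K : Subgroup Γ)
    (hKn : K.Normal) (hK : ∀ g ∈ K, (∀ i, φ i g = 1) → g = 1) :
    ∃ T : Finset Γ, (∀ t ∈ T, t ∈ K) ∧ ∀ y : Γ, (∀ t ∈ T, y * t = t * y) →
      ∀ k ∈ K, y * k = k * y := by
  classical
  have := Fintype.ofFinite ι
  choose T hTK hT using fun i => exists_cent_one (φ i) K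
  refine ⟨Finset.univ.biUnion T, ?_, ?_⟩
  · intro t ht
    obtain ⟨i, -, hi⟩ := Finset.mem_biUnion.1 ht
    exact hTK i t hi
  · intro y hy k hk
    have hcomm : ∀ i, φ i y * φ i k = φ i k * φ i y := by
      intro i
      refine hT i y (fun t ht => ?_) k hk
      rw [← map_mul, ← map_mul, hy t (Finset.mem_biUnion.2 ⟨i, Finset.mem_univ _, ht⟩)]
    have hg : y * k * y⁻¹ * k⁻¹ = 1 := by
      apply hK
      · exact K.mul_mem (hKn.conj_mem k hk y) (K.inv_mem hk)
      · intro i
        rw [map_mul, map_mul, map_mul, map_inv, map_inv, hcomm i]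
        group
    have := mul_inv_eq_one.1 hg
    exact mul_inv_eq_iff_eq_mul.1 this

end Pool.Agent.H79RDL
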