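import Pool.Agent.H79RDL.Base

/-!
# RDL-Coset: the energy and the cosets of a normal subgroup of finite index
-/

namespace Pool.Agent.H79RDL

open Pool.Agent.helper91.RDR Pool.Agent.helper72.RDC
open scoped InnerProductSpace

variable {G : Type*} [Group G] {L : G → ℕ} {V : Type*} [NormedAddCommGroup V]
  [InnerProductSpace ℂ V] [CompleteSpace V]

private theorem rearr {Q A ι : Type*} [Fintype Q] [DecidableEq Q] [Ring A] (D D' : Finset ι)
    (κ κ' : ι → Q) (e : Q → Q) (u u' : ι → A) :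
    ∑ c : Q, (∑ p ∈ D, if κ p = c then u p else 0) * (∑ q ∈ D', if κ' q = e c then u' q else 0) =
      ∑ p ∈ D, ∑ q ∈ D', if κ' q = e (κ p) then u p * u' q else 0 := by
  have h1 : ∀ c : Q, (∑ p ∈ D, if κ p = c then u p else 0) *
      (∑ q ∈ D', if κ' q = e c then u' q else 0) =
      ∑ p ∈ D, if κ p = c then (∑ q ∈ D', if κ' q = e (κ p) then u p * u' q else 0) else 0 := by
    intro c
    rw [Finset.sum_mul]
    refine Finset.sum_congr rfl fun p _ => ?_
    split_ifs with hp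
    · subst hp
      rw [Finset.mul_sum]
      refine Finset.sum_congr rfl fun q _ => ?_
      split_ifs <;> simp
    · simp
  rw [Finset.sum_congr rfl fun c _ => h1 c, Finset.sum_comm]
  refine Finset.sum_congr rfl fun p _ => ?_
  rw [Finset.sum_ite_eq]
  simp

/-- **The energy and the cosets of `N`.** -/
theorem coset_bound [DecidableEq G] (hL : IsLength L) (π : G →* unitary (V →L[ℂ] V)) {s C : ℝ}
    (hs : 0 < s) (hC : 0 ≤ C)
    (h : ∀ v w : V, ‖v‖ = 1 → ‖w‖ = 1 → ∀ F : Finset G,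
      ∑ g ∈ F, ‖inner ℂ ((π g : V →L[ℂ] V) v) w‖ ^ 2 * (1 + (L g : ℝ)) ^ (-s) ≤ C)
    (N : Subgroup G) (hN : N.Normal) (hNi : N.FiniteIndex) {n : ℕ} (f : G →₀ ℂ)
    (hf : ∀ g ∈ f.support, L g ≤ n) :
    ∃ F : G →₀ ℂ, (∀ g ∈ F.support, g ∈ N ∧ L g ≤ 4 * n) ∧
      ‖(star (lamOp f) * lamOp f) (dl G)‖ ^ 2 = ‖F 1‖ ∧
      ‖piOp π F‖ ≤ N.index * (C * (1 + (n : ℝ)) ^ s * sq2 f) ^ 2 := by
  classical
  obtain ⟨X, hX⟩ : ∃ X, X = f.support := ⟨_, rfl⟩
  obtain ⟨D, hD⟩ : ∃ D : Finset (G × G), D = X ×ˢ X := ⟨_, rfl⟩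
  obtain ⟨w, hw⟩ : ∃ w : G × G → G, w = fun p => p.1⁻¹ * p.2 := ⟨_, rfl⟩
  obtain ⟨c, hc⟩ : ∃ c : G × G → ℂ, c = fun p => (starRingEnd ℂ) (f p.1) * f p.2 := ⟨_, rfl⟩
  obtain ⟨F, hF⟩ : ∃ F : G →₀ ℂ, F = ∑ p ∈ D, ∑ q ∈ D,
      if w p * w q ∈ N then Finsupp.single (w p * w q) (c p * c q) else 0 := ⟨_, rfl⟩
  obtain ⟨F', hF'⟩ : ∃ F' : G →₀ ℂ, F' = ∑ p ∈ D, ∑ q ∈ D,
      Finsupp.single (w p * w q) (c p * c q) := ⟨_, rfl⟩
  have hwL : ∀ p ∈ D, L (w p) ≤ 2 * n := by
    intro p hp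
    rw [hD, Finset.mem_product, hX] at hp
    have h1 := hL.mul p.1⁻¹ p.2
    rw [hL.inv] at h1
    have h2 := hf _ hp.1
    have h3 := hf _ hp.2
    rw [hw]
    show L (p.1⁻¹ * p.2) ≤ 2 * n
    omega
  refine ⟨F, ?_, ?_, ?_⟩
  · intro g hg
    by_contra hcon
    rw [Finsupp.mem_support_iff] at hg
    apply hg
    rw [hF, Finsupp.finsetSum_apply]
    refine Finset.sum_eq_zero fun p hp => ?_
    rw [Finsupp.finsetSum_apply]
    refine Finset.sum_eq_zero fun q hq => ?_
    split_ifs with hm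
    · rw [Finsupp.single_apply, if_neg]
      rintro rfl
      apply hcon
      refine ⟨hm, ?_⟩
      have h1 := hL.mul (w p) (w q)
      have h2 := hwL p hp
      have h3 := hwL q hq
      omega
    · rfl
  · obtain ⟨T, hT⟩ : ∃ T, T = star (lamOp f) * lamOp f := ⟨_, rfl⟩
    rw [← hT]
    have hTsum : T = ∑ p ∈ D, c p • lam (w p) := by
      rw [hT, hD, Finset.sum_product, lamOp, Finsupp.sum, ← hX, star_sum, Finset.sum_mul]
      refine Finset.sum_congr rfl fun x _ => ?_
      rw [Finset.mul_sum]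
      refine Finset.sum_congr rfl fun y _ => ?_
      rw [star_smul, lam_star, smul_mul_smul_comm, ← lam_mul, hc, hw]
      rfl
    have hTT : T * T = lamOp F' := by
      rw [hF', lamOp_sum]
      conv_lhs => rw [hTsum]
      rw [Finset.sum_mul]
      refine Finset.sum_congr rfl fun p _ => ?_
      rw [lamOp_sum, Finset.mul_sum]
      refine Finset.sum_congr rfl fun q _ => ?_
      rw [lamOp_single, smul_mul_smul_comm, ← lam_mul]
    have hsa : IsSelfAdjoint T := by
      rw [hT]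
      exact IsSelfAdjoint.star_mul_self _
    have h1 : ContinuousLinearMap.adjoint T = T := by
      rw [← ContinuousLinearMap.star_eq_adjoint]
      exact hsa
    have h2 : (inner ℂ (T (dl G)) (T (dl G)) : ℂ) = F' 1 := by
      rw [← inner_lamOp F', ← hTT]
      conv_lhs => rw [← h1]
      rw [ContinuousLinearMap.adjoint_inner_left, h1]
      rfl
    have h3 : ‖T (dl G)‖ ^ 2 = ‖F' 1‖ := by
      rw [← h2, inner_self_eq_norm_sq_to_K]
      simp
    have h4 : F' 1 = F 1 := by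
      rw [hF, hF', Finsupp.finsetSum_apply, Finsupp.finsetSum_apply]
      refine Finset.sum_congr rfl fun p _ => ?_
      rw [Finsupp.finsetSum_apply, Finsupp.finsetSum_apply]
      refine Finset.sum_congr rfl fun q _ => ?_
      split_ifs with hm
      · rfl
      · rw [Finsupp.single_apply, if_neg]
        · rfl
        · intro h5
          apply hm
          rw [h5]
          exact N.one_mem
    rw [h3, h4]
  · -- the norm
    have : Fintype (G ⧸ N) := Fintype.ofFinite _
    obtain ⟨t, ht⟩ : ∃ t : G ⧸ N → (V →L[ℂ] V), t = fun a =>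
        ∑ x ∈ X, if (x : G ⧸ N) = a then f x • (π x : V →L[ℂ] V) else 0 := ⟨_, rfl⟩
    obtain ⟨u, hu⟩ : ∃ u : G × G → (V →L[ℂ] V), u = fun p => c p • (π (w p) : V →L[ℂ] V) :=
      ⟨_, rfl⟩
    obtain ⟨H, hH⟩ : ∃ H : G ⧸ N → (V →L[ℂ] V), H = fun a =>
        ∑ p ∈ D, if ((w p : G) : G ⧸ N) = a then u p else 0 := ⟨_, rfl⟩
    obtain ⟨P, hP⟩ : ∃ P : ℝ, P = C * (1 + (n : ℝ)) ^ s := ⟨_, rfl⟩
    have hP0 : 0 ≤ P := by rw [hP]; positivity
    have htn : ∀ a, ‖t a‖ ^ 2 ≤ P * ∑ x ∈ X, if (x : G ⧸ N) = a then ‖f x‖ ^ 2 else 0 := by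
      intro a
      have h1 := rd_norm π hC h (f.filter fun g : G => (g : G ⧸ N) = a)
      have h2 : ((f.filter fun g : G => (g : G ⧸ N) = a).sum fun g c => c • (π g : V →L[ℂ] V)) =
          t a := by
        rw [ht, Finsupp.sum, Finsupp.support_filter, ← hX, Finset.sum_filter]
        refine Finset.sum_congr rfl fun x _ => ?_
        split_ifs with hx
        · rw [Finsupp.filter_apply_pos (p := fun g : G => (g : G ⧸ N) = a) f hx]
        · rfl
      rw [h2] at h1
      refine h1.trans ?_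
      rw [hP, mul_assoc]
      apply mul_le_mul_of_nonneg_left _ hC
      rw [Finsupp.sum, Finsupp.support_filter, ← hX, Finset.sum_filter, Finset.mul_sum]
      refine Finset.sum_le_sum fun x hx => ?_
      split_ifs with hxa
      · rw [Finsupp.filter_apply_pos (p := fun g : G => (g : G ⧸ N) = a) f hxa, mul_comm]
        apply mul_le_mul_of_nonneg_right _ (by positivity)
        apply Real.rpow_le_rpow (by positivity) _ hs.le
        have : (L x : ℝ) ≤ n := by exact_mod_cast hf x (by rwa [← hX])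
        linarith
      · rw [mul_zero]
    have htot : ∑ a, ‖t a‖ ^ 2 ≤ P * sq2 f := by
      calc ∑ a, ‖t a‖ ^ 2 ≤ ∑ a, P * ∑ x ∈ X, (if (x : G ⧸ N) = a then ‖f x‖ ^ 2 else 0) :=
            Finset.sum_le_sum fun a _ => htn a
        _ = P * sq2 f := by
            rw [← Finset.mul_sum, Finset.sum_comm, sq2, Finsupp.sum, ← hX]
            congr 1
            refine Finset.sum_congr rfl fun x _ => ?_
            rw [Finset.sum_ite_eq]
            simp
    have hHt : ∀ b, H b = ∑ a, star (t a) * t (a * b) := by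
      intro b
      have h1 : ∀ a, star (t a) = ∑ x ∈ X, if (x : G ⧸ N) = a then star (f x • (π x : V →L[ℂ] V))
          else 0 := by
        intro a
        rw [ht, star_sum]
        refine Finset.sum_congr rfl fun x _ => ?_
        split_ifs <;> simp
      have h2 : ∀ a, t (a * b) = ∑ x ∈ X, if (x : G ⧸ N) = a * b then f x • (π x : V →L[ℂ] V)
          else 0 := fun a => by rw [ht]
      rw [Finset.sum_congr rfl fun a _ => by rw [h1 a, h2 a]]
      rw [rearr X X (fun x : G => (x : G ⧸ N)) (fun x : G => (x : G ⧸ N)) (fun a => a * b)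
        (fun x => star (f x • (π x : V →L[ℂ] V))) (fun x => f x • (π x : V →L[ℂ] V))]
      rw [hH, hD]
      show ∑ p ∈ X ×ˢ X, _ = _
      rw [Finset.sum_product]
      refine Finset.sum_congr rfl fun x _ => Finset.sum_congr rfl fun y _ => ?_
      have h3 : (((w (x, y) : G) : G ⧸ N) = b) ↔ ((y : G ⧸ N) = (x : G ⧸ N) * b) := by
        rw [hw]
        show (((x⁻¹ * y : G) : G ⧸ N) = b) ↔ _
        rw [QuotientGroup.mk_mul, QuotientGroup.mk_inv, inv_mul_eq_iff_eq_mul]
      have h4 : u (x, y) = star (f x • (π x : V →L[ℂ] V)) * (f y • (π y : V →L[ℂ] V)) := by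
        rw [hu, hc, hw, star_smul, smul_mul_smul_comm]
        show ((starRingEnd ℂ) (f x) * f y) • (π (x⁻¹ * y) : V →L[ℂ] V) = _
        rw [map_mul, map_inv]
        rfl
      by_cases h5 : ((y : G ⧸ N) = (x : G ⧸ N) * b)
      · rw [if_pos (h3.2 h5), if_pos h5, h4]
      · rw [if_neg fun h6 => h5 (h3.1 h6), if_neg h5]
    have hHn : ∀ b, ‖H b‖ ≤ P * sq2 f := by
      intro b
      rw [hHt]
      have h1 : ∑ a, ‖t (a * b)‖ ^ 2 = ∑ a, ‖t a‖ ^ 2 :=
        Fintype.sum_equiv (Equiv.mulRight b) _ _ fun a => rfl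
      calc ‖∑ a, star (t a) * t (a * b)‖ ≤ ∑ a, ‖star (t a) * t (a * b)‖ := norm_sum_le _ _
        _ ≤ ∑ a, (‖t a‖ ^ 2 + ‖t (a * b)‖ ^ 2) / 2 := by
            refine Finset.sum_le_sum fun a _ => ?_
            have h2 := norm_mul_le (star (t a)) (t (a * b))
            rw [norm_star] at h2
            nlinarith [sq_nonneg (‖t a‖ - ‖t (a * b)‖)]
        _ = ∑ a, ‖t a‖ ^ 2 := by
            rw [← Finset.sum_div, Finset.sum_add_distrib, h1]
            ring
        _ ≤ _ := htot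
    have hpi : piOp π F = ∑ b, H b * H b⁻¹ := by
      rw [hH]
      have h1 := rearr D D (fun p => ((w p : G) : G ⧸ N)) (fun p => ((w p : G) : G ⧸ N))
        (fun b => b⁻¹) u u
      refine Eq.trans ?_ h1.symm
      rw [hF, piOp_sum]
      refine Finset.sum_congr rfl fun p _ => ?_
      rw [piOp_sum]
      refine Finset.sum_congr rfl fun q _ => ?_
      have h3 : (w p * w q ∈ N) ↔ (((w q : G) : G ⧸ N) = ((w p : G) : G ⧸ N)⁻¹) := by
        rw [← QuotientGroup.eq_one_iff, QuotientGroup.mk_mul, eq_inv_iff_mul_eq_one,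
          mul_eq_one_iff_eq_inv, mul_eq_one_iff_eq_inv]
        constructor
        · intro h4
          rw [h4, inv_inv]
        · intro h4
          rw [h4, inv_inv]
      by_cases h5 : w p * w q ∈ N
      · rw [if_pos h5, if_pos (h3.1 h5), piOp_single, hu]
        show _ = (c p • (π (w p) : V →L[ℂ] V)) * (c q • (π (w q) : V →L[ℂ] V))
        rw [smul_mul_smul_comm, map_mul]
        rfl
      · rw [if_neg h5, if_neg fun h6 => h5 (h3.2 h6), piOp_zero]
    rw [hpi, ← hP]
    have hsq := sq2_nonneg f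
    calc ‖∑ b, H b * H b⁻¹‖ ≤ ∑ b, ‖H b * H b⁻¹‖ := norm_sum_le _ _
      _ ≤ ∑ _b : G ⧸ N, (P * sq2 f) ^ 2 := by
          refine Finset.sum_le_sum fun b _ => ?_
          rw [sq]
          exact (norm_mul_le _ _).trans
            (mul_le_mul (hHn b) (hHn _) (norm_nonneg _) (mul_nonneg hP0 hsq))
      _ = N.index * (P * sq2 f) ^ 2 := by
          rw [Finset.sum_const, nsmul_eq_mul, Finset.card_univ, Subgroup.index,
            Nat.card_eq_fintype_card]

end Pool.Agent.H79RDL
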