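import Pool.Agent.H79RDL.Base

/-!
# RDL-Coset2: the energy and the cosets of an arbitrary subgroup
-/

namespace Pool.Agent.H79RDL

open Pool.Agent.helper91.RDR Pool.Agent.helper72.RDC
open scoped InnerProductSpace

variable {G : Type*} [Group G] {L : G → ℕ} {V : Type*} [NormedAddCommGroup V]
  [InnerProductSpace ℂ V] [CompleteSpace V]

private theorem rearr2 {Q A ι ι' : Type*} [DecidableEq Q] [Ring A] (Cs : Finset Q)
    (D : Finset ι) (D' : Finset ι') (κ : ι → Q) (κ' : ι' → Q) (u : ι → A) (u' : ι' → A)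
    (h : ∀ q ∈ D', κ' q ∈ Cs) :
    ∑ c ∈ Cs, (∑ p ∈ D, if κ p = c then u p else 0) * (∑ q ∈ D', if κ' q = c then u' q else 0) =
      ∑ p ∈ D, ∑ q ∈ D', if κ p = κ' q then u p * u' q else 0 := by
  have h1 : ∀ c ∈ Cs, (∑ p ∈ D, if κ p = c then u p else 0) *
      (∑ q ∈ D', if κ' q = c then u' q else 0) =
      ∑ p ∈ D, ∑ q ∈ D', if κ' q = c then (if κ p = κ' q then u p * u' q else 0) else 0 := by
    intro c _
    rw [Finset.sum_mul]
    refine Finset.sum_congr rfl fun p _ => ?_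
    rw [Finset.mul_sum]
    refine Finset.sum_congr rfl fun q _ => ?_
    by_cases hq : κ' q = c
    · subst hq
      rw [if_pos rfl, if_pos rfl, ite_mul, zero_mul]
    · rw [if_neg hq, if_neg hq, mul_zero]
  rw [Finset.sum_congr rfl h1, Finset.sum_comm]
  refine Finset.sum_congr rfl fun p _ => ?_
  rw [Finset.sum_comm]
  refine Finset.sum_congr rfl fun q hq => ?_
  rw [Finset.sum_ite_eq, if_pos (h q hq)]

private theorem part_norm (π : G →* unitary (V →L[ℂ] V)) {s C : ℝ} (hs : 0 < s) (hC : 0 ≤ C)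
    (h : ∀ v w : V, ‖v‖ = 1 → ‖w‖ = 1 → ∀ F : Finset G,
      ∑ g ∈ F, ‖inner ℂ ((π g : V →L[ℂ] V) v) w‖ ^ 2 * (1 + (L g : ℝ)) ^ (-s) ≤ C)
    {n : ℕ} (f : G →₀ ℂ) (hf : ∀ g ∈ f.support, L g ≤ n) (p : G → Prop) [DecidablePred p] :
    ‖∑ x ∈ f.support, if p x then f x • (π x : V →L[ℂ] V) else 0‖ ^ 2 ≤
      C * (1 + (n : ℝ)) ^ s * ∑ x ∈ f.support, if p x then ‖f x‖ ^ 2 else 0 := by
  classical
  have h1 := rd_norm π hC h (f.filter p)
  have h2 : ((f.filter p).sum fun g c => c • (π g : V →L[ℂ] V)) =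
      ∑ x ∈ f.support, if p x then f x • (π x : V →L[ℂ] V) else 0 := by
    rw [Finsupp.sum, Finsupp.support_filter, Finset.sum_filter]
    refine Finset.sum_congr rfl fun x _ => ?_
    split_ifs with hx
    · rw [Finsupp.filter_apply_pos (p := p) f hx]
    · rfl
  rw [h2] at h1
  refine h1.trans ?_
  rw [mul_assoc]
  apply mul_le_mul_of_nonneg_left _ hC
  rw [Finsupp.sum, Finsupp.support_filter, Finset.sum_filter, Finset.mul_sum]
  refine Finset.sum_le_sum fun x hx => ?_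
  split_ifs with hxa
  · rw [Finsupp.filter_apply_pos (p := p) f hxa, mul_comm]
    apply mul_le_mul_of_nonneg_right _ (by positivity)
    apply Real.rpow_le_rpow (by positivity) _ hs.le
    have : (L x : ℝ) ≤ n := by exact_mod_cast hf x hx
    linarith
  · rw [mul_zero]

/-- **The energy and the cosets of `N`.** -/
theorem coset_bound2 [DecidableEq G] (hL : IsLength L) (π : G →* unitary (V →L[ℂ] V)) {s C : ℝ}
    (hs : 0 < s) (hC : 0 ≤ C)
    (h : ∀ v w : V, ‖v‖ = 1 → ‖w‖ = 1 → ∀ F : Finset G,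
      ∑ g ∈ F, ‖inner ℂ ((π g : V →L[ℂ] V) v) w‖ ^ 2 * (1 + (L g : ℝ)) ^ (-s) ≤ C)
    (N : Subgroup G) {n J : ℕ}
    (hJ : {c : G ⧸ N | ∃ g : G, L g ≤ 2 * n ∧ (g : G ⧸ N) = c}.encard ≤ (J : ℕ∞)) (f : G →₀ ℂ)
    (hf : ∀ g ∈ f.support, L g ≤ n) :
    ∃ F : G →₀ ℂ, (∀ g ∈ F.support, g ∈ N ∧ L g ≤ 4 * n) ∧
      ‖(star (lamOp f) * lamOp f) (dl G)‖ ^ 2 = ‖F 1‖ ∧
      ‖piOp π F‖ ≤ J * (C * (1 + (n : ℝ)) ^ s * sq2 f) ^ 2 := by
  classical
  obtain ⟨X, hX⟩ : ∃ X, X = f.support := ⟨_, rfl⟩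
  obtain ⟨D, hD⟩ : ∃ D : Finset (G × G), D = X ×ˢ X := ⟨_, rfl⟩
  obtain ⟨w, hw⟩ : ∃ w : G × G → G, w = fun p => p.1⁻¹ * p.2 := ⟨_, rfl⟩
  obtain ⟨c, hc⟩ : ∃ c : G × G → ℂ, c = fun p => (starRingEnd ℂ) (f p.1) * f p.2 := ⟨_, rfl⟩
  obtain ⟨F, hF⟩ : ∃ F : G →₀ ℂ, F = ∑ p ∈ D, ∑ q ∈ D,
      if (w p)⁻¹ * w q ∈ N then Finsupp.single ((w p)⁻¹ * w q) ((starRingEnd ℂ) (c p) * c q)
      else 0 := ⟨_, rfl⟩
  obtain ⟨F', hF'⟩ : ∃ F' : G →₀ ℂ, F' = ∑ p ∈ D, ∑ q ∈ D,
      Finsupp.single ((w p)⁻¹ * w q) ((starRingEnd ℂ) (c p) * c q) := ⟨_, rfl⟩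
  have hwL : ∀ p ∈ D, L (w p) ≤ 2 * n := by
    intro p hp
    rw [hD, Finset.mem_product, hX] at hp
    have h1 := hL.mul p.1⁻¹ p.2
    rw [hL.inv] at h1
    have h2 := hf _ hp.1
    have h3 := hf _ hp.2
    rw [hw]
    show L (p.1⁻¹ * p.2) ≤ 2 * n
    omega
  refine ⟨F, ?_, ?_, ?_⟩
  · intro g hg
    by_contra hcon
    rw [Finsupp.mem_support_iff] at hg
    apply hg
    rw [hF, Finsupp.finsetSum_apply]
    refine Finset.sum_eq_zero fun p hp => ?_
    rw [Finsupp.finsetSum_apply]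
    refine Finset.sum_eq_zero fun q hq => ?_
    split_ifs with hm
    · rw [Finsupp.single_apply, if_neg]
      rintro rfl
      apply hcon
      refine ⟨hm, ?_⟩
      have h1 := hL.mul (w p)⁻¹ (w q)
      rw [hL.inv] at h1
      have h2 := hwL p hp
      have h3 := hwL q hq
      omega
    · rfl
  · obtain ⟨T, hT⟩ : ∃ T, T = star (lamOp f) * lamOp f := ⟨_, rfl⟩
    rw [← hT]
    have hTsum : T = ∑ p ∈ D, c p • lam (w p) := by
      rw [hT, hD, Finset.sum_product, lamOp, Finsupp.sum, ← hX, star_sum, Finset.sum_mul]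
      refine Finset.sum_congr rfl fun x _ => ?_
      rw [Finset.mul_sum]
      refine Finset.sum_congr rfl fun y _ => ?_
      rw [star_smul, lam_star, smul_mul_smul_comm, ← lam_mul, hc, hw]
      rfl
    have hTT : star T * T = lamOp F' := by
      rw [hF', lamOp_sum]
      conv_lhs => rw [hTsum]
      rw [star_sum, Finset.sum_mul]
      refine Finset.sum_congr rfl fun p _ => ?_
      rw [lamOp_sum, Finset.mul_sum]
      refine Finset.sum_congr rfl fun q _ => ?_
      rw [lamOp_single, star_smul, lam_star, smul_mul_smul_comm, ← lam_mul]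
      rfl
    have h2 : (inner ℂ (T (dl G)) (T (dl G)) : ℂ) = F' 1 := by
      rw [← inner_lamOp F', ← hTT, ContinuousLinearMap.star_eq_adjoint]
      show _ = inner ℂ (dl G) ((ContinuousLinearMap.adjoint T) (T (dl G)))
      rw [ContinuousLinearMap.adjoint_inner_right]
    have h3 : ‖T (dl G)‖ ^ 2 = ‖F' 1‖ := by
      rw [← h2, inner_self_eq_norm_sq_to_K]
      simp
    have h4 : F' 1 = F 1 := by
      rw [hF, hF', Finsupp.finsetSum_apply, Finsupp.finsetSum_apply]
      refine Finset.sum_congr rfl fun p _ => ?_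
      rw [Finsupp.finsetSum_apply, Finsupp.finsetSum_apply]
      refine Finset.sum_congr rfl fun q _ => ?_
      split_ifs with hm
      · rfl
      · rw [Finsupp.single_apply, if_neg]
        · rfl
        · intro h5
          apply hm
          rw [h5]
          exact N.one_mem
    rw [h3, h4]
  · -- the norm
    obtain ⟨u, hu⟩ : ∃ u : G × G → (V →L[ℂ] V), u = fun p => c p • (π (w p) : V →L[ℂ] V) :=
      ⟨_, rfl⟩
    obtain ⟨H, hH⟩ : ∃ H : G ⧸ N → (V →L[ℂ] V), H = fun a =>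
        ∑ p ∈ D, if ((w p : G) : G ⧸ N) = a then u p else 0 := ⟨_, rfl⟩
    obtain ⟨P, hP⟩ : ∃ P : ℝ, P = C * (1 + (n : ℝ)) ^ s := ⟨_, rfl⟩
    have hP0 : 0 ≤ P := by rw [hP]; positivity
    obtain ⟨Q0, hQ0⟩ : ∃ Q0 : Finset (G ⧸ N), Q0 = X.image fun x : G => (x : G ⧸ N) := ⟨_, rfl⟩
    obtain ⟨C0, hC0⟩ : ∃ C0 : Finset (G ⧸ N), C0 = D.image fun p => ((w p : G) : G ⧸ N) :=
      ⟨_, rfl⟩
    have hC0J : C0.card ≤ J := by
      have h1 : ((C0 : Finset (G ⧸ N)) : Set (G ⧸ N)).encard ≤ (J : ℕ∞) := by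
        refine le_trans (Set.encard_le_encard ?_) hJ
        intro a ha
        rw [Finset.mem_coe, hC0, Finset.mem_image] at ha
        obtain ⟨p, hp, rfl⟩ := ha
        exact ⟨w p, hwL p hp, rfl⟩
      rw [Set.encard_coe_eq_coe_finsetCard] at h1
      exact_mod_cast h1
    have hind : ∀ (κ : G → G ⧸ N), ∑ d ∈ Q0, ∑ x ∈ X, (if κ x = d then ‖f x‖ ^ 2 else 0) ≤
        sq2 f := by
      intro κ
      rw [Finset.sum_comm, sq2, Finsupp.sum, ← hX]
      refine Finset.sum_le_sum fun x _ => ?_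
      rw [Finset.sum_ite_eq]
      split_ifs
      · exact le_rfl
      · positivity
    have hHn : ∀ b, ‖H b‖ ≤ P * sq2 f := by
      intro b
      obtain ⟨t, ht⟩ : ∃ t : G ⧸ N → (V →L[ℂ] V), t = fun a =>
        ∑ y ∈ X, if (y : G ⧸ N) = a then f y • (π y : V →L[ℂ] V) else 0 := ⟨_, rfl⟩
      obtain ⟨r, hr⟩ : ∃ r : G ⧸ N → (V →L[ℂ] V), r = fun a =>
        ∑ x ∈ X, if x • b = a then f x • (π x : V →L[ℂ] V) else 0 := ⟨_, rfl⟩
      have h1 : H b = ∑ d ∈ Q0, star (r d) * t d := by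
        have e1 : ∀ d, star (r d) = ∑ x ∈ X, if x • b = d then star (f x • (π x : V →L[ℂ] V))
            else 0 := by
          intro d
          rw [hr, star_sum]
          refine Finset.sum_congr rfl fun x _ => ?_
          split_ifs <;> simp
        have e2 : ∀ d, t d = ∑ y ∈ X, if (y : G ⧸ N) = d then f y • (π y : V →L[ℂ] V) else 0 :=
          fun d => by rw [ht]
        rw [Finset.sum_congr rfl fun d _ => by rw [e1 d, e2 d]]
        rw [rearr2 Q0 X X (fun x : G => x • b) (fun y : G => (y : G ⧸ N))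
          (fun x => star (f x • (π x : V →L[ℂ] V))) (fun y => f y • (π y : V →L[ℂ] V))
          (fun y hy => by rw [hQ0]; exact Finset.mem_image_of_mem _ hy)]
        rw [hH, hD]
        show ∑ p ∈ X ×ˢ X, _ = _
        rw [Finset.sum_product]
        refine Finset.sum_congr rfl fun x _ => Finset.sum_congr rfl fun y _ => ?_
        have h3 : (((w (x, y) : G) : G ⧸ N) = b) ↔ (x • b = (y : G ⧸ N)) := by
          rw [hw]
          show (((x⁻¹ * y : G) : G ⧸ N) = b) ↔ _
          have e3 : ((x⁻¹ * y : G) : G ⧸ N) = x⁻¹ • (y : G ⧸ N) := rfl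
          rw [e3, inv_smul_eq_iff]
          exact eq_comm
        have h4 : u (x, y) = star (f x • (π x : V →L[ℂ] V)) * (f y • (π y : V →L[ℂ] V)) := by
          rw [hu, hc, hw, star_smul, smul_mul_smul_comm]
          show ((starRingEnd ℂ) (f x) * f y) • (π (x⁻¹ * y) : V →L[ℂ] V) = _
          rw [map_mul, map_inv]
          rfl
        by_cases h5 : (x • b = (y : G ⧸ N))
        · rw [if_pos (h3.2 h5), if_pos h5, h4]
        · rw [if_neg fun h6 => h5 (h3.1 h6), if_neg h5]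
      have h2 : ∑ d ∈ Q0, ‖t d‖ ^ 2 ≤ P * sq2 f := by
        calc ∑ d ∈ Q0, ‖t d‖ ^ 2 ≤ ∑ d ∈ Q0, P * ∑ x ∈ X,
              (if (x : G ⧸ N) = d then ‖f x‖ ^ 2 else 0) := by
              refine Finset.sum_le_sum fun d _ => ?_
              have := part_norm π hs hC h f hf (fun x : G => (x : G ⧸ N) = d)
              rw [← hX, ← hP] at this
              rw [ht]
              exact this
          _ ≤ P * sq2 f := by
              rw [← Finset.mul_sum]
              exact mul_le_mul_of_nonneg_left (hind _) hP0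
      have h2' : ∑ d ∈ Q0, ‖r d‖ ^ 2 ≤ P * sq2 f := by
        calc ∑ d ∈ Q0, ‖r d‖ ^ 2 ≤ ∑ d ∈ Q0, P * ∑ x ∈ X,
              (if x • b = d then ‖f x‖ ^ 2 else 0) := by
              refine Finset.sum_le_sum fun d _ => ?_
              have := part_norm π hs hC h f hf (fun x : G => x • b = d)
              rw [← hX, ← hP] at this
              rw [hr]
              exact this
          _ ≤ P * sq2 f := by
              rw [← Finset.mul_sum]
              exact mul_le_mul_of_nonneg_left (hind fun x => x • b) hP0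
      rw [h1]
      calc ‖∑ d ∈ Q0, star (r d) * t d‖ ≤ ∑ d ∈ Q0, ‖star (r d) * t d‖ := norm_sum_le _ _
        _ ≤ ∑ d ∈ Q0, (‖r d‖ ^ 2 + ‖t d‖ ^ 2) / 2 := by
            refine Finset.sum_le_sum fun d _ => ?_
            have h3 := norm_mul_le (star (r d)) (t d)
            rw [norm_star] at h3
            nlinarith [sq_nonneg (‖r d‖ - ‖t d‖)]
        _ ≤ P * sq2 f := by
            rw [← Finset.sum_div, Finset.sum_add_distrib]
            linarith
    have hpi : piOp π F = ∑ b ∈ C0, star (H b) * H b := by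
      have e1 : ∀ b, star (H b) = ∑ p ∈ D, if ((w p : G) : G ⧸ N) = b then star (u p) else 0 := by
        intro b
        rw [hH, star_sum]
        refine Finset.sum_congr rfl fun p _ => ?_
        split_ifs <;> simp
      have e2 : ∀ b, H b = ∑ p ∈ D, if ((w p : G) : G ⧸ N) = b then u p else 0 :=
        fun b => by rw [hH]
      rw [Finset.sum_congr rfl fun b _ => by rw [e1 b, e2 b]]
      rw [rearr2 C0 D D (fun p => ((w p : G) : G ⧸ N)) (fun p => ((w p : G) : G ⧸ N))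
        (fun p => star (u p)) u (fun p hp => by rw [hC0]; exact Finset.mem_image_of_mem _ hp)]
      rw [hF, piOp_sum]
      refine Finset.sum_congr rfl fun p _ => ?_
      rw [piOp_sum]
      refine Finset.sum_congr rfl fun q _ => ?_
      have h3 : ((w p)⁻¹ * w q ∈ N) ↔ (((w p : G) : G ⧸ N) = ((w q : G) : G ⧸ N)) :=
        QuotientGroup.eq.symm
      by_cases h5 : (w p)⁻¹ * w q ∈ N
      · rw [if_pos h5, if_pos (h3.1 h5), piOp_single, hu]
        show _ = star (c p • (π (w p) : V →L[ℂ] V)) * (c q • (π (w q) : V →L[ℂ] V))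
        rw [star_smul, smul_mul_smul_comm, map_mul, map_inv]
        rfl
      · rw [if_neg h5, if_neg fun h6 => h5 (h3.2 h6), piOp_zero]
    rw [hpi, ← hP]
    have hsq := sq2_nonneg f
    calc ‖∑ b ∈ C0, star (H b) * H b‖ ≤ ∑ b ∈ C0, ‖star (H b) * H b‖ := norm_sum_le _ _
      _ ≤ ∑ _b ∈ C0, (P * sq2 f) ^ 2 := by
          refine Finset.sum_le_sum fun b _ => ?_
          rw [sq]
          refine (norm_mul_le _ _).trans ?_
          rw [norm_star]
          exact mul_le_mul (hHn b) (hHn _) (norm_nonneg _) (mul_nonneg hP0 hsq)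
      _ = C0.card * (P * sq2 f) ^ 2 := by rw [Finset.sum_const, nsmul_eq_mul]
      _ ≤ J * (P * sq2 f) ^ 2 := by
          apply mul_le_mul_of_nonneg_right _ (by positivity)
          exact_mod_cast hC0J

end Pool.Agent.H79RDL
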