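import Pool.Agent.H79RDL.Base

/-!
# RDL-EnergyA: doubling of the energy
-/

namespace Pool.Agent.H79RDL

open Pool.Agent.helper91.RDR Pool.Agent.helper72.RDC
open Filter Topology

variable {G : Type*} [Group G]

private theorem rho_mem (g : G) (ξ : lp (fun _ : G => ℂ) 2) :
    Memℓp (E := fun _ : G => ℂ) (fun x => ξ (x * g)) 2 := by
  have h := lp.memℓp ξ
  rw [memℓp_gen_iff (by norm_num)] at h ⊢
  exact h.comp_injective (mul_left_injective g)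

/-- The right translation by `g` on `ℓ²(G)`: `(rhoIso g ξ) x = ξ (x g)`. -/
private noncomputable def rhoIso (g : G) :
    lp (fun _ : G => ℂ) 2 →ₗᵢ[ℂ] lp (fun _ : G => ℂ) 2 where
  toFun ξ := ⟨fun x => ξ (x * g), rho_mem g ξ⟩
  map_add' ξ η := rfl
  map_smul' c ξ := rfl
  norm_map' ξ := by
    have h1 := lp.norm_rpow_eq_tsum (p := 2) (by norm_num) ξ
    have h2 := lp.norm_rpow_eq_tsum (p := 2) (by norm_num)
      (⟨fun x => ξ (x * g), rho_mem g ξ⟩ : lp (fun _ : G => ℂ) 2)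
    have h3 : ∑' x, ‖ξ (x * g)‖ ^ (2 : ENNReal).toReal = ∑' x, ‖ξ x‖ ^ (2 : ENNReal).toReal :=
      (Equiv.mulRight g).tsum_eq (fun x => ‖ξ x‖ ^ (2 : ENNReal).toReal)
    rw [← h1] at h3
    have h4 : ‖(⟨fun x => ξ (x * g), rho_mem g ξ⟩ : lp (fun _ : G => ℂ) 2)‖ ^
        (2 : ENNReal).toReal = ‖ξ‖ ^ (2 : ENNReal).toReal := h2.trans h3
    exact (Real.rpow_left_injOn (by norm_num) : Set.InjOn (fun x : ℝ => x ^ (2 : ENNReal).toReal)
      {x | 0 ≤ x}) (norm_nonneg _) (norm_nonneg _) h4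

private theorem lam_rho (g h : G) (ξ : lp (fun _ : G => ℂ) 2) :
    lam h (rhoIso g ξ) = rhoIso g (lam h ξ) := by
  ext x
  show ξ (h⁻¹ * x * g) = ξ (h⁻¹ * (x * g))
  rw [mul_assoc]

private theorem lam_dl_rho [DecidableEq G] (g : G) : lam g (dl G) = rhoIso g⁻¹ (dl G) := by
  ext x
  show dl G (g⁻¹ * x) = dl G (x * g⁻¹)
  by_cases hx : x = g
  · subst hx
    rw [inv_mul_cancel, mul_inv_cancel]
  · have h1 : g⁻¹ * x ≠ 1 := fun h => hx (inv_mul_eq_one.1 h).symm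
    have h2 : x * g⁻¹ ≠ 1 := fun h => hx (mul_inv_eq_one.1 h)
    rw [dl, lp.single_apply_ne _ _ _ h1, lp.single_apply_ne _ _ _ h2]

private theorem lamOp_rho (f : G →₀ ℂ) (g : G) (ξ : lp (fun _ : G => ℂ) 2) :
    lamOp f (rhoIso g ξ) = rhoIso g (lamOp f ξ) := by
  rw [lamOp, Finsupp.sum, sum_apply, sum_apply, map_sum]
  refine Finset.sum_congr rfl fun h _ => ?_
  rw [smul_apply, smul_apply, lam_rho, map_smul]

private theorem star_lamOp_rho (f : G →₀ ℂ) (g : G) (ξ : lp (fun _ : G => ℂ) 2) :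
    star (lamOp f) (rhoIso g ξ) = rhoIso g (star (lamOp f) ξ) := by
  have h1 : star (lamOp f) = ∑ h ∈ f.support, star (f h) • lam h⁻¹ := by
    rw [lamOp, Finsupp.sum, star_sum]
    refine Finset.sum_congr rfl fun h _ => ?_
    rw [star_smul, lam_star]
  rw [h1, sum_apply, sum_apply, map_sum]
  refine Finset.sum_congr rfl fun h _ => ?_
  rw [smul_apply, smul_apply, lam_rho, map_smul]

private theorem pow_rho (f : G →₀ ℂ) (n : ℕ) (g : G) (ξ : lp (fun _ : G => ℂ) 2) :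
    ((star (lamOp f) * lamOp f) ^ n) (rhoIso g ξ) =
      rhoIso g (((star (lamOp f) * lamOp f) ^ n) ξ) := by
  induction n with
  | zero => rfl
  | succ n ih =>
    rw [pow_succ', mul_apply_eq_comp, mul_apply_eq_comp, ih,
      mul_apply_eq_comp, mul_apply_eq_comp, lamOp_rho, star_lamOp_rho]

/-- Right translation on `ℓ²(G)` is an isometry commuting with `λ(f)`; hence the norm of
`λ(f) δ_g` does not depend on `g`. PROOF: define `rhoIso g : lp →ₗᵢ lp`, `(rhoIso g ξ) x = ξ (x * g)`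
exactly as `lamIso` (file helper91/RDR/Lam.lean, use `Equiv.mulRight g`);
`lam h (rhoIso g ξ) = rhoIso g (lam h ξ)` holds pointwise by `mul_assoc`, and
`lam g (dl G) = lp.single 2 g 1 = rhoIso g⁻¹ (dl G)`. So for `T` in the span of the `lam h`,
`T (lam g (dl G)) = rhoIso g⁻¹ (T (dl G))`. -/
theorem norm_lamOp_single [DecidableEq G] (f : G →₀ ℂ) (n : ℕ) (g : G) :
    ‖((star (lamOp f) * lamOp f) ^ n) (lam g (dl G))‖ =
      ‖((star (lamOp f) * lamOp f) ^ n) (dl G)‖ := by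
  rw [lam_dl_rho, pow_rho, LinearIsometry.norm_map]

private theorem lamOp_dl_apply [DecidableEq G] (f : G →₀ ℂ) (x : G) :
    (lamOp f (dl G)) x = f x := by
  have h1 : lamOp f (dl G) = f.sum fun g c => c • lp.single 2 g (1 : ℂ) := by
    rw [lamOp, Finsupp.sum, Finsupp.sum, sum_apply]
    exact Finset.sum_congr rfl fun g _ => by rw [smul_apply, lam_dl]
  rw [h1, Finsupp.sum, lp.coeFn_sum, Finset.sum_apply]
  have h3 : ∀ g ∈ f.support, (f g • (lp.single 2 g (1 : ℂ) : lp (fun _ : G => ℂ) 2)) x =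
      if g = x then f x else 0 := by
    intro g _
    by_cases hg : g = x
    · subst hg
      rw [if_pos rfl]
      show f g • (lp.single 2 g (1 : ℂ) : lp (fun _ : G => ℂ) 2) g = f g
      rw [lp.single_apply_self, smul_eq_mul, mul_one]
    · rw [if_neg hg]
      show f g • (lp.single 2 g (1 : ℂ) : lp (fun _ : G => ℂ) 2) x = 0
      rw [lp.single_apply_ne _ _ _ (Ne.symm hg), smul_zero]
  rw [Finset.sum_congr rfl h3, Finset.sum_ite_eq']
  split_ifs with h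
  · rfl
  · exact (Finsupp.notMem_support_iff.1 h).symm

private theorem norm_sq_lamOp_dl [DecidableEq G] (f : G →₀ ℂ) :
    ‖lamOp f (dl G)‖ ^ 2 = sq2 f := by
  have h1 := lp.norm_rpow_eq_tsum (p := 2) (by norm_num) (lamOp f (dl G))
  have h2 : (2 : ENNReal).toReal = ((2 : ℕ) : ℝ) := by norm_num
  simp only [h2, Real.rpow_natCast, lamOp_dl_apply] at h1
  rw [h1, sq2, Finsupp.sum]
  refine tsum_eq_sum fun g hg => ?_
  rw [Finsupp.notMem_support_iff.1 hg]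
  simp

private theorem lamOp_mem {L : G → ℕ} {n : ℕ} {f : G →₀ ℂ} (hf : ∀ g ∈ f.support, L g ≤ n) :
    lamOp f ∈ ballSpan L (lamHom G) n := by
  rw [lamOp, Finsupp.sum]
  refine Submodule.sum_mem _ fun g hg => Submodule.smul_mem _ _ ?_
  exact Submodule.subset_span ⟨g, hf g hg, rfl⟩

private theorem star_lamHom (g : G) : star (lamHom G g) = lamHom G g⁻¹ := lam_star g

private theorem star_mem {L : G → ℕ} (hL : IsLength L) {n : ℕ}
    {x : lp (fun _ : G => ℂ) 2 →L[ℂ] lp (fun _ : G => ℂ) 2} (hx : x ∈ ballSpan L (lamHom G) n) :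
    star x ∈ ballSpan L (lamHom G) n :=
  ballSpan_star hL (lamHom G) star_lamHom hx

private theorem TT_mem {L : G → ℕ} (hL : IsLength L) {n : ℕ} {f : G →₀ ℂ}
    (hf : ∀ g ∈ f.support, L g ≤ n) :
    star (lamOp f) * lamOp f ∈ ballSpan L (lamHom G) (n + n) :=
  ballSpan_mul hL (lamHom G) (star_mem hL (lamOp_mem hf)) (lamOp_mem hf)

private theorem step_aux [DecidableEq G] {L : G → ℕ} {C : ℝ} {k : ℕ}
    (h : ∀ (n : ℕ) (f : G →₀ ℂ), (∀ g ∈ f.support, L g ≤ n) →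
      ‖(star (lamOp f) * lamOp f) (dl G)‖ ≤ C * (1 + (n : ℝ)) ^ k * sq2 f)
    {T : lp (fun _ : G => ℂ) 2 →L[ℂ] lp (fun _ : G => ℂ) 2} (hT : star T = T) {R : ℕ}
    (hmem : T ∈ ballSpan L (lamHom G) R) :
    ‖(T * T) (dl G)‖ ≤ C * (1 + (R : ℝ)) ^ k * ‖T (dl G)‖ ^ 2 := by
  obtain ⟨F, hF, hTF⟩ := ballSpan_exists _ hmem
  have hTF' : T = lamOp F := hTF
  have h2 := h R F hF
  rw [← norm_sq_lamOp_dl, ← hTF', hT] at h2
  exact h2

private theorem bound_aux {C : ℝ} (hC : 1 ≤ C) {k : ℕ} (a : ℕ → ℝ) (ha : ∀ j, 0 ≤ a j) (N : ℝ)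
    (hN : 0 ≤ N) (h : ∀ j, a (j + 1) ≤ C * (1 + 2 ^ j * (N + N)) ^ k * a j ^ 2) (j : ℕ) :
    2 ^ k * C * (1 + 2 ^ j * (N + N)) ^ k * a j ≤ (2 ^ k * C * (1 + (N + N)) ^ k * a 0) ^ (2 ^ j) := by
  induction j with
  | zero => simp
  | succ j ih =>
    have hC0 : (0 : ℝ) ≤ C := by linarith
    have h2j : (0 : ℝ) < 2 ^ j := by positivity
    have h1 : (1 + 2 ^ (j + 1) * (N + N)) ^ k ≤ (2 : ℝ) ^ k * (1 + 2 ^ j * (N + N)) ^ k := by
      rw [← mul_pow]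
      refine pow_le_pow_left₀ (by positivity) ?_ k
      rw [pow_succ]
      nlinarith
    have h3 : 0 ≤ 2 ^ k * C * (1 + 2 ^ j * (N + N)) ^ k * a j := by
      have := ha j
      positivity
    calc 2 ^ k * C * (1 + 2 ^ (j + 1) * (N + N)) ^ k * a (j + 1)
        ≤ 2 ^ k * C * ((2 : ℝ) ^ k * (1 + 2 ^ j * (N + N)) ^ k) *
          (C * (1 + 2 ^ j * (N + N)) ^ k * a j ^ 2) := by
          refine mul_le_mul (mul_le_mul_of_nonneg_left h1 (by positivity)) (h j) (ha _) ?_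
          positivity
      _ = (2 ^ k * C * (1 + 2 ^ j * (N + N)) ^ k * a j) ^ 2 := by ring
      _ ≤ ((2 ^ k * C * (1 + (N + N)) ^ k * a 0) ^ (2 ^ j)) ^ 2 := pow_le_pow_left₀ h3 ih 2
      _ = (2 ^ k * C * (1 + (N + N)) ^ k * a 0) ^ (2 ^ (j + 1)) := by
          rw [← pow_mul, pow_succ]

/-- **Doubling.** PROOF. Let `T = λ(f)* λ(f)` and `a j = ‖T^(2^j) δ‖`. `T^(2^j) = λ(f_j)` with `f_j`
supported in the ball of radius `2^(j+1) n` (use `ballSpan_mul`, `ballSpan_pow`, `ballSpan_star`,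
`ballSpan_exists` of helper91/RDR/Wk.lean for the homomorphism `σ : G →* (lp →L lp)`, `σ g = lam g`,
built from `lam_one`, `lam_mul`; `lam_star`), it is self-adjoint, and `‖λ(f_j) δ‖² = sq2 f_j`
(`inner_dl`, or `lam_dl`: `λ(f_j) δ` is the function `f_j`). The hypothesis for `f_j` gives
`a (j+1) ≤ C (1 + 2^(j+1) n)^k (a j)²`. Put `b j = 2^k C (1 + 2^(j+1) n)^k a j`; as
`1 + 2^(j+2) n ≤ 2 (1 + 2^(j+1) n)` one gets `b (j+1) ≤ (b j)²`, so `b j ≤ (b 0)^(2^j)`, and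
`a j ≤ b j` since `C ≥ 1`. Finally `b 0 = 2^k C (1 + 2n)^k ‖T δ‖ ≤ 2^k C (1+2n)^k * C (1+n)^k sq2 f`
and `1 + 2n ≤ 2 (1 + n)`. -/
theorem doubling [DecidableEq G] {L : G → ℕ} (hL : IsLength L) {C : ℝ} (hC : 1 ≤ C) {k : ℕ}
    (h : ∀ (n : ℕ) (f : G →₀ ℂ), (∀ g ∈ f.support, L g ≤ n) →
      ‖(star (lamOp f) * lamOp f) (dl G)‖ ≤ C * (1 + (n : ℝ)) ^ k * sq2 f)
    (n : ℕ) (f : G →₀ ℂ) (hf : ∀ g ∈ f.support, L g ≤ n) (j : ℕ) :
    ‖((star (lamOp f) * lamOp f) ^ (2 ^ j)) (dl G)‖ ≤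
      (4 ^ k * C ^ 2 * (1 + (n : ℝ)) ^ (2 * k) * sq2 f) ^ (2 ^ j) := by
  have hC0 : (0 : ℝ) ≤ C := by linarith
  have hn0 : (0 : ℝ) ≤ (n : ℝ) := Nat.cast_nonneg n
  have hTs : star (star (lamOp f) * lamOp f) = star (lamOp f) * lamOp f := by
    rw [star_mul, star_star]
  have hmem : star (lamOp f) * lamOp f ∈ ballSpan L (lamHom G) (n + n) :=
    TT_mem hL hf
  have h0 := h n f hf
  generalize star (lamOp f) * lamOp f = T at hTs hmem h0 ⊢
  have hstep : ∀ i, ‖(T ^ (2 ^ (i + 1))) (dl G)‖ ≤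
      C * (1 + 2 ^ i * ((n : ℝ) + n)) ^ k * ‖(T ^ (2 ^ i)) (dl G)‖ ^ 2 := by
    intro i
    have h1 : T ^ (2 ^ (i + 1)) = T ^ (2 ^ i) * T ^ (2 ^ i) := by
      rw [← pow_add, pow_succ, mul_two]
    have h2 := step_aux h (by rw [star_pow, hTs]) (ballSpan_pow hL _ hmem (2 ^ i))
    have hc : ((2 ^ i * (n + n) : ℕ) : ℝ) = 2 ^ i * ((n : ℝ) + n) := by push_cast; ring
    rw [hc] at h2
    rw [h1]
    exact h2
  have hb := bound_aux hC (fun i => ‖(T ^ (2 ^ i)) (dl G)‖) (fun i => norm_nonneg _) n hn0 hstep j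
  have hS := sq2_nonneg f
  have h3 : 2 ^ k * C * (1 + ((n : ℝ) + n)) ^ k * ‖(T ^ (2 ^ 0)) (dl G)‖ ≤
      4 ^ k * C ^ 2 * (1 + (n : ℝ)) ^ (2 * k) * sq2 f := by
    have h00 : ‖(T ^ (2 ^ 0)) (dl G)‖ = ‖T (dl G)‖ := by rw [pow_zero, pow_one]
    rw [h00]
    have h4 : (1 + ((n : ℝ) + n)) ^ k ≤ 2 ^ k * (1 + (n : ℝ)) ^ k := by
      rw [← mul_pow]
      exact pow_le_pow_left₀ (by linarith) (by linarith) k
    have h44 : (4 : ℝ) ^ k = 2 ^ k * 2 ^ k := by rw [← mul_pow]; norm_num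
    calc 2 ^ k * C * (1 + ((n : ℝ) + n)) ^ k * ‖T (dl G)‖
        ≤ 2 ^ k * C * (2 ^ k * (1 + (n : ℝ)) ^ k) * (C * (1 + (n : ℝ)) ^ k * sq2 f) := by
          refine mul_le_mul (mul_le_mul_of_nonneg_left h4 (by positivity)) h0 (norm_nonneg _) ?_
          positivity
      _ = 4 ^ k * C ^ 2 * (1 + (n : ℝ)) ^ (2 * k) * sq2 f := by rw [h44]; ring
  have h5 : ‖(T ^ (2 ^ j)) (dl G)‖ ≤
      2 ^ k * C * (1 + 2 ^ j * ((n : ℝ) + n)) ^ k * ‖(T ^ (2 ^ j)) (dl G)‖ := by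
    refine le_mul_of_one_le_left (norm_nonneg _) ?_
    have h6 : (1 : ℝ) ≤ 2 ^ k := one_le_pow₀ (by norm_num)
    have h7 : (1 : ℝ) ≤ (1 + 2 ^ j * ((n : ℝ) + n)) ^ k := by
      refine one_le_pow₀ ?_
      have : (0 : ℝ) ≤ 2 ^ j * ((n : ℝ) + n) := by positivity
      linarith
    calc (1 : ℝ) = 1 * 1 * 1 := by norm_num
      _ ≤ 2 ^ k * C * (1 + 2 ^ j * ((n : ℝ) + n)) ^ k :=
        mul_le_mul (mul_le_mul h6 hC zero_le_one (by positivity)) h7 zero_le_one (by positivity)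
  have h8 : 0 ≤ 2 ^ k * C * (1 + ((n : ℝ) + n)) ^ k * ‖(T ^ (2 ^ 0)) (dl G)‖ := by positivity
  exact h5.trans (hb.trans (pow_le_pow_left₀ h8 h3 _))

end Pool.Agent.H79RDL
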