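import Pool.Agent.H79RDL.EnergyA

/-!
# RDL-EnergyB: Property RD from a polynomial bound of the energy
-/

namespace Pool.Agent.H79RDL

open Pool.Agent.helper91.RDR Pool.Agent.helper72.RDC
open Filter Topology

variable {G : Type*} [Group G]

/-- **Norm bound.** PROOF. `T = λ(f)* λ(f)` is self-adjoint, `‖T‖ = ‖λ(f)‖²`. For `u` finitely
supported and `ζ = λ(u) δ = ∑ u(g) δ_g`: `‖T^(2^j) ζ‖ ≤ (∑ |u g|) ‖T^(2^j) δ‖ ≤ (∑ |u g|) A^(2^j)`
by `norm_lamOp_single` and `doubling`, where `A` is the bound. By `pow_norm_le` (helper72/RDC/Weak)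
`‖T ζ‖^(2^j) ‖ζ‖ ≤ ‖T^(2^j) ζ‖ ‖ζ‖^(2^j)`, so `(‖T ζ‖)^(2^j) ≤ (∑|u g| / ‖ζ‖) (A ‖ζ‖)^(2^j)` and
`exp_poly` (helper91/RDR/Norm, with `R = 0`, `s = 0`) gives `‖T ζ‖ ≤ A ‖ζ‖`. These `ζ` are dense:
copy the end of the proof of `pair_norm_le` (helper72/RDC/Weak.lean, part `hall`). -/
theorem norm_lamOp_le [DecidableEq G] {L : G → ℕ} (hL : IsLength L) {C : ℝ} (hC : 1 ≤ C) {k : ℕ}
    (h : ∀ (n : ℕ) (f : G →₀ ℂ), (∀ g ∈ f.support, L g ≤ n) →
      ‖(star (lamOp f) * lamOp f) (dl G)‖ ≤ C * (1 + (n : ℝ)) ^ k * sq2 f)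
    (n : ℕ) (f : G →₀ ℂ) (hf : ∀ g ∈ f.support, L g ≤ n) :
    ‖lamOp f‖ ^ 2 ≤ 4 ^ k * C ^ 2 * (1 + (n : ℝ)) ^ (2 * k) * sq2 f := by
  obtain ⟨T, hT⟩ : ∃ T, T = star (lamOp f) * lamOp f := ⟨_, rfl⟩
  obtain ⟨A, hA⟩ : ∃ A : ℝ, A = 4 ^ k * C ^ 2 * (1 + (n : ℝ)) ^ (2 * k) * sq2 f := ⟨_, rfl⟩
  have hA0 : 0 ≤ A := by
    rw [hA]
    have := sq2_nonneg f
    positivity
  have hsa : IsSelfAdjoint T := by
    rw [hT]
    exact IsSelfAdjoint.star_mul_self _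
  have hn : ‖T‖ = ‖lamOp f‖ ^ 2 := by
    rw [hT]
    exact (CStarRing.norm_star_mul_self (x := lamOp f)).trans (sq _).symm
  have hdl : ∀ (j : ℕ) (g : G), ‖(T ^ (2 ^ j)) (lam g (dl G))‖ ≤ A ^ (2 ^ j) := by
    intro j g
    rw [hT, norm_lamOp_single, hA]
    exact doubling hL hC h n f hf j
  have key : ∀ (s : Finset G) (u : G → ℂ), ‖T (∑ g ∈ s, u g • lam g (dl G))‖ ≤
      A * ‖∑ g ∈ s, u g • lam g (dl G)‖ := by
    intro s u
    obtain ⟨ζ, hζ⟩ : ∃ ζ, ζ = ∑ g ∈ s, u g • lam g (dl G) := ⟨_, rfl⟩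
    rw [← hζ]
    rcases eq_or_lt_of_le (norm_nonneg ζ) with h0 | h0
    · rw [norm_eq_zero.1 h0.symm, map_zero, norm_zero, mul_zero]
    have hpow : ∀ j : ℕ, ‖(T ^ (2 ^ j)) ζ‖ ≤ (∑ g ∈ s, ‖u g‖) * A ^ (2 ^ j) := by
      intro j
      rw [hζ, map_sum, Finset.sum_mul]
      refine (norm_sum_le _ _).trans (Finset.sum_le_sum fun g _ => ?_)
      rw [map_smul, norm_smul]
      exact mul_le_mul_of_nonneg_left (hdl j g) (norm_nonneg _)
    refine exp_poly (C := (∑ g ∈ s, ‖u g‖) / ‖ζ‖) (R := 0) (s := 0) (by positivity) le_rfl ?_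
    intro j
    have h2 := pow_norm_le hsa ζ j
    have h3 := hpow j
    rw [Real.rpow_zero, mul_one, div_mul_eq_mul_div, le_div_iff₀ h0]
    calc ‖T ζ‖ ^ (2 ^ j) * ‖ζ‖ ≤ ‖(T ^ (2 ^ j)) ζ‖ * ‖ζ‖ ^ (2 ^ j) := h2
      _ ≤ ((∑ g ∈ s, ‖u g‖) * A ^ (2 ^ j)) * ‖ζ‖ ^ (2 ^ j) := by gcongr
      _ = _ := by rw [mul_pow]; ring
  have hall : ∀ ζ : lp (fun _ : G => ℂ) 2, ‖T ζ‖ ≤ A * ‖ζ‖ := by
    intro ζ
    have h1 : HasSum (fun g => (lp.single 2 g (ζ g) : lp (fun _ : G => ℂ) 2)) ζ :=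
      lp.hasSum_single (by norm_num) ζ
    have h2 : ∀ F : Finset G, ‖T (∑ g ∈ F, lp.single 2 g (ζ g))‖ ≤
        A * ‖∑ g ∈ F, (lp.single 2 g (ζ g) : lp (fun _ : G => ℂ) 2)‖ := by
      intro F
      have h3 : (∑ g ∈ F, (lp.single 2 g (ζ g) : lp (fun _ : G => ℂ) 2)) =
          ∑ g ∈ F, ζ g • lam g (dl G) := by
        refine Finset.sum_congr rfl fun g _ => ?_
        rw [lam_dl]
        have : ζ g = ζ g • (1 : ℂ) := by simp
        conv_lhs => rw [this]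
        rw [lp.single_smul]
      rw [h3]
      exact key F _
    have h4 : Tendsto (fun F : Finset G => ‖T (∑ g ∈ F, lp.single 2 g (ζ g))‖) atTop
        (𝓝 ‖T ζ‖) := ((T.continuous.tendsto ζ).comp h1).norm
    have h5 : Tendsto (fun F : Finset G =>
        A * ‖∑ g ∈ F, (lp.single 2 g (ζ g) : lp (fun _ : G => ℂ) 2)‖) atTop
        (𝓝 (A * ‖ζ‖)) := (Tendsto.norm h1).const_mul _
    exact le_of_tendsto_of_tendsto' h4 h5 h2
  have hfin : ‖T‖ ≤ A := ContinuousLinearMap.opNorm_le_bound _ hA0 hall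
  rw [hn, hA] at hfin
  exact hfin

private theorem sum_shells {L : G → ℕ} (f : G →₀ ℂ) (w : ℕ → ℝ) :
    ∑ m ∈ Finset.range (f.support.sup L + 1), w m * sq2 (f.filter fun g => L g = m) =
      f.sum fun g c => ‖c‖ ^ 2 * w (L g) := by
  classical
  have h1 : ∑ g ∈ f.support, ‖f g‖ ^ 2 * w (L g) =
      ∑ m ∈ Finset.range (f.support.sup L + 1), ∑ g ∈ f.support with L g = m,
        ‖f g‖ ^ 2 * w (L g) := by
    refine (Finset.sum_fiberwise_of_maps_to (fun g hg => ?_) _).symm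
    rw [Finset.mem_range, Nat.lt_succ_iff]
    exact Finset.le_sup (f := L) hg
  rw [Finsupp.sum, h1]
  refine Finset.sum_congr rfl fun m _ => ?_
  rw [sq2, Finsupp.sum, Finsupp.support_filter, Finset.mul_sum]
  refine Finset.sum_congr rfl fun g hg => ?_
  rw [Finset.mem_filter] at hg
  rw [Finsupp.filter_apply_pos (fun g => L g = m) f hg.2, hg.2]
  ring

private theorem eq_sum_shells {L : G → ℕ} (f : G →₀ ℂ) :
    f = ∑ m ∈ Finset.range (f.support.sup L + 1), f.filter fun g => L g = m := by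
  classical
  ext g
  rw [Finsupp.finsetSum_apply]
  by_cases hg : g ∈ f.support
  · rw [Finset.sum_eq_single (L g)]
    · exact (Finsupp.filter_apply_pos (fun x => L x = L g) f rfl).symm
    · intro m _ hm
      exact Finsupp.filter_apply_neg (fun x => L x = m) f (Ne.symm hm)
    · intro hm
      exfalso
      apply hm
      rw [Finset.mem_range, Nat.lt_succ_iff]
      exact Finset.le_sup (f := L) hg
  · rw [Finsupp.notMem_support_iff.1 hg]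
    symm
    refine Finset.sum_eq_zero fun m _ => ?_
    rw [Finsupp.filter_apply]
    split_ifs
    · exact Finsupp.notMem_support_iff.1 hg
    · rfl

/-- **Property RD from a polynomial bound of the energy.** PROOF. Enlarge `C` to be `≥ 1`.
Decompose `f = ∑_m f_m`, `f_m` = `f` on the sphere `L g = m`, `m ≤ M = f.support.sup L`. Then
`‖λ(f)‖ ≤ ∑_m ‖λ(f_m)‖ ≤ 2^k C ∑_m (1+m)^k ‖f_m‖₂ ≤ 2^k C (∑_m (1+m)^(-2))^(1/2)
(∑_m (1+m)^(2k+2) ‖f_m‖₂²)^(1/2)` and `∑_m (1+m)^(-2) ≤ 2` (`sum_inv_sq` in helper72/RDC/Index);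
the last sum is `∑_g |f g|² (1 + L g)^(2 (k+1))`. So `GroupRD` with `s = k + 1`. (End as in
`groupRD_of_simple`, helper91/RDR/Main1: `η = λ(f) ξ`.) -/
theorem groupRD_of_energy [DecidableEq G] {L : G → ℕ} (hL : IsLength L) {C : ℝ} {k : ℕ}
    (h : ∀ (n : ℕ) (f : G →₀ ℂ), (∀ g ∈ f.support, L g ≤ n) →
      ‖(star (lamOp f) * lamOp f) (dl G)‖ ≤ C * (1 + (n : ℝ)) ^ k * sq2 f) : GroupRD L := by
  obtain ⟨D, hD, hD1⟩ : ∃ D : ℝ, C ≤ D ∧ 1 ≤ D := ⟨max C 1, le_max_left _ _, le_max_right _ _⟩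
  have h' : ∀ (n : ℕ) (f : G →₀ ℂ), (∀ g ∈ f.support, L g ≤ n) →
      ‖(star (lamOp f) * lamOp f) (dl G)‖ ≤ D * (1 + (n : ℝ)) ^ k * sq2 f := by
    intro n f hf
    refine (h n f hf).trans ?_
    have := sq2_nonneg f
    gcongr
  have hD0 : 0 ≤ D := zero_le_one.trans hD1
  refine ⟨Real.sqrt (2 * (4 ^ k * D ^ 2)), k + 1, Real.sqrt_nonneg _, by positivity, ?_⟩
  intro f ξ η hη
  have hT : η = lamOp f ξ := by
    ext x
    rw [hη x, lamOp, Finsupp.sum, Finsupp.sum, sum_apply, lp.coeFn_sum, Finset.sum_apply]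
    rfl
  obtain ⟨K, hK⟩ : ∃ K : ℝ, K = f.sum fun g c => ‖c‖ ^ 2 * (1 + (L g : ℝ)) ^ (2 * ((k : ℝ) + 1)) :=
    ⟨_, rfl⟩
  have hK' : ∑ m ∈ Finset.range (f.support.sup L + 1),
      (1 + (m : ℝ)) ^ (2 * (k + 1)) * sq2 (f.filter fun g => L g = m) = K := by
    rw [sum_shells f (fun m => (1 + (m : ℝ)) ^ (2 * (k + 1))), hK]
    refine Finset.sum_congr rfl fun g _ => ?_
    have h1 : (2 * ((k : ℝ) + 1)) = ((2 * (k + 1) : ℕ) : ℝ) := by push_cast; ring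
    show ‖f g‖ ^ 2 * (1 + (L g : ℝ)) ^ (2 * (k + 1)) =
      ‖f g‖ ^ 2 * (1 + (L g : ℝ)) ^ (2 * ((k : ℝ) + 1))
    rw [h1, Real.rpow_natCast]
  have h1 : ‖lamOp f‖ ≤ ∑ m ∈ Finset.range (f.support.sup L + 1),
      ‖lamOp (f.filter fun g => L g = m)‖ := by
    conv_lhs => rw [eq_sum_shells (L := L) f]
    rw [lamOp_sum]
    exact norm_sum_le _ _
  have h2 : (∑ m ∈ Finset.range (f.support.sup L + 1), ‖lamOp (f.filter fun g => L g = m)‖) ^ 2 ≤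
      2 * (4 ^ k * D ^ 2) * K := by
    have e1 : ∀ m : ℕ, ‖lamOp (f.filter fun g => L g = m)‖ =
        ((m : ℝ) + 1)⁻¹ * (((m : ℝ) + 1) * ‖lamOp (f.filter fun g => L g = m)‖) := by
      intro m
      have : (m : ℝ) + 1 ≠ 0 := by positivity
      field_simp
    rw [Finset.sum_congr rfl fun m _ => e1 m]
    refine (Finset.sum_mul_sq_le_sq_mul_sq _ _ _).trans ?_
    have e2 : ∑ m ∈ Finset.range (f.support.sup L + 1), (((m : ℝ) + 1)⁻¹) ^ 2 ≤ 2 := by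
      have e3 := sum_inv_sq (f.support.sup L + 1)
      have e4 : 0 ≤ 2 / (((f.support.sup L + 1 : ℕ) : ℝ) + 1) := by positivity
      have e5 : ∑ m ∈ Finset.range (f.support.sup L + 1), (((m : ℝ) + 1)⁻¹) ^ 2 =
          ∑ m ∈ Finset.range (f.support.sup L + 1), (((m : ℝ) + 1) ^ 2)⁻¹ :=
        Finset.sum_congr rfl fun m _ => inv_pow _ _
      rw [e5]
      linarith
    have e3 : ∑ m ∈ Finset.range (f.support.sup L + 1),
        (((m : ℝ) + 1) * ‖lamOp (f.filter fun g => L g = m)‖) ^ 2 ≤ (4 ^ k * D ^ 2) * K := by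
      rw [← hK', Finset.mul_sum]
      refine Finset.sum_le_sum fun m _ => ?_
      have e4 := norm_lamOp_le hL hD1 h' m (f.filter fun g => L g = m) (by
        intro g hg
        rw [Finsupp.support_filter, Finset.mem_filter] at hg
        exact hg.2.le)
      rw [mul_pow]
      calc ((m : ℝ) + 1) ^ 2 * ‖lamOp (f.filter fun g => L g = m)‖ ^ 2 ≤
            ((m : ℝ) + 1) ^ 2 * (4 ^ k * D ^ 2 * (1 + (m : ℝ)) ^ (2 * k) *
              sq2 (f.filter fun g => L g = m)) := by gcongr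
        _ = _ := by ring
    have hnn : 0 ≤ (4 ^ k * D ^ 2) * K := by
      refine le_trans (Finset.sum_nonneg fun m _ => ?_) e3
      positivity
    calc (∑ m ∈ Finset.range (f.support.sup L + 1), (((m : ℝ) + 1)⁻¹) ^ 2) *
          ∑ m ∈ Finset.range (f.support.sup L + 1),
            (((m : ℝ) + 1) * ‖lamOp (f.filter fun g => L g = m)‖) ^ 2 ≤
          2 * ((4 ^ k * D ^ 2) * K) := by
            refine mul_le_mul e2 e3 (Finset.sum_nonneg fun m _ => ?_) (by norm_num)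
            positivity
      _ = _ := by ring
  have h3 : ‖lamOp f‖ ≤ Real.sqrt (2 * (4 ^ k * D ^ 2)) * Real.sqrt K := by
    rw [← Real.sqrt_mul (by positivity)]
    refine Real.le_sqrt_of_sq_le ?_
    exact (pow_le_pow_left₀ (norm_nonneg _) h1 2).trans h2
  rw [← hK, hT]
  calc ‖lamOp f ξ‖ ≤ ‖lamOp f‖ * ‖ξ‖ := ContinuousLinearMap.le_opNorm _ _
    _ ≤ _ := mul_le_mul_of_nonneg_right h3 (norm_nonneg _)

end Pool.Agent.H79RDL
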