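import Pool.Agent.H79RDL.Base

/-!
# RDL-Indep: a maximal algebraically independent subset of a finite set
-/

namespace Pool.Agent.H79RDL

/-- **A maximal algebraically independent subset.** Let `R₁` be a domain (below: `ℤ` or `ZMod p`)
with `R₁ → F` injective and `E ⊆ F` finite. PROOF. Let `T ⊆ E` be a maximal subset such that the
inclusion is algebraically independent over `R₁` (exists: `E` is finite, the empty set is
independent as `algebraMap R₁ F` is injective), `r = |T|`, `t : Fin r → F` an enumeration. The
homomorphism `aeval t : MvPolynomial (Fin r) R₁ → F` is injective, so it extends to the fraction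
field `j : K₀ → F` (`IsFractionRing.lift`, `IsLocalization.lift`). For `e ∈ E`, if `e ∉ T` then
`T ∪ {e}` is not independent, so `e` is algebraic over `Algebra.adjoin R₁ T`
(`AlgebraicIndepOn.insert`), hence over the field `K₀` (a nonzero polynomial with coefficients in
`Algebra.adjoin R₁ T = range (aeval t)`, mapped to `K₀`). -/
theorem exists_indep {R₁ : Type} [CommRing R₁] [IsDomain R₁] {F : Type*} [Field F] [Algebra R₁ F]
    (hinj : Function.Injective (algebraMap R₁ F)) (E : Finset F) :
    ∃ (r : ℕ) (j : FractionRing (MvPolynomial (Fin r) R₁) →+* F),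
      ∀ e ∈ E, ∃ P : Polynomial (FractionRing (MvPolynomial (Fin r) R₁)), P ≠ 0 ∧
        P.eval₂ j e = 0 := by
  classical
  obtain ⟨u, -, hu⟩ := exists_maximal_algebraicIndependent (R := R₁) (∅ : Set F) (E : Set F)
    (Set.empty_subset _) ((algebraicIndependent_empty_iff R₁ F).mpr hinj)
  have hfin : u.Finite := E.finite_toSet.subset hu.prop.2
  have : Fintype u := hfin.fintype
  have eq : Fin (Fintype.card u) ≃ u := (Fintype.equivFin u).symm
  set r : ℕ := Fintype.card u with hr
  let t : Fin r → F := fun i => (eq i : F)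
  have ht : AlgebraicIndependent R₁ t := by
    have h1 : AlgebraicIndependent R₁ (fun x : u => (x : F)) := hu.prop.1
    exact h1.comp eq eq.injective
  have hrange : Set.range t = u := by
    ext x
    constructor
    · rintro ⟨i, rfl⟩
      exact (eq i).2
    · intro hx
      exact ⟨eq.symm ⟨x, hx⟩, by simp [t]⟩
  have hti : Function.Injective
      ((MvPolynomial.aeval t : MvPolynomial (Fin r) R₁ →ₐ[R₁] F) : MvPolynomial (Fin r) R₁ →+* F) :=
    ht
  let j : FractionRing (MvPolynomial (Fin r) R₁) →+* F := IsFractionRing.lift hti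
  have hj : ∀ x : MvPolynomial (Fin r) R₁,
      j (algebraMap _ (FractionRing (MvPolynomial (Fin r) R₁)) x) = MvPolynomial.aeval t x :=
    fun x => IsFractionRing.lift_algebraMap hti x
  refine ⟨r, j, ?_⟩
  intro e he
  have halg : IsAlgebraic (Algebra.adjoin R₁ (Set.range t)) e := by
    rw [hrange]
    by_cases heu : e ∈ u
    · exact isAlgebraic_algebraMap (⟨e, Algebra.subset_adjoin heu⟩ : Algebra.adjoin R₁ u)
    · by_contra hcon
      have hcon' : Transcendental (Algebra.adjoin R₁ (id '' u)) (id e) := by
        rw [Set.image_id]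
        exact hcon
      have h1 : AlgebraicIndepOn R₁ id (insert e u) :=
        (AlgebraicIndepOn.insert_iff heu).2 ⟨hu.prop.1, hcon'⟩
      have h2 := hu.le_of_ge ⟨h1, Set.insert_subset he hu.prop.2⟩ (Set.subset_insert e u)
      exact heu (h2 (Set.mem_insert _ _))
  obtain ⟨Q, hQ0, hQ⟩ := halg
  let σ : Algebra.adjoin R₁ (Set.range t) →+* FractionRing (MvPolynomial (Fin r) R₁) :=
    (algebraMap (MvPolynomial (Fin r) R₁) (FractionRing (MvPolynomial (Fin r) R₁))).comp
      (ht.aevalEquiv.symm : Algebra.adjoin R₁ (Set.range t) →+* MvPolynomial (Fin r) R₁)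
  have hσ : Function.Injective σ :=
    (IsFractionRing.injective (MvPolynomial (Fin r) R₁)
      (FractionRing (MvPolynomial (Fin r) R₁))).comp ht.aevalEquiv.symm.injective
  have hjσ : j.comp σ = algebraMap (Algebra.adjoin R₁ (Set.range t)) F := by
    ext x
    have h1 : j (σ x) = MvPolynomial.aeval t (ht.aevalEquiv.symm x) := hj _
    rw [RingHom.comp_apply, h1, ← ht.algebraMap_aevalEquiv, AlgEquiv.apply_symm_apply]
  refine ⟨Q.map σ, ?_, ?_⟩
  · intro h0
    exact hQ0 (Polynomial.map_injective σ hσ (by rw [h0, Polynomial.map_zero]))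
  · rw [Polynomial.eval₂_map, hjσ]
    exact hQ

end Pool.Agent.H79RDL
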