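import Pool.Agent.H79RDL.Base

/-!
# RDL-RedZMod: polynomial rings over `ZMod p` are sized rings
-/

namespace Pool.Agent.H79RDL

/-- **`F_p[t_1, …, t_r]` is a sized ring.** PROOF. `B a = {P | P.totalDegree ≤ a}`. `red`: `P ≠ 0`,
`totalDegree P ≤ a`; let `m = Nat.log p a + 1`, so `a < p^m ≤ p * max 1 a`, and
`k = GaloisField p m`, `Nat.card k = p ^ m` (`GaloisField.card`). `P` maps to a nonzero polynomial
over `k` (`MvPolynomial.map_injective`, the map `ZMod p → k` of fields is injective) of total degree
`≤ a < |k|`, so `MvPolynomial.eq_zero_of_eval_zero_at_prod_finset` with the sets `univ` gives a point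
`v : Fin r → k` where it does not vanish; `ψ = MvPolynomial.eval₂Hom (algebraMap (ZMod p) k) v`.
`p * (a + 1) ≤ 2^c (a+2) ≤ (a + 2)^(c + 1)` with `2^c ≥ p`, e.g. `c = p`. -/
theorem sized_zmod (p : ℕ) [Fact p.Prime] (r : ℕ) :
    Nonempty (Sized (MvPolynomial (Fin r) (ZMod p))) := by
  have hp1 : 1 < p := (Fact.out : p.Prime).one_lt
  refine ⟨{ B := fun a => {P | P.totalDegree ≤ a}
            mono := fun {a b} hab P hP => ?_
            exh := fun P => ⟨P.totalDegree, by simp⟩
            zero := by simp
            one := by simp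
            neg := fun {a P} hP => ?_
            add := fun {a P Q} hP hQ => ?_
            mul := fun {a b P Q} hP hQ => ?_
            red := ?_ }⟩
  · simp only [Set.mem_ofPred_eq] at hP ⊢
    exact hP.trans hab
  · simp only [Set.mem_ofPred_eq] at hP ⊢
    rwa [MvPolynomial.totalDegree_neg]
  · simp only [Set.mem_ofPred_eq] at hP hQ ⊢
    exact (MvPolynomial.totalDegree_add P Q).trans ((max_le hP hQ).trans (Nat.le_succ a))
  · simp only [Set.mem_ofPred_eq] at hP hQ ⊢
    exact (MvPolynomial.totalDegree_mul P Q).trans (add_le_add hP hQ)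
  · refine ⟨p + 1, fun a P hP hP0 => ?_⟩
    simp only [Set.mem_ofPred_eq] at hP
    set m : ℕ := Nat.log p a + 1 with hm
    have hm0 : m ≠ 0 := by omega
    have hlt : a < p ^ m := Nat.lt_pow_succ_log_self hp1 a
    have hcard : Nat.card (GaloisField p m) = p ^ m := GaloisField.card p m hm0
    have hfin : Finite (GaloisField p m) := by
      apply Nat.finite_of_card_ne_zero
      rw [hcard]
      positivity
    let hft : Fintype (GaloisField p m) := Fintype.ofFinite _
    have hinj : Function.Injective (algebraMap (ZMod p) (GaloisField p m)) :=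
      (algebraMap (ZMod p) (GaloisField p m)).injective
    have hne : MvPolynomial.map (algebraMap (ZMod p) (GaloisField p m)) P ≠ 0 := by
      intro h0
      exact hP0 (MvPolynomial.map_injective _ hinj (h0.trans (map_zero _).symm))
    have hex : ∃ v : Fin r → GaloisField p m,
        MvPolynomial.eval v (MvPolynomial.map (algebraMap (ZMod p) (GaloisField p m)) P) ≠ 0 := by
      by_contra hcon
      push Not at hcon
      refine hne (MvPolynomial.eq_zero_of_eval_zero_at_prod_finset _ (fun _ => Finset.univ)
        (fun i => ?_) (fun v _ => hcon v))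
      have h1 : (MvPolynomial.map (algebraMap (ZMod p) (GaloisField p m)) P).totalDegree ≤ a := by
        refine le_trans ?_ hP
        simp only [MvPolynomial.totalDegree]
        exact Finset.sup_mono (MvPolynomial.support_map_subset _ _)
      have h2 := MvPolynomial.degreeOf_le_totalDegree
        (MvPolynomial.map (algebraMap (ZMod p) (GaloisField p m)) P) i
      have h3 : (Finset.univ : Finset (GaloisField p m)).card = p ^ m := by
        rw [Finset.card_univ, ← Nat.card_eq_fintype_card, hcard]
      rw [h3]
      omega
    obtain ⟨v, hv⟩ := hex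
    refine ⟨GaloisField p m, inferInstance, hfin,
      MvPolynomial.eval₂Hom (algebraMap (ZMod p) (GaloisField p m)) v, ?_, ?_⟩
    · rw [MvPolynomial.coe_eval₂Hom, ← MvPolynomial.eval_map]
      exact hv
    · rw [hcard]
      have h1 : p ^ m ≤ p * (a + 1) := by
        rw [hm, pow_succ, mul_comm]
        apply Nat.mul_le_mul_left
        rcases Nat.eq_zero_or_pos a with h0 | h0
        · subst h0
          simp
        · exact (Nat.pow_log_le_self p h0.ne').trans (Nat.le_succ a)
      have h2 : p ≤ (a + 2) ^ p := by
        calc p ≤ 2 ^ p := Nat.lt_two_pow_self.le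
          _ ≤ (a + 2) ^ p := Nat.pow_le_pow_left (by omega) p
      calc p ^ m ≤ p * (a + 1) := h1
        _ ≤ (a + 2) ^ p * (a + 2) := Nat.mul_le_mul h2 (by omega)
        _ = (a + 2) ^ (p + 1) := (pow_succ _ _).symm

end Pool.Agent.H79RDL
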