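import Pool.Agent.H79RDL.Base

/-!
# RDL-Restrict: restriction of scalars for finitely generated linear groups
-/

namespace Pool.Agent.H79RDL

/-- Restriction of scalars from a finite extension, as a homomorphism of monoids of matrices. -/
private noncomputable def restrHom {K₀ A : Type*} [Field K₀] [Field A] [Algebra K₀ A] (d : ℕ)
    {m : ℕ} (b : Module.Basis (Fin m) K₀ (Fin d → A)) :
    Matrix (Fin d) (Fin d) A →* Matrix (Fin m) (Fin m) K₀ where
  toFun M := LinearMap.toMatrix b b ((Matrix.toLin' M).restrictScalars K₀)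
  map_one' := by
    rw [Matrix.toLin'_one]
    exact LinearMap.toMatrix_id b
  map_mul' M N := by
    rw [Matrix.toLin'_mul, ← LinearMap.toMatrix_mul]
    rfl

private theorem restrHom_injective {K₀ A : Type*} [Field K₀] [Field A] [Algebra K₀ A] (d : ℕ)
    {m : ℕ} (b : Module.Basis (Fin m) K₀ (Fin d → A)) : Function.Injective (restrHom d b) := by
  intro M N h
  have h1 : (Matrix.toLin' M).restrictScalars K₀ = (Matrix.toLin' N).restrictScalars K₀ :=
    (LinearMap.toMatrix b b).injective h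
  have h2 : Matrix.toLin' M = Matrix.toLin' N := LinearMap.restrictScalars_injective K₀ h1
  exact Matrix.toLin'.injective h2

/-- **Restriction of scalars.** `K₀ → F` a homomorphism of fields such that the entries of the
matrices `φ s`, `(φ s)⁻¹`, `s ∈ S`, are algebraic over `K₀`. PROOF. Make `F` a `K₀`-algebra by
`j.toAlgebra`; let `E` be the finite set of the entries, `A = IntermediateField.adjoin K₀ E`, which is
finite-dimensional over `K₀` (`IntermediateField.finiteDimensional_adjoin`). The injective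
homomorphism `GL_d(A) → GL_d(F)` (`Matrix.GeneralLinearGroup.map`) has the `φ s`, `s ∈ S`, in its
range, so `lift_gens` gives `φ' : Γ →* GL_d(A)`. Now `Γ` acts `A`-linearly, hence `K₀`-linearly, on
`Fin d → A`, which has a finite basis over `K₀` (`Module.finBasis`): the composition
`GL_d(A) → Matrix (Fin d) (Fin d) A → End_A (Fin d → A) → End_{K₀} (Fin d → A) → Matrix (Fin m) (Fin m) K₀`
(`Matrix.toLin'` / `Matrix.toLinAlgEquiv'`, `LinearMap.restrictScalars`, `LinearMap.toMatrixAlgEquiv`)
is an injective homomorphism of monoids. -/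
theorem exists_restrict {Γ : Type*} [Group Γ] (S : Finset Γ)
    (hS : Subgroup.closure (S : Set Γ) = ⊤) {F : Type*} [Field F] {d : ℕ}
    (φ : Γ →* Matrix.GeneralLinearGroup (Fin d) F) {K₀ : Type} [Field K₀] (j : K₀ →+* F)
    (hj : ∀ s ∈ S, ∀ a b : Fin d,
      (∃ P : Polynomial K₀, P ≠ 0 ∧ P.eval₂ j ((φ s : Matrix (Fin d) (Fin d) F) a b) = 0) ∧
      (∃ P : Polynomial K₀, P ≠ 0 ∧ P.eval₂ j ((φ s⁻¹ : Matrix (Fin d) (Fin d) F) a b) = 0)) :
    ∃ (m : ℕ) (ψ : Γ →* Matrix (Fin m) (Fin m) K₀), ∀ x, ψ x = 1 ↔ φ x = 1 := by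
  classical
  letI : Algebra K₀ F := j.toAlgebra
  let E : Set F := Set.range (fun x : S × Fin d × Fin d =>
      (φ x.1 : Matrix (Fin d) (Fin d) F) x.2.1 x.2.2) ∪
    Set.range (fun x : S × Fin d × Fin d =>
      (φ (x.1 : Γ)⁻¹ : Matrix (Fin d) (Fin d) F) x.2.1 x.2.2)
  have hEfin : Finite E := (Set.toFinite _)
  have hEint : ∀ x ∈ E, IsIntegral K₀ x := by
    have key : ∀ x : F, (∃ P : Polynomial K₀, P ≠ 0 ∧ P.eval₂ j x = 0) → IsIntegral K₀ x := by
      rintro x ⟨P, hP, hx⟩
      exact (show IsAlgebraic K₀ x from ⟨P, hP, by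
        rw [Polynomial.aeval_def]; exact hx⟩).isIntegral
    rintro x (⟨⟨s, a, b⟩, rfl⟩ | ⟨⟨s, a, b⟩, rfl⟩)
    · exact key _ (hj s s.2 a b).1
    · exact key _ (hj s s.2 a b).2
  let A : IntermediateField K₀ F := IntermediateField.adjoin K₀ E
  haveI : FiniteDimensional K₀ A := IntermediateField.finiteDimensional_adjoin hEint
  have hEA : ∀ x ∈ E, x ∈ A := fun x hx => IntermediateField.subset_adjoin K₀ E hx
  let ι : A →+* F := algebraMap A F
  have hι : Function.Injective ι := ι.injective
  let J : Matrix.GeneralLinearGroup (Fin d) A →* Matrix.GeneralLinearGroup (Fin d) F :=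
    Matrix.GeneralLinearGroup.map ι
  have hJ : Function.Injective J := by
    intro M N h
    apply Units.ext
    ext a b
    have h1 := congrArg (fun X : Matrix.GeneralLinearGroup (Fin d) F =>
      (X : Matrix (Fin d) (Fin d) F) a b) h
    exact congrArg Subtype.val (hι h1)
  have hrange : ∀ s ∈ (S : Set Γ), φ s ∈ J.range := by
    intro s hs
    let M : Matrix (Fin d) (Fin d) A := fun a b =>
      ⟨(φ s : Matrix (Fin d) (Fin d) F) a b, hEA _ (Or.inl ⟨⟨⟨s, hs⟩, a, b⟩, rfl⟩)⟩
    let N : Matrix (Fin d) (Fin d) A := fun a b =>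
      ⟨(φ s⁻¹ : Matrix (Fin d) (Fin d) F) a b, hEA _ (Or.inr ⟨⟨⟨s, hs⟩, a, b⟩, rfl⟩)⟩
    have hM : M.map ι = (φ s : Matrix (Fin d) (Fin d) F) := rfl
    have hN : N.map ι = (φ s⁻¹ : Matrix (Fin d) (Fin d) F) := rfl
    have hinj : Function.Injective (fun X : Matrix (Fin d) (Fin d) A => X.map ι) :=
      Matrix.map_injective hι
    have h1 : M * N = 1 := by
      apply hinj
      show (M * N).map ι = (1 : Matrix (Fin d) (Fin d) A).map ι
      rw [Matrix.map_mul, hM, hN, Matrix.map_one ι (map_zero ι) (map_one ι), map_inv]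
      exact Units.mul_inv (φ s)
    have h2 : N * M = 1 := by
      apply hinj
      show (N * M).map ι = (1 : Matrix (Fin d) (Fin d) A).map ι
      rw [Matrix.map_mul, hM, hN, Matrix.map_one ι (map_zero ι) (map_one ι), map_inv]
      exact Units.inv_mul (φ s)
    exact ⟨⟨M, N, h1, h2⟩, Units.ext hM⟩
  obtain ⟨φ', hφ'⟩ := lift_gens (S : Set Γ) hS J hJ φ hrange
  haveI : FiniteDimensional K₀ (Fin d → A) := inferInstance
  let b := Module.finBasis K₀ (Fin d → A)
  refine ⟨_, (restrHom d b).comp ((Units.coeHom _).comp φ'), fun x => ?_⟩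
  constructor
  · intro h
    have h1 : restrHom d b ((φ' x : Matrix (Fin d) (Fin d) A)) = restrHom d b 1 := by
      rw [map_one]; exact h
    have h2 : (φ' x : Matrix (Fin d) (Fin d) A) = 1 := restrHom_injective d b h1
    have h3 : φ' x = 1 := Units.ext h2
    rw [← hφ' x, h3, map_one]
  · intro h
    have h1 : φ' x = 1 := hJ (by rw [hφ' x, h, map_one])
    show restrHom d b ((φ' x : Matrix (Fin d) (Fin d) A)) = 1
    rw [h1]
    exact map_one _

end Pool.Agent.H79RDL
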