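import Pool.Agent.H79RDL.Base

/-!
# RDL-Theta: reduction of a matrix group to a finite field
-/

namespace Pool.Agent.H79RDL

open Pool.Agent.helper91.RDR

variable {Γ : Type*} [Group Γ]

/-- **Reduction.** If `ψ₀ : R → k` is a homomorphism to a field with `ψ₀ s ≠ 0` then `ψ` reduces to a
homomorphism `Θ : Γ → GL_m(k)` with `ψ₀(s)^n Θ(x) = ψ₀(M)` whenever `M` over `R` maps to `s^n ψ x`.
PROOF. `Localization.Away s` maps injectively to `FractionRing R` (as `R` is a domain and `s ≠ 0`;
`IsLocalization.Away.lift`, `IsLocalization.injective_...` or `IsLocalization.map`), so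
`GL_m(Localization.Away s) → GL_m(FractionRing R)` is injective and contains `ψ g` (a unit of the
matrix ring, since `ψ g ψ g⁻¹ = 1`) for `g ∈ S` in its range; `lift_gens` gives
`Γ → GL_m(Localization.Away s)`; compose with `IsLocalization.Away.lift s` to `k`. -/
theorem exists_theta {R : Type} [CommRing R] [IsDomain R] (S : Finset Γ)
    (hS : Subgroup.closure (S : Set Γ) = ⊤) {m : ℕ}
    (ψ : Γ →* Matrix (Fin m) (Fin m) (FractionRing R)) {s : R} (hs : s ≠ 0)
    (h : ∀ g : Γ, (g ∈ S ∨ g⁻¹ ∈ S) → ∃ M : Matrix (Fin m) (Fin m) R,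
      M.map (algebraMap R (FractionRing R)) = algebraMap R (FractionRing R) s • ψ g)
    {k : Type} [Field k] (ψ₀ : R →+* k) (hψ : ψ₀ s ≠ 0) :
    ∃ Θ : Γ →* Matrix.GeneralLinearGroup (Fin m) k, ∀ (n : ℕ) (x : Γ) (M : Matrix (Fin m) (Fin m) R),
      M.map (algebraMap R (FractionRing R)) = algebraMap R (FractionRing R) (s ^ n) • ψ x →
      M.map ψ₀ = ψ₀ s ^ n • (Θ x : Matrix (Fin m) (Fin m) k) := by
  classical
  set K := FractionRing R with hK
  set A := Localization.Away s with hA
  have hsK : algebraMap R K s ≠ 0 := by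
    simpa using (IsFractionRing.injective R K).ne hs
  have hsu : IsUnit (algebraMap R K s) := isUnit_iff_ne_zero.2 hsK
  have hsA : IsUnit (algebraMap R A s) := IsLocalization.Away.algebraMap_isUnit s
  have hmem : Submonoid.powers s ≤ nonZeroDivisors R :=
    powers_le_nonZeroDivisors_of_noZeroDivisors hs
  let ι : A →+* K := IsLocalization.Away.lift s hsu
  have hι : ∀ r : R, ι (algebraMap R A r) = algebraMap R K r := fun r =>
    IsLocalization.Away.lift_eq s hsu r
  have hιinj : Function.Injective ι := by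
    rw [injective_iff_map_eq_zero]
    intro a ha
    obtain ⟨⟨r, t⟩, hrt⟩ := IsLocalization.surj (Submonoid.powers s) a
    have h1 : ι a * ι (algebraMap R A t) = ι (algebraMap R A r) := by
      rw [← map_mul, hrt]
    rw [ha, zero_mul, hι] at h1
    have h2 : r = 0 := by
      apply IsFractionRing.injective R K
      rw [map_zero]; exact h1.symm
    rw [h2, map_zero] at hrt
    have h3 : IsUnit (algebraMap R A t) := IsLocalization.map_units A t
    exact (h3.mul_left_eq_zero).1 hrt
  let π : A →+* k := IsLocalization.Away.lift s (isUnit_iff_ne_zero.2 hψ)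
  have hπ : ∀ r : R, π (algebraMap R A r) = ψ₀ r := fun r =>
    IsLocalization.Away.lift_eq s (isUnit_iff_ne_zero.2 hψ) r
  have hmatinj : Function.Injective (fun M : Matrix (Fin m) (Fin m) A => M.map ι) := by
    intro M N hMN
    ext i j
    apply hιinj
    exact congrFun (congrFun hMN i) j
  -- preimages of the generators
  have hpre : ∀ g : Γ, (g ∈ S ∨ g⁻¹ ∈ S) → ∃ N : Matrix (Fin m) (Fin m) A, N.map ι = ψ g := by
    intro g hg
    obtain ⟨M, hM⟩ := h g hg
    obtain ⟨u, hu⟩ := hsA
    refine ⟨(↑u⁻¹ : A) • M.map (algebraMap R A), ?_⟩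
    have h1 : ι (↑u⁻¹ : A) * algebraMap R K s = 1 := by
      rw [← hι s, ← hu, ← map_mul, Units.inv_mul, map_one]
    ext i j
    have h2 := congrFun (congrFun hM i) j
    simp only [Matrix.map_apply, Matrix.smul_apply, smul_eq_mul] at h2 ⊢
    rw [map_mul, hι, h2, ← mul_assoc, h1, one_mul]
  let φ : Γ →* Matrix.GeneralLinearGroup (Fin m) K := MonoidHom.toHomUnits ψ
  have hφ : ∀ g, (φ g : Matrix (Fin m) (Fin m) K) = ψ g := fun g => rfl
  let j : Matrix.GeneralLinearGroup (Fin m) A →* Matrix.GeneralLinearGroup (Fin m) K :=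
    Units.map (RingHom.mapMatrix ι).toMonoidHom
  have hjc : ∀ g, (j g : Matrix (Fin m) (Fin m) K) = (g : Matrix (Fin m) (Fin m) A).map ι :=
    fun g => rfl
  have hj : Function.Injective j := by
    intro x y hxy
    apply Units.ext
    apply hmatinj
    change (x : Matrix (Fin m) (Fin m) A).map ι = (y : Matrix (Fin m) (Fin m) A).map ι
    rw [← hjc, ← hjc, hxy]
  have hgen : ∀ g ∈ (S : Set Γ), φ g ∈ j.range := by
    intro g hg
    have hg' : g ∈ S := hg
    obtain ⟨N, hN⟩ := hpre g (Or.inl hg')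
    obtain ⟨N', hN'⟩ := hpre g⁻¹ (Or.inr (by simpa using hg'))
    have h1 : N * N' = 1 := by
      apply hmatinj
      change (N * N').map ι = (1 : Matrix (Fin m) (Fin m) A).map ι
      rw [Matrix.map_mul, hN, hN', ← map_mul, mul_inv_cancel, map_one,
        Matrix.map_one ι (map_zero ι) (map_one ι)]
    have h2 : N' * N = 1 := by
      apply hmatinj
      change (N' * N).map ι = (1 : Matrix (Fin m) (Fin m) A).map ι
      rw [Matrix.map_mul, hN, hN', ← map_mul, inv_mul_cancel, map_one,
        Matrix.map_one ι (map_zero ι) (map_one ι)]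
    refine ⟨⟨N, N', h1, h2⟩, ?_⟩
    apply Units.ext
    rw [hjc, hφ]
    exact hN
  obtain ⟨φ', hφ'⟩ := lift_gens (S : Set Γ) hS j hj φ hgen
  let q : Matrix.GeneralLinearGroup (Fin m) A →* Matrix.GeneralLinearGroup (Fin m) k :=
    Units.map (RingHom.mapMatrix π).toMonoidHom
  have hq : ∀ g, (q g : Matrix (Fin m) (Fin m) k) = (g : Matrix (Fin m) (Fin m) A).map π :=
    fun g => rfl
  refine ⟨q.comp φ', ?_⟩
  intro n x M hM
  have key : M.map (algebraMap R A) =
      algebraMap R A (s ^ n) • (φ' x : Matrix (Fin m) (Fin m) A) := by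
    apply hmatinj
    change (M.map (algebraMap R A)).map ι =
      (algebraMap R A (s ^ n) • (φ' x : Matrix (Fin m) (Fin m) A)).map ι
    have h3 : ((φ' x : Matrix (Fin m) (Fin m) A)).map ι = ψ x := by
      rw [← hjc, hφ', hφ]
    ext i l
    have h4 := congrFun (congrFun hM i) l
    have h5 := congrFun (congrFun h3 i) l
    simp only [Matrix.map_apply, Matrix.smul_apply, smul_eq_mul] at h4 h5 ⊢
    rw [map_mul, hι, hι, h4, h5]
  ext i l
  have h6 := congrArg π (congrFun (congrFun key i) l)
  simp only [Matrix.map_apply, Matrix.smul_apply, smul_eq_mul] at h6 ⊢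
  rw [map_mul, hπ, hπ, map_pow] at h6
  rw [h6, MonoidHom.comp_apply, hq, Matrix.map_apply]

end Pool.Agent.H79RDL
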