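import Pool.Agent.H79RDL.Words
import Pool.Agent.H79RDL.Theta

/-!
# RDL-SepSized: quotients of polynomial order over a sized ring
-/

namespace Pool.Agent.H79RDL

open Pool.Agent.helper91.RDR

variable {Γ : Type*} [Group Γ]

/-- Finitely many elements have a common size. -/
private theorem exists_size {R : Type} [CommRing R] (Z : Sized R) {ι : Type*} (F : Finset ι)
    (f : ι → R) : ∃ a : ℕ, ∀ x ∈ F, f x ∈ Z.B a := by
  classical
  induction F using Finset.induction_on with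
  | empty => exact ⟨0, fun x hx => by simp at hx⟩
  | insert y F _ ih =>
    obtain ⟨a, ha⟩ := ih
    obtain ⟨b, hb⟩ := Z.exh (f y)
    refine ⟨max a b, fun x hx => ?_⟩
    rcases Finset.mem_insert.mp hx with h | h
    · rw [h]
      exact Z.mono (le_max_right _ _) hb
    · exact Z.mono (le_max_left _ _) (ha x h)

private theorem pow_size {R : Type} [CommRing R] (Z : Sized R) {s : R} {a : ℕ} (hs : s ∈ Z.B a)
    (n : ℕ) : s ^ n ∈ Z.B (n * a) := by
  induction n with
  | zero => simpa using Z.one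
  | succ n ih =>
    rw [pow_succ, Nat.succ_mul]
    exact Z.mul ih hs

private theorem prod_size {R : Type} [CommRing R] (Z : Sized R) {ι : Type*} (F : Finset ι)
    (f : ι → R) (b : ℕ) (h : ∀ x ∈ F, f x ∈ Z.B b) : ∏ x ∈ F, f x ∈ Z.B (F.card * b) := by
  classical
  induction F using Finset.induction_on with
  | empty => simpa using Z.one
  | insert y F hy ih =>
    rw [Finset.prod_insert hy, Finset.card_insert_of_notMem hy, Nat.succ_mul, add_comm]
    exact Z.mul (h y (Finset.mem_insert_self _ _))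
      (ih fun x hx => h x (Finset.mem_insert_of_mem hx))

/-- The denominators. -/
private theorem denominators {R : Type} [CommRing R] [IsDomain R] (Z : Sized R) (S : Finset Γ)
    {m : ℕ} (ψ : Γ →* Matrix (Fin m) (Fin m) (FractionRing R)) :
    ∃ (s : R) (a : ℕ), s ≠ 0 ∧ s ∈ Z.B a ∧ ∀ g : Γ, (g ∈ S ∨ g⁻¹ ∈ S) →
      ∃ M : Matrix (Fin m) (Fin m) R, (∀ i j, M i j ∈ Z.B a) ∧
      M.map (algebraMap R (FractionRing R)) = algebraMap R (FractionRing R) s • ψ g := by
  classical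
  set T : Finset Γ := S ∪ S.image (fun g => g⁻¹) with hT
  have hmem : ∀ g : Γ, (g ∈ S ∨ g⁻¹ ∈ S) → g ∈ T := by
    intro g hg
    rw [hT, Finset.mem_union, Finset.mem_image]
    rcases hg with h | h
    · exact Or.inl h
    · exact Or.inr ⟨g⁻¹, h, inv_inv g⟩
  set F : Finset (FractionRing R) := (T ×ˢ (Finset.univ : Finset (Fin m × Fin m))).image
    (fun t => ψ t.1 t.2.1 t.2.2) with hF
  obtain ⟨b, hb⟩ := IsLocalization.exist_integer_multiples_of_finset (nonZeroDivisors R) F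
  have h1 : ∀ t : Γ × (Fin m × Fin m), ∃ r : R, t ∈ T ×ˢ (Finset.univ : Finset (Fin m × Fin m)) →
      algebraMap R (FractionRing R) r = algebraMap R (FractionRing R) (b : R) * ψ t.1 t.2.1 t.2.2 := by
    intro t
    by_cases ht : t ∈ T ×ˢ (Finset.univ : Finset (Fin m × Fin m))
    · obtain ⟨r, hr⟩ := hb (ψ t.1 t.2.1 t.2.2) (Finset.mem_image_of_mem _ ht)
      refine ⟨r, fun _ => ?_⟩
      rw [hr, Algebra.smul_def]
    · exact ⟨0, fun h => absurd h ht⟩
  choose r hr using h1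
  obtain ⟨a₁, ha₁⟩ := exists_size Z (T ×ˢ (Finset.univ : Finset (Fin m × Fin m))) r
  obtain ⟨a₂, ha₂⟩ := Z.exh (b : R)
  refine ⟨(b : R), max a₁ a₂, nonZeroDivisors.ne_zero b.2, Z.mono (le_max_right _ _) ha₂,
    fun g hg => ⟨Matrix.of fun i j => r (g, (i, j)), fun i j => ?_, ?_⟩⟩
  · exact Z.mono (le_max_left _ _) (ha₁ _ (Finset.mem_product.mpr ⟨hmem g hg, Finset.mem_univ _⟩))
  · ext i j
    rw [Matrix.map_apply, Matrix.of_apply, Matrix.smul_apply, smul_eq_mul]
    exact hr (g, (i, j)) (Finset.mem_product.mpr ⟨hmem g hg, Finset.mem_univ _⟩)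

private theorem bound_aux (a m n e c₀ q : ℕ) (hq : q ≤ (a + e * (n * (a + m) + 1) + 2) ^ c₀) :
    q ^ (m * m) ≤ ((n + 1) * (e + 1) + 1) ^ ((a + m + 3) * (c₀ * (m * m))) := by
  set z := (n + 1) * (e + 1) with hz
  have hz1 : 1 ≤ z := Nat.succ_le_of_lt (Nat.mul_pos (Nat.succ_pos _) (Nat.succ_pos _))
  have h1 : a + e * (n * (a + m) + 1) + 2 ≤ (a + m + 2) * z := by
    rw [hz]
    nlinarith [Nat.zero_le (n * e), Nat.zero_le (a * n), Nat.zero_le (a * e), Nat.zero_le (m * n),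
      Nat.zero_le (m * e)]
  have h2 : (a + m + 2) * z ≤ (z + 1) ^ (a + m + 3) := by
    rw [pow_succ]
    refine Nat.mul_le_mul ?_ (Nat.le_succ z)
    calc a + m + 2 ≤ 2 ^ (a + m + 2) := Nat.lt_two_pow_self.le
      _ ≤ (z + 1) ^ (a + m + 2) := Nat.pow_le_pow_left (by omega) _
  calc q ^ (m * m) ≤ ((a + e * (n * (a + m) + 1) + 2) ^ c₀) ^ (m * m) := Nat.pow_le_pow_left hq _
    _ ≤ (((z + 1) ^ (a + m + 3)) ^ c₀) ^ (m * m) :=
      Nat.pow_le_pow_left (Nat.pow_le_pow_left (h1.trans h2) _) _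
    _ = (z + 1) ^ ((a + m + 3) * (c₀ * (m * m))) := by
      rw [← pow_mul, ← pow_mul]

/-- **Separation over a sized ring.** PROOF. Common denominator: `s ≠ 0` with `s ψ g` over `R` for
all `g ∈ S ∪ S⁻¹` (`IsLocalization.exist_integer_multiples_of_finset`), `a` a common size of `s` and
of the entries (`Z.exh`, `Z.mono`). For `x ∈ E` take `M_x` from `word_matrix`; since `ψ x ≠ 1`,
`M_x ≠ s^n • 1`, so some entry `P_x` of `M_x - s^n • 1` is a nonzero element of
`Z.B (n (a + m) + 1)`. `Q = s ∏_{x ∈ E} P_x ≠ 0` has size `a + |E| (n (a + m) + 1)`. Take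
`ψ₀ : R → k`, `ψ₀ Q ≠ 0`, `|k| ≤ (size Q + 2)^c`, `Θ` from `exists_theta` and `N = Θ.ker`:
`index ≤ |GL_m(k)| ≤ |k|^(m*m)` (`Subgroup.index_ker`, `Nat.card_le_card_of_injective`,
`Matrix m m k`); for `x ∈ E`: `Θ x = 1` would give `ψ₀(M_x) = ψ₀(s)^n • 1`, against `ψ₀ (P_x) ≠ 0`.
Bounds: `size Q + 2 ≤ (a + m + 2) z`, `z = (n + 1)(|E| + 1)`, and
`(a + m + 2) z ≤ (z + 1)^(a + m + 3)`. -/
theorem sep_sized {R : Type} [CommRing R] [IsDomain R] (Z : Sized R) (S : Finset Γ)
    (hS : Subgroup.closure (S : Set Γ) = ⊤) {m : ℕ}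
    (ψ : Γ →* Matrix (Fin m) (Fin m) (FractionRing R)) :
    ∃ c : ℕ, ∀ (n : ℕ) (E : Finset Γ), (∀ x ∈ E, wordLength S x ≤ n ∧ ψ x ≠ 1) →
      ∃ N : Subgroup Γ, N.Normal ∧ N.FiniteIndex ∧ N.index ≤ ((n + 1) * (E.card + 1) + 1) ^ c ∧
        ∀ x ∈ E, x ∉ N := by
  classical
  obtain ⟨s, a, hs, hsa, h⟩ := denominators Z S ψ
  obtain ⟨c₀, hc₀⟩ := Z.red
  have hinj : Function.Injective (algebraMap R (FractionRing R)) :=
    IsFractionRing.injective R (FractionRing R)
  refine ⟨(a + m + 3) * (c₀ * (m * m)), fun n E hE => ?_⟩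
  have h1 : ∀ x ∈ E, ∃ P : R, P ≠ 0 ∧ P ∈ Z.B (n * (a + m) + 1) ∧
      ∃ (M : Matrix (Fin m) (Fin m) R) (i j : Fin m),
        M.map (algebraMap R (FractionRing R)) = algebraMap R (FractionRing R) (s ^ n) • ψ x ∧
        P = M i j - (s ^ n • (1 : Matrix (Fin m) (Fin m) R)) i j := by
    intro x hx
    obtain ⟨M, hM1, hM2⟩ := word_matrix Z S hS ψ hsa h n x (hE x hx).1
    have h2 : M ≠ s ^ n • (1 : Matrix (Fin m) (Fin m) R) := by
      intro h3
      apply (hE x hx).2
      have h4 : algebraMap R (FractionRing R) (s ^ n) • ψ x =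
          algebraMap R (FractionRing R) (s ^ n) • (1 : Matrix (Fin m) (Fin m) (FractionRing R)) := by
        rw [← hM2, h3]
        ext i j
        rw [Matrix.map_apply, Matrix.smul_apply, Matrix.smul_apply, smul_eq_mul, smul_eq_mul,
          map_mul]
        congr 1
        by_cases hij : i = j
        · rw [hij, Matrix.one_apply_eq, Matrix.one_apply_eq, map_one]
        · rw [Matrix.one_apply_ne hij, Matrix.one_apply_ne hij, map_zero]
      have h5 : algebraMap R (FractionRing R) (s ^ n) ≠ 0 := by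
        intro h6
        exact pow_ne_zero n hs (hinj (h6.trans (map_zero _).symm))
      exact smul_right_injective _ h5 h4
    have h7 : ∃ i j, M i j ≠ (s ^ n • (1 : Matrix (Fin m) (Fin m) R)) i j := by
      by_contra h8
      push Not at h8
      exact h2 (Matrix.ext h8)
    obtain ⟨i, j, hij⟩ := h7
    refine ⟨M i j - (s ^ n • (1 : Matrix (Fin m) (Fin m) R)) i j, sub_ne_zero.mpr hij, ?_,
      M, i, j, hM2, rfl⟩
    rw [sub_eq_add_neg]
    refine Z.add (hM1 i j) (Z.neg ?_)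
    rw [Matrix.smul_apply, smul_eq_mul]
    by_cases hij' : i = j
    · rw [hij', Matrix.one_apply_eq, mul_one]
      exact Z.mono (Nat.mul_le_mul_left n (Nat.le_add_right a m)) (pow_size Z hsa n)
    · rw [Matrix.one_apply_ne hij', mul_zero]
      exact Z.mono (Nat.zero_le _) Z.zero
  choose! P hP0 hPs hPM using h1
  set Q : R := s * ∏ x ∈ E, P x with hQ
  have hQ0 : Q ≠ 0 := mul_ne_zero hs (Finset.prod_ne_zero_iff.mpr hP0)
  have hQs : Q ∈ Z.B (a + E.card * (n * (a + m) + 1)) := Z.mul hsa (prod_size Z E P _ hPs)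
  obtain ⟨k, fk, fink, ψ₀, hψ₀, hcard⟩ := hc₀ _ Q hQs hQ0
  have hψs : ψ₀ s ≠ 0 := by
    intro h2
    apply hψ₀
    rw [hQ, map_mul, h2, zero_mul]
  have hψP : ∀ x ∈ E, ψ₀ (P x) ≠ 0 := by
    intro x hx h2
    apply hψ₀
    rw [hQ, map_mul, map_prod, Finset.prod_eq_zero hx h2, mul_zero]
  obtain ⟨Θ, hΘ⟩ := exists_theta S hS ψ hs (fun g hg => by
    obtain ⟨M, _, hM⟩ := h g hg
    exact ⟨M, hM⟩) ψ₀ hψs
  haveI : Finite (Matrix (Fin m) (Fin m) k) := by
    unfold Matrix
    infer_instance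
  haveI : Finite (Matrix.GeneralLinearGroup (Fin m) k) :=
    Finite.of_injective (fun u : Matrix.GeneralLinearGroup (Fin m) k =>
      (u : Matrix (Fin m) (Fin m) k)) Units.val_injective
  haveI : Finite Θ.range := inferInstance
  refine ⟨Θ.ker, inferInstance, ?_, ?_, ?_⟩
  · refine ⟨?_⟩
    rw [Subgroup.index_ker]
    exact Nat.card_pos.ne'
  · rw [Subgroup.index_ker]
    have h2 : Nat.card Θ.range ≤ Nat.card (Matrix.GeneralLinearGroup (Fin m) k) :=
      Nat.card_le_card_of_injective _ Subtype.val_injective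
    have h3 : Nat.card (Matrix.GeneralLinearGroup (Fin m) k) ≤
        Nat.card (Matrix (Fin m) (Fin m) k) :=
      Nat.card_le_card_of_injective (fun u : Matrix.GeneralLinearGroup (Fin m) k =>
        (u : Matrix (Fin m) (Fin m) k)) Units.val_injective
    have h4 : Nat.card (Matrix (Fin m) (Fin m) k) = Nat.card k ^ (m * m) := by
      have h5 : Nat.card (Matrix (Fin m) (Fin m) k) = Nat.card (Fin m → Fin m → k) := rfl
      rw [h5, Nat.card_fun, Nat.card_fun, Nat.card_fin, ← pow_mul]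
    rw [h4] at h3
    exact (h2.trans h3).trans (bound_aux a m n E.card c₀ _ hcard)
  · intro x hx hxN
    obtain ⟨M, i, j, hM, hPx⟩ := hPM x hx
    have h2 := hΘ n x M hM
    rw [MonoidHom.mem_ker] at hxN
    rw [hxN, Units.val_one] at h2
    apply hψP x hx
    rw [hPx, map_sub, Matrix.smul_apply, smul_eq_mul, map_mul, map_pow]
    have h3 := congrFun (congrFun h2 i) j
    rw [Matrix.map_apply, Matrix.smul_apply, smul_eq_mul] at h3
    rw [h3, sub_eq_zero]
    congr 1
    by_cases hij : i = j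
    · rw [hij, Matrix.one_apply_eq, Matrix.one_apply_eq, map_one]
    · rw [Matrix.one_apply_ne hij, Matrix.one_apply_ne hij, map_zero]

end Pool.Agent.H79RDL
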