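import Pool.Agent.H79RDL.RedInt
import Pool.Agent.H79RDL.RedZMod
import Pool.Agent.H79RDL.Indep
import Pool.Agent.H79RDL.Restrict
import Pool.Agent.H79RDL.SepSized

/-!
# RDL-SepFam: quotients of polynomial order for finitely many linear representations
-/

namespace Pool.Agent.H79RDL

open Pool.Agent.helper91.RDR

/-- The common part of the cases `p = 0` and `p > 0`. -/
private theorem sep_core {Γ : Type*} [Group Γ] (S : Finset Γ)
    (hS : Subgroup.closure (S : Set Γ) = ⊤) {F : Type*} [Field F] {d : ℕ}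
    (φ : Γ →* Matrix.GeneralLinearGroup (Fin d) F) {R₁ : Type} [CommRing R₁] [IsDomain R₁]
    [Algebra R₁ F] (hinj : Function.Injective (algebraMap R₁ F))
    (hs : ∀ r : ℕ, Nonempty (Sized (MvPolynomial (Fin r) R₁))) :
    ∃ c : ℕ, ∀ (n : ℕ) (E : Finset Γ), (∀ x ∈ E, wordLength S x ≤ n ∧ φ x ≠ 1) →
      ∃ N : Subgroup Γ, N.Normal ∧ N.FiniteIndex ∧ N.index ≤ ((n + 1) * (E.card + 1) + 1) ^ c ∧
        ∀ x ∈ E, x ∉ N := by
  classical
  obtain ⟨r, j, hj⟩ := exists_indep hinj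
    (S.biUnion fun s => (Finset.univ : Finset (Fin d × Fin d)).biUnion fun ab =>
      {(φ s : Matrix (Fin d) (Fin d) F) ab.1 ab.2, (φ s⁻¹ : Matrix (Fin d) (Fin d) F) ab.1 ab.2})
  obtain ⟨m, ψ, hψ⟩ := exists_restrict S hS φ j (by
    intro s hs' a b
    refine ⟨hj _ ?_, hj _ ?_⟩
    · exact Finset.mem_biUnion.2 ⟨s, hs', Finset.mem_biUnion.2 ⟨(a, b), Finset.mem_univ _,
        Finset.mem_insert_self _ _⟩⟩
    · exact Finset.mem_biUnion.2 ⟨s, hs', Finset.mem_biUnion.2 ⟨(a, b), Finset.mem_univ _,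
        Finset.mem_insert_of_mem (Finset.mem_singleton_self _)⟩⟩)
  obtain ⟨Z⟩ := hs r
  obtain ⟨c, hc⟩ := sep_sized Z S hS ψ
  exact ⟨c, fun n E hE => hc n E fun x hx => ⟨(hE x hx).1, fun h => (hE x hx).2 ((hψ x).1 h)⟩⟩

/-- **One linear representation.** PROOF. Let `p` be the characteristic of `F` (`CharP.exists`,
`CharP.char_is_prime_or_zero`), `R₁ = ℤ` if `p = 0` (`algebraMap ℤ F` injective by `CharZero`),
`R₁ = ZMod p` otherwise (`ZMod.algebra`; injective since `ZMod p` is a field). Apply `exists_indep` to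
the finite set of the entries of `φ s`, `φ s⁻¹` (`s ∈ S`), `exists_restrict`, and `sep_sized` with
`sized_int r` / `sized_zmod p r`; `R = MvPolynomial (Fin r) R₁`. -/
theorem sep_one {Γ : Type*} [Group Γ] (S : Finset Γ)
    (hS : Subgroup.closure (S : Set Γ) = ⊤) {F : Type*} [Field F] {d : ℕ}
    (φ : Γ →* Matrix.GeneralLinearGroup (Fin d) F) :
    ∃ c : ℕ, ∀ (n : ℕ) (E : Finset Γ), (∀ x ∈ E, wordLength S x ≤ n ∧ φ x ≠ 1) →
      ∃ N : Subgroup Γ, N.Normal ∧ N.FiniteIndex ∧ N.index ≤ ((n + 1) * (E.card + 1) + 1) ^ c ∧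
        ∀ x ∈ E, x ∉ N := by
  obtain ⟨p, hp⟩ := CharP.exists F
  rcases CharP.char_is_prime_or_zero F p with h | h
  · haveI : Fact p.Prime := ⟨h⟩
    letI : Algebra (ZMod p) F := ZMod.algebra F p
    exact sep_core S hS φ (algebraMap (ZMod p) F).injective (fun r => sized_zmod p r)
  · subst h
    haveI : CharZero F := CharP.charP_to_charZero F
    exact sep_core S hS φ (algebraMap ℤ F).injective_int (fun r => sized_int r)

/-- **Finitely many linear representations.** PROOF. `E = ⋃ E_i`, `E_i = {x ∈ E | φ i x ≠ 1}`,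
`N = ⨅ i, N_i` (`Subgroup.index_iInf_le`, `Subgroup.finiteIndex_iInf`), `c = ∑ i, c_i`; the bound is
monotone in `|E|`. -/
theorem sep_family {Γ : Type*} [Group Γ] (S : Finset Γ)
    (hS : Subgroup.closure (S : Set Γ) = ⊤) {ι : Type*} [Finite ι] {F : ι → Type*}
    [∀ i, Field (F i)] {d : ι → ℕ}
    (φ : ∀ i, Γ →* Matrix.GeneralLinearGroup (Fin (d i)) (F i)) :
    ∃ c : ℕ, ∀ (n : ℕ) (E : Finset Γ), (∀ x ∈ E, wordLength S x ≤ n ∧ ∃ i, φ i x ≠ 1) →
      ∃ N : Subgroup Γ, N.Normal ∧ N.FiniteIndex ∧ N.index ≤ ((n + 1) * (E.card + 1) + 1) ^ c ∧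
        ∀ x ∈ E, x ∉ N := by
  classical
  haveI := Fintype.ofFinite ι
  choose c hc using fun i => sep_one S hS (φ i)
  refine ⟨∑ i, c i, fun n E hE => ?_⟩
  choose N hN1 hN2 hN3 hN4 using fun i => hc i n (E.filter fun x => φ i x ≠ 1)
    (fun x hx => ⟨(hE x (Finset.mem_filter.1 hx).1).1, (Finset.mem_filter.1 hx).2⟩)
  refine ⟨⨅ i, N i, Subgroup.normal_iInf_normal hN1, Subgroup.finiteIndex_iInf hN2, ?_, ?_⟩
  · refine (Subgroup.index_iInf_le N).trans ?_
    rw [← Finset.prod_pow_eq_pow_sum]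
    refine Finset.prod_le_prod' fun i _ => (hN3 i).trans (Nat.pow_le_pow_left ?_ _)
    have h1 : (E.filter fun x => φ i x ≠ 1).card ≤ E.card := Finset.card_filter_le _ _
    have h2 := Nat.mul_le_mul_left (n + 1) (Nat.add_le_add_right h1 1)
    omega
  · intro x hx hxN
    obtain ⟨i, hi⟩ := (hE x hx).2
    exact hN4 i x (Finset.mem_filter.2 ⟨hx, hi⟩) (Subgroup.mem_iInf.1 hxN i)

end Pool.Agent.H79RDL
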