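import Pool.Agent.H79RDL.Base

/-!
# RDL-Trace: the trace off the subgroup of elements with polynomially growing classes
-/

namespace Pool.Agent.H79RDL

open Pool.Agent.helper91.RDR Pool.Agent.helper72.RDC
open scoped InnerProductSpace Pointwise
open Filter Topology

variable {G : Type*} [Group G] {L : G → ℕ} {V : Type*} [NormedAddCommGroup V]
  [InnerProductSpace ℂ V] [CompleteSpace V]

/-- `trace_le` (helper72/RDC/Avg.lean) with its hypothesis needed only for the finite set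
`f.support.erase 1`. PROOF: the same proof verbatim (there `hS` is applied only to
`F = f.support.erase 1` and to `k = k0 * 2 ^ F.card`). -/
theorem trace_le_on [Nontrivial V] (hL : IsLength L) (π : G →* unitary (V →L[ℂ] V))
    (hπ : RepRD L π) (f : G →₀ ℂ)
    (hS : ∀ k : ℕ, ∃ c : ℕ, ∀ n0 : ℕ, ∃ n : ℕ, n0 ≤ n ∧
      ∀ x ∈ f.support, x ≠ 1 → ((n ^ k : ℕ) : ℕ∞) ≤ ConjSize L x (c * n)) :
    ‖f 1‖ ≤ ‖piOp π f‖ := by
  classical
  show ‖f 1‖ ≤ ‖f.sum fun g c => c • (π g : V →L[ℂ] V)‖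
  obtain ⟨s, hs, C, h⟩ := hπ
  have hC := RepRD.nonneg h
  obtain ⟨F, hF⟩ : ∃ F, F = f.support.erase 1 := ⟨_, rfl⟩
  rcases F.eq_empty_or_nonempty with hF0 | hF0
  · have h1 := trace_le_sep hL π hs hC h f (A := {1}) (Finset.singleton_nonempty 1) (m := 0)
      (r := 0) (by simp [hL.one]) (by rw [← hF, hF0]; simp) (by rw [← hF, hF0]; simp)
    rw [← hF, hF0, Finset.sum_empty, zero_mul, add_zero] at h1
    exact h1
  obtain ⟨r, hr⟩ : ∃ r, ∀ x ∈ f.support.erase 1, L x ≤ r :=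
    ⟨(f.support.erase 1).sup L, fun x hx => Finset.le_sup hx⟩
  obtain ⟨K1, hK1⟩ : ∃ K1, K1 = ∑ x ∈ f.support.erase 1, ‖f x‖ := ⟨_, rfl⟩
  have hK10 : 0 ≤ K1 := by rw [hK1]; exact Finset.sum_nonneg fun _ _ => norm_nonneg _
  obtain ⟨k0, hk0⟩ := exists_nat_ge (s + 1)
  obtain ⟨q, hS⟩ := hS (k0 * 2 ^ F.card)
  obtain ⟨ρ, hρ⟩ : ∃ ρ : ℕ, ρ = rho F.card * q := ⟨_, rfl⟩
  obtain ⟨D, hD⟩ : ∃ D : ℝ, D = 2 * C * (1 + 2 * (ρ : ℝ) + r) ^ s := ⟨_, rfl⟩
  have hD0 : 0 ≤ D := by rw [hD]; positivity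
  apply le_of_forall_pos_le_add
  intro ε hε
  obtain ⟨N, hN⟩ := exists_nat_ge (K1 ^ 2 * D / ε ^ 2)
  obtain ⟨n, hn, hn2⟩ := hS (max N 2)
  have hn2' : 2 ≤ n := le_trans (le_max_right N 2) hn
  have hnN : N ≤ n := le_trans (le_max_left N 2) hn
  have hnr : (2 : ℝ) ≤ n := by exact_mod_cast hn2'
  have hk1 : 1 ≤ k0 := by
    have : (1 : ℝ) ≤ k0 := by linarith
    exact_mod_cast this
  have hpow : 2 ≤ n ^ k0 := le_trans hn2' (by
    calc n = n ^ 1 := (pow_one n).symm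
      _ ≤ n ^ k0 := Nat.pow_le_pow_right (by omega) hk1)
  have hsep : ∀ x ∈ F, (cc F.card (n ^ k0 - 1) : ℕ∞) < ConjSize L x (q * n) := by
    intro x hx
    have hx' : x ≠ 1 ∧ x ∈ f.support := by
      rw [hF] at hx
      exact Finset.mem_erase.1 hx
    refine lt_of_lt_of_le ?_ (hn2 x hx'.2 hx'.1)
    have h1 := cc_lt F.card (n ^ k0 - 1)
    rw [Nat.sub_add_cancel (by omega), ← pow_mul] at h1
    exact_mod_cast h1
  obtain ⟨A, hA1, hA2, hA3⟩ := exists_sep hL hF0 hsep _ le_rfl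
  rw [← mul_assoc, ← hρ] at hA2
  have hAne : A.Nonempty := by
    rw [← Finset.card_pos, hA1]
    omega
  rw [hF] at hA3
  have h1 := trace_le_sep hL π hs hC h f hAne hA2 hr hA3
  rw [← hK1] at h1
  refine h1.trans (add_le_add_right ?_ _)
  -- the error
  have hcard : (n : ℝ) ^ k0 / 2 ≤ (A.card : ℝ) := by
    rw [hA1, Nat.cast_sub (by omega)]
    push_cast
    have : (2 : ℝ) ≤ (n : ℝ) ^ k0 := by exact_mod_cast hpow
    linarith
  have hn0 : (0 : ℝ) < n := by linarith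
  have hb : (1 + ((2 * (ρ * n) + r : ℕ) : ℝ)) ^ s ≤
      (1 + 2 * (ρ : ℝ) + r) ^ s * (n : ℝ) ^ s := by
    rw [← Real.mul_rpow (by positivity) hn0.le]
    apply Real.rpow_le_rpow (by positivity) _ hs.le
    push_cast
    have h2 : (r : ℝ) ≤ r * n := by
      have : (0 : ℝ) ≤ r := Nat.cast_nonneg r
      nlinarith
    nlinarith
  have herr : C * (1 + ((2 * (ρ * n) + r : ℕ) : ℝ)) ^ s / A.card ≤ D / n := by
    have hA0 : (0 : ℝ) < A.card := by exact_mod_cast hAne.card_pos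
    rw [div_le_div_iff₀ hA0 hn0]
    have h3 : (n : ℝ) ^ s * n ≤ (n : ℝ) ^ k0 := by
      rw [← Real.rpow_natCast (n : ℝ) k0]
      calc (n : ℝ) ^ s * n = (n : ℝ) ^ (s + 1) := by
            rw [Real.rpow_add hn0, Real.rpow_one]
        _ ≤ _ := Real.rpow_le_rpow_of_exponent_le (by linarith) hk0
    calc C * (1 + ((2 * (ρ * n) + r : ℕ) : ℝ)) ^ s * n
        ≤ C * ((1 + 2 * (ρ : ℝ) + r) ^ s * (n : ℝ) ^ s) * n := by gcongr
      _ = C * (1 + 2 * (ρ : ℝ) + r) ^ s * ((n : ℝ) ^ s * n) := by ring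
      _ ≤ C * (1 + 2 * (ρ : ℝ) + r) ^ s * (n : ℝ) ^ k0 := by gcongr
      _ = D * ((n : ℝ) ^ k0 / 2) := by rw [hD]; ring
      _ ≤ D * A.card := by gcongr
  have h4 : K1 * Real.sqrt (C * (1 + ((2 * (ρ * n) + r : ℕ) : ℝ)) ^ s / A.card) ≤
      K1 * Real.sqrt (D / n) := by
    gcongr
  refine h4.trans ?_
  have h5 : K1 * Real.sqrt (D / n) = Real.sqrt (K1 ^ 2 * (D / n)) := by
    rw [Real.sqrt_mul (by positivity), Real.sqrt_sq hK10]
  rw [h5]
  rw [Real.sqrt_le_left hε.le]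
  have h6 : K1 ^ 2 * D / ε ^ 2 ≤ n := hN.trans (by exact_mod_cast hnN)
  rw [div_le_iff₀ (by positivity)] at h6
  rw [← mul_div_assoc, div_le_iff₀ hn0]
  linarith

/-- **The trace off `pcSub`.** PROOF: for `x ∉ pcSub L l` there is `C` such that for all `k` not
eventually `ConjSize L x (C n) ≤ n^k`; `l` is an ultrafilter, so eventually along `l`
`ConjSize L x (C n) > n^k`. Take the maximal `C` over the finite set `f.support.erase 1`
(`conjSize_mono`), intersect finitely many members of `l`, and use `l ≤ atTop` for `n0 ≤ n`. -/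
theorem trace_le_off [Nontrivial V] (hL : IsLength L) (l : Ultrafilter ℕ)
    (hl : (l : Filter ℕ) ≤ atTop) (π : G →* unitary (V →L[ℂ] V)) (hπ : RepRD L π) (f : G →₀ ℂ)
    (hf : ∀ x ∈ f.support, x ∈ pcSub L (l : Filter ℕ) → x = 1) :
    ‖f 1‖ ≤ ‖piOp π f‖ := by
  classical
  apply trace_le_on hL π hπ f
  intro k
  have h1 : ∀ x : G, ∃ C : ℕ, x ∈ f.support → x ≠ 1 →
      ∀ᶠ n in (l : Filter ℕ), ¬ ConjSize L x (C * n) ≤ ((n ^ k : ℕ) : ℕ∞) := by
    intro x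
    by_cases hx : x ∈ pcSub L (l : Filter ℕ)
    · exact ⟨0, fun hxs hx1 => absurd (hf x hxs hx) hx1⟩
    · have h2 : ¬ ∀ C : ℕ, ∃ k : ℕ, ∀ᶠ n in (l : Filter ℕ),
          ConjSize L x (C * n) ≤ ((n ^ k : ℕ) : ℕ∞) := hx
      push Not at h2
      obtain ⟨C, hC⟩ := h2
      refine ⟨C, fun _ _ => ?_⟩
      filter_upwards [hC k] with n hn
      exact not_le.2 hn
  choose C hC using h1
  refine ⟨f.support.sup C, fun n0 => ?_⟩
  have h3 : ∀ᶠ n in (l : Filter ℕ), ∀ x ∈ f.support, x ≠ 1 →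
      ((n ^ k : ℕ) : ℕ∞) ≤ ConjSize L x (f.support.sup C * n) := by
    rw [Filter.eventually_all_finset]
    intro x hx
    by_cases hx1 : x = 1
    · exact Eventually.of_forall fun n h => absurd hx1 h
    · filter_upwards [hC x hx hx1] with n hn _
      exact (not_le.1 hn).le.trans
        (conjSize_mono x (Nat.mul_le_mul_right _ (Finset.le_sup (f := C) hx)))
  obtain ⟨n, hn1, hn2⟩ := (h3.and (hl (eventually_ge_atTop n0))).exists
  exact ⟨n, hn2, hn1⟩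

end Pool.Agent.H79RDL
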