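import Pool.Agent.H79RDL.EnergyB
import Pool.Agent.H79RDL.Coset
import Pool.Agent.H79RDL.Trace
import Pool.Agent.H79RDL.Card
import Pool.Agent.H79RDL.Cent
import Pool.Agent.H79RDL.SepFam

/-!
# RDL-Main: Property RD from a representation, when the amenable radical is seen by linear groups
-/

namespace Pool.Agent.H79RDL

open Pool.Agent.helper91.RDR Pool.Agent.helper72.RDC
open Filter Topology

/-- A set all of whose finite subsets have at most `M` elements is finite. -/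
private theorem finite_of_bound {α : Type*} {Y : Set α} {M : ℕ}
    (h : ∀ X : Finset α, (∀ x ∈ X, x ∈ Y) → X.card ≤ M) : Y.Finite := by
  by_contra hcon
  obtain ⟨X, hX, hXc⟩ := Set.Infinite.exists_subset_card_eq hcon (M + 1)
  have := h X fun x hx => hX hx
  omega

/-- A polynomial is eventually smaller than a growing power. -/
private theorem poly_lt {D : ℝ} {e : ℕ} {N : ℕ → ℕ} (hN : ∀ j, j ≤ N j) :
    ∀ᶠ j : ℕ in atTop, D * (1 + (N j : ℝ)) ^ e < (1 + (N j : ℝ)) ^ (2 * j) := by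
  obtain ⟨q, hq⟩ := exists_nat_gt D
  filter_upwards [eventually_ge_atTop (max q (e + 1))] with j hj
  have h1 : q ≤ j := (le_max_left _ _).trans hj
  have h2 : e + 1 ≤ j := (le_max_right _ _).trans hj
  have h3 : (q : ℝ) ≤ N j := by exact_mod_cast h1.trans (hN j)
  have h4 : D < 1 + (N j : ℝ) := by linarith
  have h5 : (1 : ℝ) ≤ 1 + (N j : ℝ) := by
    have := (Nat.cast_nonneg (N j) : (0 : ℝ) ≤ N j)
    linarith
  calc D * (1 + (N j : ℝ)) ^ e < (1 + (N j : ℝ)) * (1 + (N j : ℝ)) ^ e := by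
        apply mul_lt_mul_of_pos_right h4
        positivity
    _ = (1 + (N j : ℝ)) ^ (e + 1) := by ring
    _ ≤ (1 + (N j : ℝ)) ^ (2 * j) := pow_le_pow_right₀ h5 (by omega)

/-- Property RD of a group with a representation with Property RD, when finitely many linear
representations are injective on amenable normal subgroups and there are enough finite quotients. -/
theorem groupRD_of_sep {G : Type*} [Group G] {L : G → ℕ} (hL : IsLength L) {V : Type*}
    [NormedAddCommGroup V] [InnerProductSpace ℂ V] [CompleteSpace V] [Nontrivial V]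
    (π : G →* unitary (V →L[ℂ] V)) (hπ : RepRD L π) {ι : Type*} [Finite ι] {F : ι → Type*}
    [∀ i, Field (F i)] {d : ι → ℕ} (φ : ∀ i, G →* Matrix.GeneralLinearGroup (Fin (d i)) (F i))
    (hφ : ∀ N : Subgroup G, N.Normal → IsFolner N → (∀ i, ∀ g ∈ N, φ i g = 1) → N = ⊥)
    (hsep : ∃ c : ℕ, ∀ (n : ℕ) (E : Finset G), (∀ x ∈ E, L x ≤ n ∧ ∃ i, φ i x ≠ 1) →
      ∃ N : Subgroup G, N.Normal ∧ N.FiniteIndex ∧ N.index ≤ ((n + 1) * (E.card + 1) + 1) ^ c ∧
        ∀ x ∈ E, x ∉ N) : GroupRD L := by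
  classical
  by_contra hnot
  -- bad radii
  have hbad : ∀ j : ℕ, ∃ (N : ℕ) (f : G →₀ ℂ), j ≤ N ∧ (∀ g ∈ f.support, L g ≤ N) ∧
      (1 + (N : ℝ)) ^ j * sq2 f < ‖(star (lamOp f) * lamOp f) (dl G)‖ := by
    intro j
    by_contra hcon
    push Not at hcon
    apply hnot
    refine groupRD_of_energy (C := (1 + (j : ℝ)) ^ j) (k := j) hL fun n f hf => ?_
    have h1 := hcon (max n j) f (le_max_right _ _) fun g hg => (hf g hg).trans (le_max_left _ _)
    refine h1.trans ?_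
    apply mul_le_mul_of_nonneg_right _ (sq2_nonneg f)
    rw [← mul_pow]
    apply pow_le_pow_left₀ (by positivity)
    have h2' : max n j ≤ n + j := by omega
    have h2 : ((max n j : ℕ) : ℝ) ≤ (n : ℝ) + j := by exact_mod_cast h2'
    have h3 : (0 : ℝ) ≤ (j : ℝ) * n := by positivity
    linarith
  choose N f hjN hfL hbig using hbad
  -- the ultrafilter
  obtain ⟨l, hl⟩ : ∃ l : Ultrafilter ℕ, l = Ultrafilter.map N (hyperfilter ℕ) := ⟨_, rfl⟩
  have hNt : Tendsto N atTop atTop := tendsto_atTop_mono hjN tendsto_id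
  have hhyp : (hyperfilter ℕ : Filter ℕ) ≤ atTop := by
    rw [← Nat.cofinite_eq_atTop]
    exact hyperfilter_le_cofinite
  have hla : (l : Filter ℕ) ≤ atTop := by
    rw [hl]
    exact hNt.mono_left hhyp
  have hlev : ∀ {p : ℕ → Prop}, (∀ᶠ n in (l : Filter ℕ), p n) →
      ∀ᶠ j in (hyperfilter ℕ : Filter ℕ), p (N j) := by
    intro p hp
    rw [hl] at hp
    exact hp
  obtain ⟨K, hK⟩ : ∃ K, K = pcSub L (l : Filter ℕ) := ⟨_, rfl⟩
  have hKn : K.Normal := by rw [hK]; exact pcSub_normal hL hla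
  -- the kernel on `K` is trivial
  have hKφ : ∀ g ∈ K, (∀ i, φ i g = 1) → g = 1 := by
    have h1 : (K ⊓ ⨅ i, (φ i).ker) = ⊥ := by
      have hmem : ∀ g, g ∈ (⨅ i, (φ i).ker) ↔ ∀ i, φ i g = 1 := by
        intro g
        rw [Subgroup.mem_iInf]
        rfl
      apply hφ
      · refine ⟨fun g hg x => ?_⟩
        rw [Subgroup.mem_inf, hmem] at hg ⊢
        refine ⟨hKn.conj_mem g hg.1 x, fun i => ?_⟩
        rw [map_mul, map_mul, hg.2 i, mul_one, ← map_mul, mul_inv_cancel, map_one]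
      · refine folner_of_le hL hπ hla ?_
        rw [← hK]
        exact inf_le_left
      · intro i g hg
        rw [Subgroup.mem_inf, hmem] at hg
        exact hg.2 i
    intro g hg hgi
    have h2 : g ∈ (K ⊓ ⨅ i, (φ i).ker) := by
      rw [Subgroup.mem_inf, Subgroup.mem_iInf]
      exact ⟨hg, hgi⟩
    rw [h1, Subgroup.mem_bot] at h2
    exact h2
  obtain ⟨T, hTK, hT⟩ := exists_cent φ K hKn hKφ
  -- growth of `K`
  obtain ⟨s, hs, C, h⟩ := id hπ
  have hC := RepRD.nonneg h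
  have hk : ∀ t, ∃ k : ℕ, t ∈ T → ∀ᶠ n in (l : Filter ℕ),
      ConjSize L t (4 * n) ≤ ((n ^ k : ℕ) : ℕ∞) := by
    intro t
    by_cases ht : t ∈ T
    · have h1 := hTK t ht
      rw [hK] at h1
      obtain ⟨k, hk⟩ := h1 4
      exact ⟨k, fun _ => hk⟩
    · exact ⟨0, fun h => absurd h ht⟩
  choose k hk using hk
  have hall : ∀ᶠ n in (l : Filter ℕ), ∀ t ∈ T, ConjSize L t (4 * n) ≤ ((n ^ k t : ℕ) : ℕ∞) := by
    rw [Filter.eventually_all_finset]
    exact fun t ht => hk t ht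
  obtain ⟨e, he⟩ : ∃ e : ℕ, e = ∑ t ∈ T, k t := ⟨_, rfl⟩
  obtain ⟨q, hq⟩ := exists_nat_ge s
  obtain ⟨c, hc⟩ := hsep
  obtain ⟨A, hA⟩ := exists_nat_ge (C * 8 ^ q)
  -- powers
  have hpow : ∀ n m : ℕ, (1 + ((m * n : ℕ) : ℝ)) ^ s ≤ ((m : ℝ) + 1) ^ q * (1 + (n : ℝ)) ^ q := by
    intro n m
    rw [← mul_pow, ← Real.rpow_natCast]
    have h4 : (1 : ℝ) ≤ 1 + ((m * n : ℕ) : ℝ) := by
      have : (0 : ℝ) ≤ ((m * n : ℕ) : ℝ) := Nat.cast_nonneg _
      linarith
    calc (1 + ((m * n : ℕ) : ℝ)) ^ s ≤ (1 + ((m * n : ℕ) : ℝ)) ^ (q : ℝ) :=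
          Real.rpow_le_rpow_of_exponent_le h4 hq
      _ ≤ _ := by
          apply Real.rpow_le_rpow (by positivity) _ (by positivity)
          push_cast
          have h5 : (0 : ℝ) ≤ m := Nat.cast_nonneg _
          have h6 : (0 : ℝ) ≤ n := Nat.cast_nonneg _
          nlinarith
  -- the bound of `|K ∩ B (4 n)|`
  obtain ⟨A', hA'⟩ := exists_nat_ge (C * 9 ^ q)
  have hKcard : ∀ᶠ n in (l : Filter ℕ), ∀ X : Finset G, (∀ x ∈ X, x ∈ K ∧ L x ≤ 4 * n) →
      X.card ≤ A' * (1 + n) ^ (q + e) := by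
    filter_upwards [hall] with n hn X hX
    have h1 := card_centr hL π hs h K (T := T) (fun y _ hy => hT y hy) (b := fun t => n ^ k t) hn hX
    have h2 : (∏ t ∈ T, n ^ k t) = n ^ e := by
      rw [he, Finset.prod_pow_eq_pow_sum]
    rw [h2] at h1
    have h3 : (X.card : ℝ) ≤ ((A' * (1 + n) ^ (q + e) : ℕ) : ℝ) := by
      refine h1.trans ?_
      have h4 := hpow n 8
      have h5 : ((2 * (4 * n) : ℕ) : ℝ) = ((8 * n : ℕ) : ℝ) := by push_cast; ring
      rw [h5]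
      push_cast at h4 ⊢
      have h6 : (n : ℝ) ^ e ≤ (1 + (n : ℝ)) ^ e := pow_le_pow_left₀ (by positivity) (by linarith) e
      calc C * (1 + 8 * (n : ℝ)) ^ s * (n : ℝ) ^ e
          ≤ C * ((8 + 1 : ℝ) ^ q * (1 + (n : ℝ)) ^ q) * (1 + (n : ℝ)) ^ e := by gcongr
        _ = (C * 9 ^ q) * (1 + (n : ℝ)) ^ (q + e) := by rw [pow_add]; norm_num; ring
        _ ≤ (A' : ℝ) * (1 + (n : ℝ)) ^ (q + e) := by gcongr
    exact_mod_cast h3
  -- the main inequality, for a radius `n`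
  have hmain : ∀ᶠ n in (l : Filter ℕ), ∀ g : G →₀ ℂ, (∀ x ∈ g.support, L x ≤ n) →
      ‖(star (lamOp g) * lamOp g) (dl G)‖ ^ 2 ≤
        ((((4 * n + 1) * (A' * (1 + n) ^ (q + e) + 1) + 1) ^ c : ℕ) : ℝ) *
          (C * (1 + (n : ℝ)) ^ s * sq2 g) ^ 2 := by
    filter_upwards [hKcard] with n hn g hg
    have hfin : {x : G | x ∈ K ∧ L x ≤ 4 * n}.Finite := finite_of_bound hn
    obtain ⟨E, hE⟩ : ∃ E, E = hfin.toFinset.erase 1 := ⟨_, rfl⟩
    have hEcard : E.card ≤ A' * (1 + n) ^ (q + e) := by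
      apply hn
      intro x hx
      rw [hE, Finset.mem_erase, Set.Finite.mem_toFinset] at hx
      exact hx.2
    obtain ⟨M, hMn, hMi, hMc, hME⟩ := hc (4 * n) E (by
      intro x hx
      rw [hE, Finset.mem_erase, Set.Finite.mem_toFinset] at hx
      refine ⟨hx.2.2, ?_⟩
      · by_contra hcon
        push Not at hcon
        exact hx.1 (hKφ x hx.2.1 hcon))
    obtain ⟨F', hF1, hF2, hF3⟩ := coset_bound hL π hs hC h M hMn hMi g hg
    have h1 : ‖F' 1‖ ≤ ‖piOp π F'‖ := by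
      refine trace_le_off hL l hla π hπ F' ?_
      intro x hx hxK
      by_contra hx1
      refine hME x ?_ (hF1 x hx).1
      rw [hE, Finset.mem_erase, Set.Finite.mem_toFinset]
      rw [← hK] at hxK
      exact ⟨hx1, hxK, (hF1 x hx).2⟩
    rw [hF2]
    refine h1.trans (hF3.trans ?_)
    apply mul_le_mul_of_nonneg_right _ (by positivity)
    exact_mod_cast hMc.trans (Nat.pow_le_pow_left (by gcongr) c)
  -- contradiction
  obtain ⟨D, hD⟩ : ∃ D : ℝ, D = (4 * (A' + 1) + 1 : ℝ) ^ c * C ^ 2 := ⟨_, rfl⟩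
  have hlt := (poly_lt (D := D) (e := (q + e + 1) * c + 2 * q) hjN).filter_mono hhyp
  obtain ⟨j, hj1, hj2⟩ := ((hlev hmain).and hlt).exists
  have h1 := hj1 (f j) (hfL j)
  have h2 := hbig j
  obtain ⟨n, hn⟩ : ∃ n, n = N j := ⟨_, rfl⟩
  rw [← hn] at h1 h2 hj2
  have hsq := sq2_nonneg (f j)
  have hn0 : (0 : ℝ) ≤ n := Nat.cast_nonneg _
  have h3 : ((1 + (n : ℝ)) ^ j * sq2 (f j)) ^ 2 < ‖(star (lamOp (f j)) * lamOp (f j)) (dl G)‖ ^ 2 :=
    pow_lt_pow_left₀ h2 (by positivity) two_ne_zero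
  have h4 : ((((4 * n + 1) * (A' * (1 + n) ^ (q + e) + 1) + 1) ^ c : ℕ) : ℝ) ≤
      (4 * (A' + 1) + 1 : ℝ) ^ c * (1 + (n : ℝ)) ^ ((q + e + 1) * c) := by
    rw [pow_mul, ← mul_pow]
    push_cast
    apply pow_le_pow_left₀ (by positivity)
    have h5 : (1 : ℝ) ≤ (1 + (n : ℝ)) ^ (q + e) := one_le_pow₀ (by linarith)
    have h6 : (1 : ℝ) ≤ (1 + (n : ℝ)) ^ (q + e + 1) := one_le_pow₀ (by linarith)
    have h7 : (A' : ℝ) * (1 + (n : ℝ)) ^ (q + e) + 1 ≤ (A' + 1) * (1 + (n : ℝ)) ^ (q + e) := by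
      linarith
    have h8 : (4 * (n : ℝ) + 1) ≤ 4 * (1 + (n : ℝ)) := by linarith
    calc (4 * (n : ℝ) + 1) * (A' * (1 + (n : ℝ)) ^ (q + e) + 1) + 1
        ≤ (4 * (1 + (n : ℝ))) * ((A' + 1) * (1 + (n : ℝ)) ^ (q + e)) + (1 + (n : ℝ)) ^ (q + e + 1) := by
          apply add_le_add _ h6
          apply mul_le_mul h8 h7 (by positivity) (by positivity)
      _ = (4 * (A' + 1) + 1) * (1 + (n : ℝ)) ^ (q + e + 1) := by ring
  have h5 : (C * (1 + (n : ℝ)) ^ s * sq2 (f j)) ^ 2 ≤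
      C ^ 2 * (1 + (n : ℝ)) ^ (2 * q) * sq2 (f j) ^ 2 := by
    have h6 : (1 + (n : ℝ)) ^ s ≤ (1 + (n : ℝ)) ^ q := by
      rw [← Real.rpow_natCast]
      exact Real.rpow_le_rpow_of_exponent_le (by linarith) hq
    calc (C * (1 + (n : ℝ)) ^ s * sq2 (f j)) ^ 2 ≤ (C * (1 + (n : ℝ)) ^ q * sq2 (f j)) ^ 2 := by
          gcongr
      _ = _ := by rw [mul_comm 2 q, pow_mul]; ring
  have h6 : (1 + (n : ℝ)) ^ (2 * j) * sq2 (f j) ^ 2 <
      D * (1 + (n : ℝ)) ^ ((q + e + 1) * c + 2 * q) * sq2 (f j) ^ 2 := by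
    calc (1 + (n : ℝ)) ^ (2 * j) * sq2 (f j) ^ 2 = ((1 + (n : ℝ)) ^ j * sq2 (f j)) ^ 2 := by
          rw [mul_comm 2 j, pow_mul]; ring
      _ < ‖(star (lamOp (f j)) * lamOp (f j)) (dl G)‖ ^ 2 := h3
      _ ≤ _ := h1
      _ ≤ ((4 * (A' + 1) + 1 : ℝ) ^ c * (1 + (n : ℝ)) ^ ((q + e + 1) * c)) *
          (C ^ 2 * (1 + (n : ℝ)) ^ (2 * q) * sq2 (f j) ^ 2) := by
          apply mul_le_mul h4 h5 (by positivity) (by positivity)
      _ = _ := by rw [hD, pow_add]; ring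
  have h7 : D * (1 + (n : ℝ)) ^ ((q + e + 1) * c + 2 * q) * sq2 (f j) ^ 2 ≤
      (1 + (n : ℝ)) ^ (2 * j) * sq2 (f j) ^ 2 :=
    mul_le_mul_of_nonneg_right hj2.le (by positivity)
  linarith

/-- **Main theorem**: subgroups whose amenable normal subgroups are seen by finitely many linear
representations of the whole group. -/
theorem groupRD_of_linear {Γ : Type*} [Group Γ] (S : Finset Γ)
    (hS : Subgroup.closure (S : Set Γ) = ⊤) {V : Type*} [NormedAddCommGroup V]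
    [InnerProductSpace ℂ V] [CompleteSpace V] [Nontrivial V] (π : Γ →* unitary (V →L[ℂ] V))
    (hπ : RepRD (wordLength S) π) {ι : Type*} [Finite ι] {F : ι → Type*}
    [∀ i, Field (F i)] {d : ι → ℕ}
    (φ : ∀ i, Γ →* Matrix.GeneralLinearGroup (Fin (d i)) (F i)) (H : Subgroup Γ)
    (hφ : ∀ N : Subgroup H, N.Normal → IsFolner N → (∀ i, ∀ g ∈ N, φ i g = 1) → N = ⊥) :
    GroupRD fun h : H => wordLength S (h : Γ) := by
  classical
  refine groupRD_of_sep ((wordLength_isLength S hS).restrict H) _ (hπ.restrict H)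
    (fun i => (φ i).comp H.subtype) hφ ?_
  obtain ⟨c, hc⟩ := sep_family S hS φ
  refine ⟨c, fun n E hE => ?_⟩
  obtain ⟨N, h1, h2, h3, h4⟩ := hc n (E.map ⟨Subtype.val, Subtype.val_injective⟩) (by
    intro x hx
    rw [Finset.mem_map] at hx
    obtain ⟨y, hy, rfl⟩ := hx
    exact hE y hy)
  rw [Finset.card_map] at h3
  refine ⟨N.subgroupOf H, h1.subgroupOf H, inferInstance, ?_, ?_⟩
  · refine le_trans ?_ h3
    exact Nat.le_of_dvd (Nat.pos_of_ne_zero h2.index_ne_zero)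
      (Subgroup.relIndex_dvd_index_of_normal N H)
  · intro x hx hxN
    exact h4 _ (Finset.mem_map_of_mem _ hx) hxN

end Pool.Agent.H79RDL
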