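import Pool.Agent.H79RDL.EnergyB
import Pool.Agent.H79RDL.Coset2
import Pool.Agent.H79RDL.Trace
import Pool.Agent.H79RDL.Card
import Pool.Agent.H79RDL.Cent
import Pool.Agent.H79RDL.SepFam

/-!
# RDL-Main2: Property RD from a representation, when the centralizers of finite subsets of the
amenable normal subgroups are seen by linear groups
-/

namespace Pool.Agent.H79RDL

open Pool.Agent.helper91.RDR Pool.Agent.helper72.RDC
open Filter Topology

/-- A set all of whose finite subsets have at most `M` elements is finite. -/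
private theorem finite_of_bound2 {α : Type*} {Y : Set α} {M : ℕ}
    (h : ∀ X : Finset α, (∀ x ∈ X, x ∈ Y) → X.card ≤ M) : Y.Finite := by
  by_contra hcon
  obtain ⟨X, hX, hXc⟩ := Set.Infinite.exists_subset_card_eq hcon (M + 1)
  have := h X fun x hx => hX hx
  omega

/-- A polynomial is eventually smaller than a growing power. -/
private theorem poly_lt2 {D : ℝ} {e : ℕ} {N : ℕ → ℕ} (hN : ∀ j, j ≤ N j) :
    ∀ᶠ j : ℕ in atTop, D * (1 + (N j : ℝ)) ^ e < (1 + (N j : ℝ)) ^ (2 * j) := by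
  obtain ⟨q, hq⟩ := exists_nat_gt D
  filter_upwards [eventually_ge_atTop (max q (e + 1))] with j hj
  have h1 : q ≤ j := (le_max_left _ _).trans hj
  have h2 : e + 1 ≤ j := (le_max_right _ _).trans hj
  have h3 : (q : ℝ) ≤ N j := by exact_mod_cast h1.trans (hN j)
  have h4 : D < 1 + (N j : ℝ) := by linarith
  have h5 : (1 : ℝ) ≤ 1 + (N j : ℝ) := by
    have := (Nat.cast_nonneg (N j) : (0 : ℝ) ≤ N j)
    linarith
  calc D * (1 + (N j : ℝ)) ^ e < (1 + (N j : ℝ)) * (1 + (N j : ℝ)) ^ e := by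
        apply mul_lt_mul_of_pos_right h4
        positivity
    _ = (1 + (N j : ℝ)) ^ (e + 1) := by ring
    _ ≤ (1 + (N j : ℝ)) ^ (2 * j) := pow_le_pow_right₀ h5 (by omega)

section cosets

variable {G : Type*} [Group G] {L : G → ℕ}

/-- The cosets `g N` with `L g ≤ n`. -/
def Cos (L : G → ℕ) (N : Subgroup G) (n : ℕ) : Set (G ⧸ N) :=
  {c | ∃ g : G, L g ≤ n ∧ (g : G ⧸ N) = c}

theorem cos_inf (A B : Subgroup G) (n : ℕ) :
    (Cos L (A ⊓ B) n).encard ≤ (Cos L A n).encard * (Cos L B n).encard := by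
  rw [← Set.encard_prod]
  refine Set.encard_le_encard_of_injOn
    (f := fun c => (Subgroup.quotientMapOfLE inf_le_left c, Subgroup.quotientMapOfLE inf_le_right c))
    ?_ ?_
  · rintro c ⟨g, hg, rfl⟩
    exact ⟨⟨g, hg, rfl⟩, ⟨g, hg, rfl⟩⟩
  · intro c _ c' _ h
    obtain ⟨x, rfl⟩ := QuotientGroup.mk_surjective c
    obtain ⟨y, rfl⟩ := QuotientGroup.mk_surjective c'
    have h1 : ((x : G ⧸ A)) = (y : G ⧸ A) := congrArg Prod.fst h
    have h2 : ((x : G ⧸ B)) = (y : G ⧸ B) := congrArg Prod.snd h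
    rw [QuotientGroup.eq] at h1 h2 ⊢
    exact Subgroup.mem_inf.2 ⟨h1, h2⟩

theorem cos_index (M : Subgroup G) [M.FiniteIndex] (n : ℕ) :
    (Cos L M n).encard ≤ (M.index : ℕ∞) := by
  refine (Set.encard_le_encard (Set.subset_univ _)).trans ?_
  have : Finite (G ⧸ M) := Subgroup.finite_quotient_of_finiteIndex
  rw [Set.encard_univ, ENat.card_eq_coe_natCard]
  rfl

theorem cos_centr (t : G) (n : ℕ) :
    (Cos L (Subgroup.centralizer {t}) n).encard ≤ ConjSize L t n := by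
  have key : ∀ x y : G, ((x : G ⧸ Subgroup.centralizer {t}) = y) ↔ x * t * x⁻¹ = y * t * y⁻¹ := by
    intro x y
    rw [QuotientGroup.eq, Subgroup.mem_centralizer_iff]
    constructor
    · intro h
      have h1 := h t rfl
      calc x * t * x⁻¹ = x * (t * (x⁻¹ * y)) * y⁻¹ := by group
        _ = x * (x⁻¹ * y * t) * y⁻¹ := by rw [h1]
        _ = _ := by group
    · rintro h s rfl
      calc s * (x⁻¹ * y) = x⁻¹ * (x * s * x⁻¹) * y := by group
        _ = x⁻¹ * (y * s * y⁻¹) * y := by rw [h]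
        _ = _ := by group
  refine Set.encard_le_encard_of_injOn (f := fun c => c.out * t * c.out⁻¹) ?_ ?_
  · rintro c ⟨g, hg, rfl⟩
    refine ⟨g, hg, ?_⟩
    rw [← key]
    exact QuotientGroup.out_eq' _
  · intro c _ c' _ h
    have h1 := (key _ _).2 h
    rw [QuotientGroup.out_eq', QuotientGroup.out_eq'] at h1
    exact h1

theorem cos_centrs (T : Finset G) {n : ℕ} {b : G → ℕ}
    (hb : ∀ t ∈ T, ConjSize L t n ≤ ((b t : ℕ) : ℕ∞)) :
    (Cos L (Subgroup.centralizer (T : Set G)) n).encard ≤ ((∏ t ∈ T, b t : ℕ) : ℕ∞) := by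
  classical
  induction T using Finset.induction_on with
  | empty =>
    rw [Finset.prod_empty]
    have h1 : (Subgroup.centralizer ((∅ : Finset G) : Set G)) = ⊤ := by
      rw [eq_top_iff]
      intro x _
      rw [Subgroup.mem_centralizer_iff]
      intro h hh
      simp at hh
    rw [h1]
    refine (cos_index (⊤ : Subgroup G) n).trans ?_
    rw [Subgroup.index_top]
  | insert t T ht ih =>
    rw [Finset.prod_insert ht]
    have h1 : (Subgroup.centralizer ((insert t T : Finset G) : Set G)) =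
        Subgroup.centralizer {t} ⊓ Subgroup.centralizer (T : Set G) := by
      ext x
      rw [Subgroup.mem_inf, Subgroup.mem_centralizer_iff, Subgroup.mem_centralizer_iff,
        Subgroup.mem_centralizer_iff]
      simp
    rw [h1]
    refine (cos_inf _ _ n).trans ?_
    push_cast
    refine mul_le_mul' ((cos_centr t n).trans (hb t (Finset.mem_insert_self _ _))) ?_
    have := ih fun s hs => hb s (Finset.mem_insert_of_mem hs)
    push_cast at this
    exact this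

end cosets

/-- Property RD of a group with a representation with Property RD, when every amenable normal
subgroup `K` has a finite subset whose centralizer in `K` is abelian and seen by finitely many
linear representations, and there are enough finite quotients. -/
theorem groupRD_of_sep2 {G : Type*} [Group G] {L : G → ℕ} (hL : IsLength L) {V : Type*}
    [NormedAddCommGroup V] [InnerProductSpace ℂ V] [CompleteSpace V] [Nontrivial V]
    (π : G →* unitary (V →L[ℂ] V)) (hπ : RepRD L π) (P : G → Prop)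
    (hK : ∀ K : Subgroup G, K.Normal → IsFolner K → ∃ T : Finset G, (∀ t ∈ T, t ∈ K) ∧
      ∀ x ∈ K, (∀ t ∈ T, x * t = t * x) →
        (x ≠ 1 → P x) ∧ ∀ y ∈ K, (∀ t ∈ T, y * t = t * y) → x * y = y * x)
    (hsep : ∃ c : ℕ, ∀ (n : ℕ) (E : Finset G), (∀ x ∈ E, L x ≤ n ∧ P x) →
      ∃ N : Subgroup G, N.Normal ∧ N.FiniteIndex ∧ N.index ≤ ((n + 1) * (E.card + 1) + 1) ^ c ∧
        ∀ x ∈ E, x ∉ N) : GroupRD L := by
  classical
  by_contra hnot
  -- bad radii
  have hbad : ∀ j : ℕ, ∃ (N : ℕ) (f : G →₀ ℂ), j ≤ N ∧ (∀ g ∈ f.support, L g ≤ N) ∧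
      (1 + (N : ℝ)) ^ j * sq2 f < ‖(star (lamOp f) * lamOp f) (dl G)‖ := by
    intro j
    by_contra hcon
    push Not at hcon
    apply hnot
    refine groupRD_of_energy (C := (1 + (j : ℝ)) ^ j) (k := j) hL fun n f hf => ?_
    have h1 := hcon (max n j) f (le_max_right _ _) fun g hg => (hf g hg).trans (le_max_left _ _)
    refine h1.trans ?_
    apply mul_le_mul_of_nonneg_right _ (sq2_nonneg f)
    rw [← mul_pow]
    apply pow_le_pow_left₀ (by positivity)
    have h2' : max n j ≤ n + j := by omega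
    have h2 : ((max n j : ℕ) : ℝ) ≤ (n : ℝ) + j := by exact_mod_cast h2'
    have h3 : (0 : ℝ) ≤ (j : ℝ) * n := by positivity
    linarith
  choose N f hjN hfL hbig using hbad
  -- the ultrafilter
  obtain ⟨l, hl⟩ : ∃ l : Ultrafilter ℕ, l = Ultrafilter.map N (hyperfilter ℕ) := ⟨_, rfl⟩
  have hNt : Tendsto N atTop atTop := tendsto_atTop_mono hjN tendsto_id
  have hhyp : (hyperfilter ℕ : Filter ℕ) ≤ atTop := by
    rw [← Nat.cofinite_eq_atTop]
    exact hyperfilter_le_cofinite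
  have hla : (l : Filter ℕ) ≤ atTop := by
    rw [hl]
    exact hNt.mono_left hhyp
  have hlev : ∀ {p : ℕ → Prop}, (∀ᶠ n in (l : Filter ℕ), p n) →
      ∀ᶠ j in (hyperfilter ℕ : Filter ℕ), p (N j) := by
    intro p hp
    rw [hl] at hp
    exact hp
  obtain ⟨K, hKdef⟩ : ∃ K, K = pcSub L (l : Filter ℕ) := ⟨_, rfl⟩
  have hKn : K.Normal := by rw [hKdef]; exact pcSub_normal hL hla
  obtain ⟨T, hTK, hT⟩ := hK K hKn (by rw [hKdef]; exact pcSub_folner hL hπ hla)
  -- growth of the centralizer of `T` in `K`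
  obtain ⟨s, hs, C, h⟩ := id hπ
  have hC := RepRD.nonneg h
  have hk : ∀ t, ∃ k : ℕ, t ∈ T → ∀ᶠ n in (l : Filter ℕ),
      ConjSize L t (2 * n) ≤ ((n ^ k : ℕ) : ℕ∞) := by
    intro t
    by_cases ht : t ∈ T
    · have h1 := hTK t ht
      rw [hKdef] at h1
      obtain ⟨k, hk⟩ := h1 2
      exact ⟨k, fun _ => hk⟩
    · exact ⟨0, fun h => absurd h ht⟩
  choose k hk using hk
  have hall : ∀ᶠ n in (l : Filter ℕ), ∀ t ∈ T, ConjSize L t (2 * n) ≤ ((n ^ k t : ℕ) : ℕ∞) := by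
    rw [Filter.eventually_all_finset]
    exact fun t ht => hk t ht
  obtain ⟨e, he⟩ : ∃ e : ℕ, e = ∑ t ∈ T, k t := ⟨_, rfl⟩
  obtain ⟨q, hq⟩ := exists_nat_ge s
  obtain ⟨c, hc⟩ := hsep
  obtain ⟨Z, hZ⟩ : ∃ Z : Subgroup G, Z = Subgroup.centralizer (T : Set G) := ⟨_, rfl⟩
  have hZm : ∀ x, x ∈ Z → ∀ t ∈ T, x * t = t * x := by
    intro x hx t ht
    rw [hZ, Subgroup.mem_centralizer_iff] at hx
    exact (hx t ht).symm
  -- the bound of `|K ∩ Z ∩ B (4 n)|`
  obtain ⟨A', hA'⟩ := exists_nat_ge (C * 5 ^ q)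
  have hKcard : ∀ n : ℕ, ∀ X : Finset G, (∀ x ∈ X, x ∈ K ⊓ Z ∧ L x ≤ 4 * n) →
      X.card ≤ A' * (1 + n) ^ q := by
    intro n X hX
    have h1 := abelian_card π hs h (K ⊓ Z) (fun x hx y hy => by
      rw [Subgroup.mem_inf] at hx hy
      exact (hT x hx.1 (hZm x hx.2)).2 y hy.1 (hZm y hy.2)) (4 * n) X hX
    have h3 : (X.card : ℝ) ≤ ((A' * (1 + n) ^ q : ℕ) : ℝ) := by
      refine h1.trans ?_
      have h5 : (0 : ℝ) ≤ n := Nat.cast_nonneg _
      have h4 : (1 + ((4 * n : ℕ) : ℝ)) ^ s ≤ 5 ^ q * (1 + (n : ℝ)) ^ q := by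
        rw [← mul_pow, ← Real.rpow_natCast]
        calc (1 + ((4 * n : ℕ) : ℝ)) ^ s ≤ (1 + ((4 * n : ℕ) : ℝ)) ^ (q : ℝ) := by
              apply Real.rpow_le_rpow_of_exponent_le _ hq
              push_cast
              linarith
          _ ≤ _ := by
              apply Real.rpow_le_rpow (by positivity) _ (by positivity)
              push_cast
              linarith
      push_cast at h4 ⊢
      calc C * (1 + 4 * (n : ℝ)) ^ s ≤ C * (5 ^ q * (1 + (n : ℝ)) ^ q) := by gcongr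
        _ = (C * 5 ^ q) * (1 + (n : ℝ)) ^ q := by ring
        _ ≤ (A' : ℝ) * (1 + (n : ℝ)) ^ q := by gcongr
    exact_mod_cast h3
  -- the main inequality, for a radius `n`
  have hmain : ∀ᶠ n in (l : Filter ℕ), ∀ g : G →₀ ℂ, (∀ x ∈ g.support, L x ≤ n) →
      ‖(star (lamOp g) * lamOp g) (dl G)‖ ^ 2 ≤
        ((n ^ e * ((4 * n + 1) * (A' * (1 + n) ^ q + 1) + 1) ^ c : ℕ) : ℝ) *
          (C * (1 + (n : ℝ)) ^ s * sq2 g) ^ 2 := by
    filter_upwards [hall] with n hn g hg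
    have hfin : {x : G | x ∈ K ⊓ Z ∧ L x ≤ 4 * n}.Finite := finite_of_bound2 (hKcard n)
    obtain ⟨E, hE⟩ : ∃ E, E = hfin.toFinset.erase 1 := ⟨_, rfl⟩
    have hEcard : E.card ≤ A' * (1 + n) ^ q := by
      apply hKcard n
      intro x hx
      rw [hE, Finset.mem_erase, Set.Finite.mem_toFinset] at hx
      exact hx.2
    obtain ⟨M, hMn, hMi, hMc, hME⟩ := hc (4 * n) E (by
      intro x hx
      rw [hE, Finset.mem_erase, Set.Finite.mem_toFinset] at hx
      obtain ⟨hx1, hx2, hx3⟩ := hx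
      rw [Subgroup.mem_inf] at hx2
      exact ⟨hx3, (hT x hx2.1 (hZm x hx2.2)).1 hx1⟩)
    have hJ : {c : G ⧸ (Z ⊓ M) | ∃ g : G, L g ≤ 2 * n ∧ (g : G ⧸ (Z ⊓ M)) = c}.encard ≤
        ((n ^ e * ((4 * n + 1) * (A' * (1 + n) ^ q + 1) + 1) ^ c : ℕ) : ℕ∞) := by
      refine (cos_inf (L := L) Z M (2 * n)).trans ?_
      rw [Nat.cast_mul]
      refine mul_le_mul' ?_ ?_
      · rw [hZ]
        refine (cos_centrs T (b := fun t => n ^ k t) hn).trans ?_
        rw [Finset.prod_pow_eq_pow_sum, ← he]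
      · refine (cos_index M (2 * n)).trans ?_
        exact_mod_cast hMc.trans (Nat.pow_le_pow_left (by gcongr) c)
    obtain ⟨F', hF1, hF2, hF3⟩ := coset_bound2 hL π hs hC h (Z ⊓ M) hJ g hg
    have h1 : ‖F' 1‖ ≤ ‖piOp π F'‖ := by
      refine trace_le_off hL l hla π hπ F' ?_
      intro x hx hxK
      by_contra hx1
      obtain ⟨hx2, hx3⟩ := hF1 x hx
      rw [Subgroup.mem_inf] at hx2
      refine hME x ?_ hx2.2
      rw [hE, Finset.mem_erase, Set.Finite.mem_toFinset]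
      rw [← hKdef] at hxK
      exact ⟨hx1, Subgroup.mem_inf.2 ⟨hxK, hx2.1⟩, hx3⟩
    rw [hF2]
    exact h1.trans hF3
  -- contradiction
  obtain ⟨D, hD⟩ : ∃ D : ℝ, D = (4 * (A' + 1) + 1 : ℝ) ^ c * C ^ 2 := ⟨_, rfl⟩
  have hlt := (poly_lt2 (D := D) (e := e + (q + 1) * c + 2 * q) hjN).filter_mono hhyp
  obtain ⟨j, hj1, hj2⟩ := ((hlev hmain).and hlt).exists
  have h1 := hj1 (f j) (hfL j)
  have h2 := hbig j
  obtain ⟨n, hn⟩ : ∃ n, n = N j := ⟨_, rfl⟩
  rw [← hn] at h1 h2 hj2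
  have hsq := sq2_nonneg (f j)
  have hn0 : (0 : ℝ) ≤ n := Nat.cast_nonneg _
  have h3 : ((1 + (n : ℝ)) ^ j * sq2 (f j)) ^ 2 < ‖(star (lamOp (f j)) * lamOp (f j)) (dl G)‖ ^ 2 :=
    pow_lt_pow_left₀ h2 (by positivity) two_ne_zero
  have h4 : ((n ^ e * ((4 * n + 1) * (A' * (1 + n) ^ q + 1) + 1) ^ c : ℕ) : ℝ) ≤
      (1 + (n : ℝ)) ^ e * ((4 * (A' + 1) + 1 : ℝ) ^ c * (1 + (n : ℝ)) ^ ((q + 1) * c)) := by
    rw [pow_mul, ← mul_pow]
    push_cast
    apply mul_le_mul (pow_le_pow_left₀ (by positivity) (by linarith) e) _ (by positivity)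
      (by positivity)
    apply pow_le_pow_left₀ (by positivity)
    have h5 : (1 : ℝ) ≤ (1 + (n : ℝ)) ^ q := one_le_pow₀ (by linarith)
    have h6 : (1 : ℝ) ≤ (1 + (n : ℝ)) ^ (q + 1) := one_le_pow₀ (by linarith)
    have h7 : (A' : ℝ) * (1 + (n : ℝ)) ^ q + 1 ≤ (A' + 1) * (1 + (n : ℝ)) ^ q := by
      linarith
    have h8 : (4 * (n : ℝ) + 1) ≤ 4 * (1 + (n : ℝ)) := by linarith
    calc (4 * (n : ℝ) + 1) * (A' * (1 + (n : ℝ)) ^ q + 1) + 1
        ≤ (4 * (1 + (n : ℝ))) * ((A' + 1) * (1 + (n : ℝ)) ^ q) + (1 + (n : ℝ)) ^ (q + 1) := by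
          apply add_le_add _ h6
          apply mul_le_mul h8 h7 (by positivity) (by positivity)
      _ = (4 * (A' + 1) + 1) * (1 + (n : ℝ)) ^ (q + 1) := by ring
  have h5 : (C * (1 + (n : ℝ)) ^ s * sq2 (f j)) ^ 2 ≤
      C ^ 2 * (1 + (n : ℝ)) ^ (2 * q) * sq2 (f j) ^ 2 := by
    have h6 : (1 + (n : ℝ)) ^ s ≤ (1 + (n : ℝ)) ^ q := by
      rw [← Real.rpow_natCast]
      exact Real.rpow_le_rpow_of_exponent_le (by linarith) hq
    calc (C * (1 + (n : ℝ)) ^ s * sq2 (f j)) ^ 2 ≤ (C * (1 + (n : ℝ)) ^ q * sq2 (f j)) ^ 2 := by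
          gcongr
      _ = _ := by rw [mul_comm 2 q, pow_mul]; ring
  have h6 : (1 + (n : ℝ)) ^ (2 * j) * sq2 (f j) ^ 2 <
      D * (1 + (n : ℝ)) ^ (e + (q + 1) * c + 2 * q) * sq2 (f j) ^ 2 := by
    calc (1 + (n : ℝ)) ^ (2 * j) * sq2 (f j) ^ 2 = ((1 + (n : ℝ)) ^ j * sq2 (f j)) ^ 2 := by
          rw [mul_comm 2 j, pow_mul]; ring
      _ < ‖(star (lamOp (f j)) * lamOp (f j)) (dl G)‖ ^ 2 := h3
      _ ≤ _ := h1
      _ ≤ ((1 + (n : ℝ)) ^ e * ((4 * (A' + 1) + 1 : ℝ) ^ c * (1 + (n : ℝ)) ^ ((q + 1) * c))) *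
          (C ^ 2 * (1 + (n : ℝ)) ^ (2 * q) * sq2 (f j) ^ 2) := by
          apply mul_le_mul h4 h5 (by positivity) (by positivity)
      _ = _ := by rw [hD, pow_add, pow_add]; ring
  have h7 : D * (1 + (n : ℝ)) ^ (e + (q + 1) * c + 2 * q) * sq2 (f j) ^ 2 ≤
      (1 + (n : ℝ)) ^ (2 * j) * sq2 (f j) ^ 2 :=
    mul_le_mul_of_nonneg_right hj2.le (by positivity)
  linarith

/-- **Main theorem, second form.** -/
theorem groupRD_of_linear2 {Γ : Type*} [Group Γ] (S : Finset Γ)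
    (hS : Subgroup.closure (S : Set Γ) = ⊤) {V : Type*} [NormedAddCommGroup V]
    [InnerProductSpace ℂ V] [CompleteSpace V] [Nontrivial V] (π : Γ →* unitary (V →L[ℂ] V))
    (hπ : RepRD (wordLength S) π) {ι : Type*} [Finite ι] {F : ι → Type*}
    [∀ i, Field (F i)] {d : ι → ℕ}
    (φ : ∀ i, Γ →* Matrix.GeneralLinearGroup (Fin (d i)) (F i)) (H : Subgroup Γ)
    (hK : ∀ K : Subgroup H, K.Normal → IsFolner K → (∀ g ∈ K, (∀ i, φ i g = 1) → g = 1) ∨
      ∃ T : Finset H, (∀ t ∈ T, t ∈ K) ∧ ∀ x ∈ K, (∀ t ∈ T, x * t = t * x) →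
        ((∀ i, φ i x = 1) → x = 1) ∧ ∀ y ∈ K, (∀ t ∈ T, y * t = t * y) → x * y = y * x) :
    GroupRD fun h : H => wordLength S (h : Γ) := by
  classical
  refine groupRD_of_sep2 ((wordLength_isLength S hS).restrict H) _ (hπ.restrict H)
    (fun x => ∃ i, φ i x ≠ 1) ?_ ?_
  · intro K hKn hKF
    rcases hK K hKn hKF with h1 | ⟨T, hT1, hT2⟩
    · obtain ⟨T, hT1, hT2⟩ := exists_cent (fun i => (φ i).comp H.subtype) K hKn h1
      refine ⟨T, hT1, fun x hx hxT => ⟨fun hx1 => ?_, fun y hy _ => hT2 x hxT y hy⟩⟩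
      by_contra hcon
      push Not at hcon
      exact hx1 (h1 x hx hcon)
    · refine ⟨T, hT1, fun x hx hxT => ⟨fun hx1 => ?_, (hT2 x hx hxT).2⟩⟩
      by_contra hcon
      push Not at hcon
      exact hx1 ((hT2 x hx hxT).1 hcon)
  · obtain ⟨c, hc⟩ := sep_family S hS φ
    refine ⟨c, fun n E hE => ?_⟩
    obtain ⟨N, h1, h2, h3, h4⟩ := hc n (E.map ⟨Subtype.val, Subtype.val_injective⟩) (by
      intro x hx
      rw [Finset.mem_map] at hx
      obtain ⟨y, hy, rfl⟩ := hx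
      exact hE y hy)
    rw [Finset.card_map] at h3
    refine ⟨N.subgroupOf H, h1.subgroupOf H, inferInstance, ?_, ?_⟩
    · refine le_trans ?_ h3
      exact Nat.le_of_dvd (Nat.pos_of_ne_zero h2.index_ne_zero)
        (Subgroup.relIndex_dvd_index_of_normal N H)
    · intro x hx hxN
      exact h4 _ (Finset.mem_map_of_mem _ hx) hxN

end Pool.Agent.H79RDL
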