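import Pool.Agent.H79RDL.Base

/-!
# RDL-Prime: a small prime not dividing a given number
-/

namespace Pool.Agent.H79RDL

/-- **A small prime not dividing `N`.** PROOF. Suppose every prime `p ≤ y := 8 (B + 2)^2` divides
`N ≠ 0`, `N < 2^B`. Then `2 ^ π(y) ≤ ∏_{p ≤ y} p ≤ N < 2^B` (the product of the primes `≤ y` divides
`N`), so `π(y) < B`. But `2^y ≤ (y+1) lcmUpto y ≤ (y+1) y^π(y)`
(`Chebyshev.two_pow_le_mul_lcmUpto`, `Nat.lcmUpto_eq_prod_pow_log`, or
`Chebyshev.psi_ge` and `Chebyshev.psi_le_primeCounting_mul_log`), so `2^y ≤ (y+1)^(B+1)`; as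
`y + 1 ≤ 2^(2B+6)` (say) this gives `8 (B+2)^2 ≤ (2B+6)(B+1)`, a contradiction. -/
theorem exists_small_prime {B N : ℕ} (hN : N ≠ 0) (hB : N < 2 ^ B) :
    ∃ p : ℕ, p.Prime ∧ p ≤ 8 * (B + 2) ^ 2 ∧ ¬ p ∣ N := by
  by_contra hcon
  push Not at hcon
  set y : ℕ := 8 * (B + 2) ^ 2 with hy
  have hprod : (∏ p ∈ Nat.primesLE y, p) ∣ N := by
    apply Finset.prod_primes_dvd
    · intro p hp
      exact (Nat.prime_of_mem_primesLE hp).prime
    · intro p hp
      exact hcon p (Nat.prime_of_mem_primesLE hp) (Nat.le_of_mem_primesLE hp)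
  have hle : (∏ p ∈ Nat.primesLE y, p) ≤ N := Nat.le_of_dvd (Nat.pos_of_ne_zero hN) hprod
  have hcard : 2 ^ (Nat.primesLE y).card ≤ ∏ p ∈ Nat.primesLE y, p := by
    rw [← Finset.prod_const]
    exact Finset.prod_le_prod' fun p hp => (Nat.prime_of_mem_primesLE hp).two_le
  have hlt : (Nat.primesLE y).card < B :=
    (Nat.pow_lt_pow_iff_right (by norm_num)).1 (lt_of_le_of_lt (hcard.trans hle) hB)
  have hy0 : y ≠ 0 := by positivity
  have hlcm : Nat.lcmUpto y ≤ (y + 1) ^ B := by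
    rw [Nat.lcmUpto_eq_prod_pow_log]
    calc (∏ p ∈ Nat.primesLE y, p ^ Nat.log p y)
        ≤ ∏ _p ∈ Nat.primesLE y, (y + 1) :=
          Finset.prod_le_prod' fun p _ => (Nat.pow_log_le_self p hy0).trans (Nat.le_succ y)
      _ = (y + 1) ^ (Nat.primesLE y).card := Finset.prod_const _
      _ ≤ (y + 1) ^ B := Nat.pow_le_pow_right (by omega) hlt.le
  have hsmall : y + 1 ≤ 2 ^ (2 * B + 6) := by
    have h1 : ∀ n : ℕ, 8 * (n + 2) ^ 2 + 1 ≤ 2 ^ (2 * n + 6) := by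
      intro n
      induction n with
      | zero => norm_num
      | succ n ih =>
        have e : 2 ^ (2 * (n + 1) + 6) = 4 * 2 ^ (2 * n + 6) := by
          rw [show 2 * (n + 1) + 6 = (2 * n + 6) + 2 by ring, pow_add]
          ring
        rw [e]
        have h2 : 8 * (n + 1 + 2) ^ 2 + 1 ≤ 4 * (8 * (n + 2) ^ 2 + 1) := by
          ring_nf
          nlinarith [Nat.zero_le (n ^ 2)]
        omega
    exact h1 B
  have hmain : 2 ^ y ≤ 2 ^ ((2 * B + 6) * (B + 1)) := by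
    calc 2 ^ y ≤ (y + 1) * Nat.lcmUpto y := Chebyshev.two_pow_le_mul_lcmUpto y
      _ ≤ (y + 1) * (y + 1) ^ B := Nat.mul_le_mul_left _ hlcm
      _ = (y + 1) ^ (B + 1) := by rw [pow_succ]; ring
      _ ≤ (2 ^ (2 * B + 6)) ^ (B + 1) := Nat.pow_le_pow_left hsmall _
      _ = 2 ^ ((2 * B + 6) * (B + 1)) := by rw [← pow_mul]
  have hfin : y ≤ (2 * B + 6) * (B + 1) := (Nat.pow_le_pow_iff_right (by norm_num)).1 hmain
  rw [hy] at hfin
  nlinarith [hfin]

end Pool.Agent.H79RDL
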