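import Pool.Agent.H79RDL.Prime

/-!
# RDL-RedInt: polynomial rings over `ℤ` are sized rings
-/

namespace Pool.Agent.H79RDL

/-- the sum of the absolute values of the coefficients -/
private noncomputable def nrm {r : ℕ} (P : MvPolynomial (Fin r) ℤ) : ℕ :=
  ∑ m ∈ P.support, (P.coeff m).natAbs

private theorem nrm_eq {r : ℕ} (P : MvPolynomial (Fin r) ℤ) (s : Finset (Fin r →₀ ℕ))
    (h : P.support ⊆ s) : nrm P = ∑ m ∈ s, (P.coeff m).natAbs := by
  unfold nrm
  refine Finset.sum_subset h fun m _ hm => ?_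
  rw [MvPolynomial.notMem_support_iff.1 hm]
  rfl

private theorem nrm_add {r : ℕ} (P Q : MvPolynomial (Fin r) ℤ) : nrm (P + Q) ≤ nrm P + nrm Q := by
  classical
  rw [nrm_eq P (P.support ∪ Q.support) Finset.subset_union_left,
    nrm_eq Q (P.support ∪ Q.support) Finset.subset_union_right,
    nrm_eq (P + Q) (P.support ∪ Q.support) MvPolynomial.support_add, ← Finset.sum_add_distrib]
  refine Finset.sum_le_sum fun m _ => ?_
  rw [MvPolynomial.coeff_add]
  exact Int.natAbs_add_le _ _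

private theorem nrm_zero {r : ℕ} : nrm (0 : MvPolynomial (Fin r) ℤ) = 0 := by
  unfold nrm
  simp

private theorem nrm_sum {r : ℕ} {ι : Type*} (s : Finset ι) (f : ι → MvPolynomial (Fin r) ℤ) :
    nrm (∑ i ∈ s, f i) ≤ ∑ i ∈ s, nrm (f i) := by
  classical
  induction s using Finset.induction_on with
  | empty => simp [nrm_zero]
  | insert a s ha ih =>
    rw [Finset.sum_insert ha, Finset.sum_insert ha]
    exact (nrm_add _ _).trans (Nat.add_le_add_left ih _)

private theorem nrm_monomial {r : ℕ} (m : Fin r →₀ ℕ) (c : ℤ) :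
    nrm (MvPolynomial.monomial m c) ≤ c.natAbs := by
  classical
  rw [nrm_eq _ {m} MvPolynomial.support_monomial_subset, Finset.sum_singleton,
    MvPolynomial.coeff_monomial, if_pos rfl]

private theorem nrm_mul {r : ℕ} (P Q : MvPolynomial (Fin r) ℤ) : nrm (P * Q) ≤ nrm P * nrm Q := by
  classical
  have h : P * Q = ∑ i ∈ P.support, ∑ j ∈ Q.support,
      MvPolynomial.monomial (i + j) (P.coeff i * Q.coeff j) := by
    conv_lhs => rw [P.as_sum, Q.as_sum]
    rw [Finset.sum_mul_sum]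
    refine Finset.sum_congr rfl fun i _ => Finset.sum_congr rfl fun j _ => ?_
    rw [MvPolynomial.monomial_mul]
  rw [h]
  refine (nrm_sum _ _).trans ?_
  unfold nrm
  rw [Finset.sum_mul_sum]
  refine Finset.sum_le_sum fun i _ => ?_
  refine (nrm_sum _ _).trans (Finset.sum_le_sum fun j _ => ?_)
  rw [← Int.natAbs_mul]
  exact nrm_monomial _ _

private theorem nrm_neg {r : ℕ} (P : MvPolynomial (Fin r) ℤ) : nrm (-P) = nrm P := by
  unfold nrm
  rw [MvPolynomial.support_neg]
  refine Finset.sum_congr rfl fun m _ => ?_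
  rw [MvPolynomial.coeff_neg, Int.natAbs_neg]

private theorem nrm_one {r : ℕ} : nrm (1 : MvPolynomial (Fin r) ℤ) ≤ 1 := by
  have h := nrm_monomial (r := r) 0 1
  simpa using h

private theorem eval_bound {r a : ℕ} (P : MvPolynomial (Fin r) ℤ) (hd : P.totalDegree ≤ a)
    (v : Fin r → ℤ) (h0 : ∀ i, 0 ≤ v i) (h1 : ∀ i, v i ≤ a) :
    (MvPolynomial.eval v P).natAbs ≤ nrm P * 2 ^ (a * a) := by
  rw [MvPolynomial.eval_eq']
  unfold nrm
  rw [Finset.sum_mul]
  refine (Int.natAbs_sum_le _ _).trans (Finset.sum_le_sum fun m hm => ?_)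
  rw [Int.natAbs_mul]
  refine Nat.mul_le_mul_left _ ?_
  have hm2 : ∑ i, m i ≤ a := by
    have h2 := MvPolynomial.le_totalDegree hm
    rw [Finsupp.sum_fintype _ _ (fun _ => rfl)] at h2
    exact h2.trans hd
  have hv : ∀ i, (v i).natAbs ≤ 2 ^ a := by
    intro i
    have h3 : (v i).natAbs ≤ a := by
      have := h0 i
      have := h1 i
      omega
    exact h3.trans Nat.lt_two_pow_self.le
  calc (∏ i, v i ^ m i).natAbs = ∏ i, (v i).natAbs ^ m i := by
        rw [← Int.natAbsHom_apply, map_prod]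
        refine Finset.prod_congr rfl fun i _ => ?_
        rw [map_pow]
        rfl
    _ ≤ ∏ i, (2 ^ a) ^ m i := Finset.prod_le_prod' fun i _ => Nat.pow_le_pow_left (hv i) _
    _ = (2 ^ a) ^ (∑ i, m i) := Finset.prod_pow_eq_pow_sum _ _ _
    _ ≤ (2 ^ a) ^ a := Nat.pow_le_pow_right (by positivity) hm2
    _ = 2 ^ (a * a) := by rw [← pow_mul]

/-- **`ℤ[t_1, …, t_r]` is a sized ring.** PROOF. Let
`B a = {P | P.totalDegree ≤ a ∧ ∑ m ∈ P.support, |P.coeff m| ≤ 2 ^ a}` (the sum as a natural number,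
`Int.natAbs`, or with the function `N P = P.sum fun _ c => c.natAbs`; `N (P+Q) ≤ N P + N Q`,
`N (P*Q) ≤ N P * N Q`, `N (-P) = N P`). `red`: `P ∈ B a`, `P ≠ 0`. By
`MvPolynomial.eq_zero_of_eval_zero_at_prod_finset` (Mathlib/Combinatorics/Nullstellensatz, with the
sets `{0, …, a} ⊆ ℤ`, `degreeOf i P ≤ totalDegree P ≤ a < a + 1`) there is `v : Fin r → ℤ` with
`0 ≤ v i ≤ a` and `eval v P ≠ 0`. `|eval v P| ≤ N P * (max 1 a) ^ a ≤ 2^a * 2^(a*a) < 2^(a+a*a+1)`.
By `exists_small_prime` there is a prime `p ≤ 8 (a + a² + 3)² ≤ (a+2)^c` not dividing it (`c = 9`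
suffices); `k = ZMod p`, `ψ = (Int.castRingHom (ZMod p)).comp (MvPolynomial.eval v)`. -/
theorem sized_int (r : ℕ) : Nonempty (Sized (MvPolynomial (Fin r) ℤ)) := by
  refine ⟨{ B := fun a => {P | P.totalDegree ≤ a ∧ nrm P ≤ 2 ^ a}, mono := ?_, exh := ?_,
            zero := ?_, one := ?_, neg := ?_, add := ?_, mul := ?_, red := ?_ }⟩
  · intro a b hab P hP
    exact ⟨hP.1.trans hab, hP.2.trans (Nat.pow_le_pow_right (by norm_num) hab)⟩
  · intro P
    refine ⟨max P.totalDegree (nrm P), le_max_left _ _, ?_⟩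
    exact (Nat.lt_two_pow_self (n := nrm P)).le.trans
      (Nat.pow_le_pow_right (by norm_num) (le_max_right _ _))
  · exact ⟨by simp, by rw [nrm_zero]; norm_num⟩
  · exact ⟨by simp, by simpa using nrm_one (r := r)⟩
  · intro a P hP
    exact ⟨by rw [MvPolynomial.totalDegree_neg]; exact hP.1, by rw [nrm_neg]; exact hP.2⟩
  · intro a P Q hP hQ
    refine ⟨(MvPolynomial.totalDegree_add P Q).trans ?_, (nrm_add P Q).trans ?_⟩
    · exact (max_le hP.1 hQ.1).trans (Nat.le_succ a)
    · rw [pow_succ]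
      have := hP.2
      have := hQ.2
      omega
  · intro a b P Q hP hQ
    refine ⟨(MvPolynomial.totalDegree_mul P Q).trans (Nat.add_le_add hP.1 hQ.1),
      (nrm_mul P Q).trans ?_⟩
    rw [pow_add]
    exact Nat.mul_le_mul hP.2 hQ.2
  · refine ⟨7, fun a P hP hP0 => ?_⟩
    have hex : ∃ v : Fin r → ℤ, (∀ i, 0 ≤ v i) ∧ (∀ i, v i ≤ a) ∧ MvPolynomial.eval v P ≠ 0 := by
      by_contra hcon
      push Not at hcon
      refine hP0 (MvPolynomial.eq_zero_of_eval_zero_at_prod_finset P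
        (fun _ => Finset.Icc (0 : ℤ) a) (fun i => ?_) fun x hx => ?_)
      · rw [Int.card_Icc]
        have h2 := (MvPolynomial.degreeOf_le_totalDegree P i).trans hP.1
        omega
      · exact hcon x (fun i => (Finset.mem_Icc.1 (hx i)).1) (fun i => (Finset.mem_Icc.1 (hx i)).2)
    obtain ⟨v, h0, h1, hv⟩ := hex
    have hb := eval_bound P hP.1 v h0 h1
    have hlt : (MvPolynomial.eval v P).natAbs < 2 ^ (a + a * a + 1) := by
      have h3 : nrm P * 2 ^ (a * a) ≤ 2 ^ (a + a * a) := by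
        rw [pow_add]
        exact Nat.mul_le_mul_right _ hP.2
      have h4 : 2 ^ (a + a * a) < 2 ^ (a + a * a + 1) := Nat.pow_lt_pow_right (by norm_num) (by omega)
      omega
    obtain ⟨p, hp, hple, hpd⟩ := exists_small_prime (Int.natAbs_ne_zero.2 hv) hlt
    haveI : Fact p.Prime := ⟨hp⟩
    refine ⟨ZMod p, inferInstance, inferInstance,
      (Int.castRingHom (ZMod p)).comp (MvPolynomial.eval v), ?_, ?_⟩
    · intro h
      apply hpd
      rw [RingHom.comp_apply, eq_intCast, ZMod.intCast_zmod_eq_zero_iff_dvd] at h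
      exact Int.natCast_dvd.1 h
    · rw [Nat.card_zmod]
      refine hple.trans ?_
      have h5 : a + a * a + 1 + 2 ≤ (a + 2) ^ 2 := by nlinarith
      calc 8 * (a + a * a + 1 + 2) ^ 2 ≤ (a + 2) ^ 3 * ((a + 2) ^ 2) ^ 2 :=
            Nat.mul_le_mul (by
              calc 8 = 2 ^ 3 := by norm_num
                _ ≤ (a + 2) ^ 3 := Nat.pow_le_pow_left (by omega) 3) (Nat.pow_le_pow_left h5 2)
        _ = (a + 2) ^ 7 := by ring

end Pool.Agent.H79RDL
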