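import Pool.Agent.H79RDL.Base

/-!
# RDL-Words: sizes of the matrices of words
-/

namespace Pool.Agent.H79RDL

open Pool.Agent.helper91.RDR

variable {Γ : Type*} [Group Γ]

private lemma sum_mem {R : Type} [CommRing R] (Z : Sized R) {ι : Type} (T : Finset ι) (f : ι → R)
    {b : ℕ} (h : ∀ i ∈ T, f i ∈ Z.B b) : ∑ i ∈ T, f i ∈ Z.B (b + T.card) := by
  classical
  induction T using Finset.induction_on with
  | empty =>
    rw [Finset.sum_empty]
    exact Z.mono (Nat.zero_le _) Z.zero
  | insert i T hi ih =>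
    rw [Finset.sum_insert hi, Finset.card_insert_of_notMem hi, ← add_assoc]
    refine Z.add (Z.mono (Nat.le_add_right _ _) (h i (Finset.mem_insert_self i T))) ?_
    exact ih fun j hj => h j (Finset.mem_insert_of_mem hj)

private lemma list_matrix {R : Type} [CommRing R] [IsDomain R] (Z : Sized R) (S : Finset Γ)
    {m : ℕ} (ψ : Γ →* Matrix (Fin m) (Fin m) (FractionRing R)) {s : R} {a : ℕ} (hsa : s ∈ Z.B a)
    (h : ∀ g : Γ, (g ∈ S ∨ g⁻¹ ∈ S) → ∃ M : Matrix (Fin m) (Fin m) R, (∀ i j, M i j ∈ Z.B a) ∧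
      M.map (algebraMap R (FractionRing R)) = algebraMap R (FractionRing R) s • ψ g) :
    ∀ (n : ℕ) (l : List Γ), l.length ≤ n → (∀ x ∈ l, x ∈ S ∨ x⁻¹ ∈ S) →
      ∃ M : Matrix (Fin m) (Fin m) R, (∀ i j, M i j ∈ Z.B (n * (a + m))) ∧
      M.map (algebraMap R (FractionRing R)) =
        algebraMap R (FractionRing R) (s ^ n) • ψ l.prod := by
  intro n
  induction n with
  | zero =>
    intro l hl _
    have hl0 : l = [] := List.length_eq_zero_iff.mp (Nat.le_zero.mp hl)
    subst hl0
    refine ⟨1, ?_, ?_⟩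
    · intro i j
      rw [Nat.zero_mul]
      by_cases hij : i = j
      · rw [hij, Matrix.one_apply_eq]
        exact Z.one
      · rw [Matrix.one_apply_ne hij]
        exact Z.zero
    · rw [pow_zero, map_one, one_smul, List.prod_nil, map_one]
      exact Matrix.map_one _ (map_zero _) (map_one _)
  | succ n ih =>
    intro l hl hS
    cases l with
    | nil =>
      obtain ⟨M, h1, h2⟩ := ih [] (Nat.zero_le _) (by simp)
      refine ⟨s • M, ?_, ?_⟩
      · intro i j
        rw [Matrix.smul_apply, smul_eq_mul]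
        refine Z.mono ?_ (Z.mul hsa (h1 i j))
        rw [Nat.succ_mul]
        omega
      · rw [pow_succ', map_mul, mul_smul, ← h2]
        ext i j
        simp [Matrix.map_apply, Matrix.smul_apply]
    | cons g l =>
      obtain ⟨M, h1, h2⟩ := ih l (by simpa using hl) fun x hx => hS x (List.mem_cons_of_mem g hx)
      obtain ⟨N, h3, h4⟩ := h g (hS g List.mem_cons_self)
      refine ⟨N * M, ?_, ?_⟩
      · intro i j
        rw [Matrix.mul_apply]
        have h5 := sum_mem Z (Finset.univ : Finset (Fin m)) (fun k => N i k * M k j)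
          (b := a + n * (a + m)) fun k _ => Z.mul (h3 i k) (h1 k j)
        refine Z.mono ?_ h5
        rw [Finset.card_univ, Fintype.card_fin, Nat.succ_mul]
        omega
      · rw [Matrix.map_mul, h2, h4, List.prod_cons, map_mul, pow_succ', map_mul, smul_mul_smul_comm]

/-- **Words.** Let `s ∈ R`, `s ≠ 0`, and let `s • ψ g` have entries in `R` of size `a`, for
`g ∈ S ∪ S⁻¹`; let also `s` have size `a`. PROOF by induction on `n` (an element with
`wordLength S x ≤ n + 1` is `1` or `g * x'` with `g ∈ S ∪ S⁻¹`, `wordLength S x' ≤ n`, or has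
`wordLength ≤ n`; see `wordLength_isLength` for the use of `Nat.sInf_mem`): for every `x` with
`wordLength S x ≤ n` there is a matrix `M` over `R` with entries in `Z.B (n * (a + m))` and
`M.map (algebraMap R K) = s ^ n • ψ x`. (Entries of a product of two `m × m` matrices of sizes `u`, `v`
have size `u + v + m`; if the length is `≤ n`, multiply by `s`.) -/
theorem word_matrix {R : Type} [CommRing R] [IsDomain R] (Z : Sized R) (S : Finset Γ)
    (hS : Subgroup.closure (S : Set Γ) = ⊤) {m : ℕ}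
    (ψ : Γ →* Matrix (Fin m) (Fin m) (FractionRing R)) {s : R} {a : ℕ} (hsa : s ∈ Z.B a)
    (h : ∀ g : Γ, (g ∈ S ∨ g⁻¹ ∈ S) → ∃ M : Matrix (Fin m) (Fin m) R, (∀ i j, M i j ∈ Z.B a) ∧
      M.map (algebraMap R (FractionRing R)) = algebraMap R (FractionRing R) s • ψ g) :
    ∀ (n : ℕ) (x : Γ), wordLength S x ≤ n → ∃ M : Matrix (Fin m) (Fin m) R,
      (∀ i j, M i j ∈ Z.B (n * (a + m))) ∧
      M.map (algebraMap R (FractionRing R)) = algebraMap R (FractionRing R) (s ^ n) • ψ x := by
  intro n x hx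
  have hne : ∃ n, n ∈ {n | ∃ l : List Γ, l.length = n ∧ (∀ x ∈ l, x ∈ S ∨ x⁻¹ ∈ S) ∧
      l.prod = x} := by
    have hg : x ∈ Subgroup.closure (S : Set Γ) := by rw [hS]; trivial
    rw [← Subgroup.mem_toSubmonoid, Subgroup.closure_toSubmonoid] at hg
    obtain ⟨l, hl, hlp⟩ := Submonoid.exists_list_of_mem_closure hg
    exact ⟨l.length, l, rfl, by simpa using hl, hlp⟩
  obtain ⟨l, h1, h2, h3⟩ := Nat.sInf_mem hne
  have h4 : l.length ≤ n := by
    rw [h1]
    exact hx
  obtain ⟨M, h5, h6⟩ := list_matrix Z S ψ hsa h n l h4 h2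
  rw [h3] at h6
  exact ⟨M, h5, h6⟩

end Pool.Agent.H79RDL
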